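import Pool.Agent.Helper622.Six.Grp

/-!
# The group for (6,0,0,0) is infinite

A 48-dimensional integral representation: 16 basis vectors for each of the three classes of
reflections of norm 4, with the geometric representation of the Coxeter group on the Clebsch graph
(all labels 3) in each class.
-/

set_option autoImplicit false

namespace Pool.Agent.Helper622.Six

/-- generic homomorphism from actions of words -/
theorem exists_hom (k t : ℕ) {A : Type} (f : Fin 6 → A → A)
    (h1 : ∀ i j : Fin 6, ∀ a, (rep (cm i j) [i, j]).foldr f a = a)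
    (h2 : ∀ a, (rep (ex k t) (tw k)).foldr f a = a) :
    ∃ F : PresentedGroup (rels k t) →* Equiv.Perm A,
      ∀ (l : List (Fin 6)) (a : A), F ((l.map PresentedGroup.of).prod) a = l.foldr f a := by
  have hinv : ∀ i, Function.Involutive (f i) := fun i a => by
    have := h1 i i a
    simpa [rep, cm] using this
  let P : Fin 6 → Equiv.Perm A := fun i => Function.Involutive.toPerm (f i) (hinv i)
  have hP : ∀ (l : List (Fin 6)) (a : A), ((l.map P).prod) a = l.foldr f a := by
    intro l
    induction l with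
    | nil => intro a; rfl
    | cons i l ih =>
      intro a
      rw [List.map_cons, List.prod_cons, Equiv.Perm.mul_apply, ih]
      rfl
  have hw : ∀ (w : List (Fin 6)) (n : ℕ), (∀ a, (rep n w).foldr f a = a) →
      ((w.map P).prod) ^ n = 1 := by
    intro w n h
    rw [← prod_rep]
    apply Equiv.ext
    intro a
    rw [hP, h]; rfl
  have hrel : ∀ w ∈ rels k t, FreeGroup.lift P w = 1 := by
    rintro w (⟨i, j, rfl⟩ | hw')
    · have h := hw [i, j] (cm i j) (h1 i j)
      rw [map_pow, map_mul, FreeGroup.lift_apply_of, FreeGroup.lift_apply_of]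
      simpa [cm] using h
    · have h := hw (tw k) (ex k t) h2
      rw [Set.mem_singleton_iff] at hw'
      rw [hw']
      by_cases hk : k = 1
      · rw [if_pos hk]
        simp only [tw, ex, if_pos hk, List.map_cons, List.map_nil, List.prod_cons, List.prod_nil,
          mul_one] at h
        simp only [map_pow, map_mul, FreeGroup.lift_apply_of]
        simpa only [mul_assoc] using h
      · rw [if_neg hk]
        simp only [tw, ex, if_neg hk, List.map_cons, List.map_nil, List.prod_cons, List.prod_nil,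
          mul_one] at h
        simp only [map_pow, map_mul, FreeGroup.lift_apply_of]
        simpa only [mul_assoc] using h
  refine ⟨PresentedGroup.toGroup hrel, fun l a => ?_⟩
  rw [map_list_prod, List.map_map, ← hP]
  congr 2

/-- indices: vectors mod 2 -/
structure K where
  a : Bool
  b : Bool
  c : Bool
  d : Bool
  e : Bool
  f : Bool

/-- equality test -/
def keq (x y : K) : Bool :=
  (x.a == y.a) && ((x.b == y.b) && ((x.c == y.c) && ((x.d == y.d) && ((x.e == y.e) && (x.f == y.f)))))

theorem keq_eq (x y : K) (h : keq x y = true) : x = y := by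
  cases x; cases y
  simp only [keq, Bool.and_eq_true, beq_iff_eq] at h
  obtain ⟨h1, h2, h3, h4, h5, h6⟩ := h
  subst h1 h2 h3 h4 h5 h6
  rfl

/-- reflections mod 2 -/
def pr : Fin 6 → K → K
  | 0, x => ⟨xor x.a x.b, x.b, x.c, x.d, x.e, x.f⟩
  | 1, x => ⟨x.a, xor x.b (xor x.a x.c), x.c, x.d, x.e, x.f⟩
  | 2, x => ⟨x.a, x.b, xor x.c (xor x.b x.d), x.d, x.e, x.f⟩
  | 3, x => ⟨x.a, x.b, x.c, xor x.d (xor x.c x.e), x.e, x.f⟩
  | 4, x => ⟨x.a, x.b, x.c, x.d, xor x.e x.f, x.f⟩
  | 5, x => ⟨x.a, x.b, x.c, x.d, x.e, xor x.f x.e⟩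

/-- the quadratic form on the first four coordinates -/
def qf (x : K) : Bool :=
  xor (xor (xor x.a x.b) (xor x.c x.d)) (xor (x.a && x.b) (xor (x.b && x.c) (x.c && x.d)))

/-- the matrices of the generators: image of a basis vector -/
def T6 : Fin 6 → K → List (ℤ × K)
  | 4, x => if x.e && !x.f then
      (if keq x ⟨false, false, false, false, true, false⟩ then [(-1, x)]
        else if qf x then [(1, x)]
        else [(1, x), (1, ⟨false, false, false, false, true, false⟩)])
      else [(1, pr 4 x)]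
  | 5, x => if x.f && !x.e then
      (if keq x ⟨false, false, false, false, false, true⟩ then [(-1, x)]
        else if qf x then [(1, x)]
        else [(1, x), (1, ⟨false, false, false, false, false, true⟩)])
      else [(1, pr 5 x)]
  | i, x => [(1, pr i x)]

/-- evaluation of a formal sum -/
def S6 (φ : K → ℤ) (l : List (ℤ × K)) : ℤ := (l.map (fun p => p.1 * φ p.2)).sum

theorem S6_nil (φ : K → ℤ) : S6 φ [] = 0 := rfl
theorem S6_cons (φ : K → ℤ) (p : ℤ × K) (l : List (ℤ × K)) :
    S6 φ (p :: l) = p.1 * φ p.2 + S6 φ l := by simp [S6]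

/-- insertion -/
def ins6 (e : ℤ) (u : K) : List (ℤ × K) → List (ℤ × K)
  | [] => [(e, u)]
  | p :: l => if keq u p.2 then (if p.1 + e == 0 then l else (p.1 + e, p.2) :: l)
      else p :: ins6 e u l

theorem S6_ins6 (φ : K → ℤ) (e : ℤ) (u : K) (l : List (ℤ × K)) :
    S6 φ (ins6 e u l) = e * φ u + S6 φ l := by
  induction l with
  | nil => simp [ins6, S6]
  | cons p l ih =>
    unfold ins6
    split_ifs with h1 h2
    · have h3 : p.1 + e = 0 := by simpa using h2
      have h4 := keq_eq _ _ h1
      rw [S6_cons, h4]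
      have : e = -p.1 := by linarith
      rw [this]; ring
    · rw [S6_cons, S6_cons, keq_eq _ _ h1]; ring
    · rw [S6_cons, S6_cons, ih]; ring

/-- add a multiple of a formal sum -/
def addm (c : ℤ) : List (ℤ × K) → List (ℤ × K) → List (ℤ × K)
  | [], acc => acc
  | q :: m, acc => ins6 (c * q.1) q.2 (addm c m acc)

theorem S6_addm (φ : K → ℤ) (c : ℤ) (m acc : List (ℤ × K)) :
    S6 φ (addm c m acc) = c * S6 φ m + S6 φ acc := by
  induction m with
  | nil => simp [addm, S6_nil]
  | cons q m ih => rw [addm, S6_ins6, ih, S6_cons]; ring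

/-- apply a generator to a formal sum -/
def ap (i : Fin 6) : List (ℤ × K) → List (ℤ × K)
  | [] => []
  | p :: l => addm p.1 (T6 i p.2) (ap i l)

/-- action on functionals -/
def act6 (i : Fin 6) (φ : K → ℤ) : K → ℤ := fun x => S6 φ (T6 i x)

theorem S6_ap (φ : K → ℤ) (i : Fin 6) (l : List (ℤ × K)) : S6 φ (ap i l) = S6 (act6 i φ) l := by
  induction l with
  | nil => rfl
  | cons p l ih => rw [ap, S6_addm, ih, S6_cons]; rfl

theorem S6_foldr (φ : K → ℤ) (w : List (Fin 6)) (l : List (ℤ × K)) :
    S6 (w.foldr act6 φ) l = S6 φ (w.foldl (fun m i => ap i m) l) := by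
  induction w generalizing l with
  | nil => rfl
  | cons i w ih => rw [List.foldr_cons, List.foldl_cons, ← ih, S6_ap]

/-- test that a word acts trivially on a basis vector -/
def triv (w : List (Fin 6)) (x : K) : Bool :=
  (ins6 (-1) x (w.foldl (fun m i => ap i m) [(1, x)])).isEmpty

theorem triv_foldr (w : List (Fin 6)) (h : ∀ a b c d e f : Bool, triv w ⟨a, b, c, d, e, f⟩ = true)
    (φ : K → ℤ) : w.foldr act6 φ = φ := by
  funext x
  have h1 := h x.a x.b x.c x.d x.e x.f
  unfold triv at h1
  rw [List.isEmpty_iff] at h1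
  have h2 := S6_ins6 φ (-1) x (w.foldl (fun m i => ap i m) [(1, x)])
  have h3 : (⟨x.a, x.b, x.c, x.d, x.e, x.f⟩ : K) = x := rfl
  rw [h3] at h1
  rw [h1, S6_nil, ← S6_foldr, S6_cons, S6_nil] at h2
  linarith

theorem cox6 : ∀ i j : Fin 6, ∀ a b c d e f : Bool,
    triv (rep (cm i j) [i, j]) ⟨a, b, c, d, e, f⟩ = true := by
  decide +kernel

theorem ext6 : ∀ a b c d e f : Bool,
    triv (rep 6 (tw 1)) ⟨a, b, c, d, e, f⟩ = true := by
  decide +kernel

/-- a word of infinite order -/
def w6 : List (Fin 6) :=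
  [4, 2, 3, 4, 5, 4, 3, 2, 3, 4, 1, 2, 3, 4, 0, 1, 2, 3, 4, 5, 4, 3, 2, 1, 0, 4, 3, 2, 1, 4, 3, 4, 5, 4, 3, 4, 2, 3, 4, 1, 2, 3, 4, 5, 4, 3, 2, 1, 4, 3, 2, 4, 3, 4, 5, 4, 3, 4, 1, 2, 3, 4, 0, 1, 2, 3, 4, 5, 4, 3, 2, 1, 0, 4, 3, 2, 1, 4, 3, 2, 3, 4, 5, 4, 3, 2, 4, 3, 4, 0, 1, 2, 3, 4, 5, 4, 3, 2, 1, 0, 4, 3].reverse

/-- first vertex -/
def k1 : K := ⟨false, false, true, true, false, true⟩

/-- the null root -/
def dl6 : List (ℤ × K) := [(1, ⟨false, false, true, true, false, true⟩),
  (1, ⟨true, false, false, true, false, true⟩), (1, ⟨false, false, false, false, false, true⟩),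
  (1, ⟨false, true, false, true, false, true⟩), (1, ⟨true, true, true, false, false, true⟩)]

theorem w6_1 : (addm (-1) dl6 (ins6 (-1) k1 (w6.foldl (fun m i => ap i m) [(1, k1)]))).isEmpty = true := by
  decide +kernel

theorem w6_2 : (addm (-1) dl6 (w6.foldl (fun m i => ap i m) dl6)).isEmpty = true := by
  decide +kernel

theorem infinite_1_6 : Infinite (PresentedGroup (rels 1 6)) := by
  obtain ⟨F, hF⟩ := exists_hom 1 6 act6 (fun i j a => triv_foldr _ (cox6 i j) a)
    (fun a => triv_foldr _ ext6 a)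
  set g : PresentedGroup (rels 1 6) := ((w6).map PresentedGroup.of).prod with hg
  have e1 : ∀ φ : K → ℤ, (F g φ) k1 = φ k1 + S6 φ dl6 := by
    intro φ
    have h1 := S6_addm φ (-1) dl6 (ins6 (-1) k1 (w6.foldl (fun m i => ap i m) [(1, k1)]))
    rw [List.isEmpty_iff.mp w6_1, S6_nil, S6_ins6, ← S6_foldr, S6_cons, S6_nil] at h1
    rw [hg, hF]
    linarith
  have e2 : ∀ φ : K → ℤ, S6 (F g φ) dl6 = S6 φ dl6 := by
    intro φ
    have h1 := S6_addm φ (-1) dl6 (w6.foldl (fun m i => ap i m) dl6)
    rw [List.isEmpty_iff.mp w6_2, S6_nil, ← S6_foldr] at h1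
    rw [hg, hF]
    linarith
  have key : ∀ n : ℕ, ∀ φ : K → ℤ, (((F g) ^ n) φ) k1 = φ k1 + n * S6 φ dl6 := by
    intro n
    induction n with
    | zero => intro φ; simp
    | succ n ih =>
      intro φ
      rw [pow_succ, Equiv.Perm.mul_apply, ih, e1, e2]
      push_cast
      ring
  refine Infinite.of_injective (fun n : ℕ => g ^ n) ?_
  intro a b hab
  have hab' : (F g) ^ a = (F g) ^ b := by
    have := congrArg F hab
    simpa using this
  have h1 := key a (fun _ => 1)
  have h2 := key b (fun _ => 1)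
  rw [hab', h2] at h1
  have h5 : S6 (fun _ => 1) dl6 = 5 := by decide
  rw [h5] at h1
  have : (a : ℤ) = b := by linarith
  exact_mod_cast this

end Pool.Agent.Helper622.Six
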