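import Pool.Agent.Helper622.Six.Lin

/-!
# The parameters 4 and 6 for k = 2, and 8 and 12 for k = 1
-/

set_option autoImplicit false

namespace Pool.Agent.Helper622.Six

open V X

/-- the cocycle data given by the roots of norm 2 -/
def C2 : Fin 6 → List (ℤ × V)
  | 0 => [(1, ⟨1, 0, 0, 0, 0, 0⟩)]
  | 1 => [(1, ⟨0, 1, 0, 0, 0, 0⟩)]
  | 2 => [(1, ⟨0, 0, 1, 0, 0, 0⟩)]
  | 3 => [(1, ⟨0, 0, 0, 1, 0, 0⟩)]
  | 4 => []
  | 5 => []

theorem cox2 : coxCheck C2 = true := by decide +kernel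

/-- the isotropic vector -/
def dl2 : V := ⟨0, 1, 2, 3, 2, 1⟩

/-- bilinear form -/
def pair (f v : V) : ℤ :=
  v.a * (2 * f.a - f.b) + v.b * (2 * f.b - f.a - f.c) + v.c * (2 * f.c - f.b - f.d) +
  v.d * (2 * f.d - f.c - 2 * f.e) + v.e * (4 * f.e - 2 * f.d - 2 * f.f) +
  v.f * (4 * f.f - 2 * f.e)

/-- quadratic form -/
def Q (f : V) : ℤ :=
  f.a * f.a + f.b * f.b + f.c * f.c + f.d * f.d + 2 * (f.e * f.e) + 2 * (f.f * f.f) -
  f.a * f.b - f.b * f.c - f.c * f.d - 2 * (f.d * f.e) - 2 * (f.e * f.f)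

theorem pair_r (i : Fin 6) (f v : V) : pair f (r i v) = pair (r i f) v := by
  fin_cases i <;> simp only [pair, r] <;> ring

theorem Q_r (i : Fin 6) (f : V) : Q (r i f) = Q f := by
  fin_cases i <;> simp only [Q, r] <;> ring

theorem parity (f v : V) (h0 : Even f.a) (hQ : Even (Q f)) (hv : v.a = 0) : Even (pair f v) := by
  have h1 : Even f.c ∧ (Even f.b ↔ Even f.d) := by
    simp only [Q, Int.even_add, Int.even_sub, Int.even_mul, h0] at hQ
    have e2 : Even (2 : ℤ) := even_two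
    simp only [e2, true_or, true_iff, iff_true, or_self] at hQ
    by_cases hb : Even f.b <;> by_cases hc : Even f.c <;> by_cases hd : Even f.d <;>
      simp_all [← Int.not_even_iff_odd]
  have e4 : Even (4 : ℤ) := ⟨2, rfl⟩
  have e2 : Even (2 : ℤ) := even_two
  simp only [pair, hv, zero_mul, zero_add, Int.even_add, Int.even_sub, Int.even_mul, e4, e2,
    true_or, h0, h1.1]
  by_cases hb : Even f.b
  · have hd : Even f.d := h1.2.mp hb
    simp [hb, hd]
  · have hd : ¬ Even f.d := fun h => hb (h1.2.mpr h)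
    simp [hb, hd]

variable {M : ℕ}

/-- functionals given by pairing with a vector of even quadratic form -/
def Pd (x : X M) : Prop := ∃ f : V, (∀ v, ev x v = ((pair f v : ℤ) : ZMod M)) ∧ Even (Q f)

theorem Pd_act (i : Fin 6) (x : X M) (h : Pd x) : Pd (act i x) := by
  obtain ⟨f, h1, h2⟩ := h
  exact ⟨r i f, fun v => by rw [ev_act, h1, pair_r], by rw [Q_r]; exact h2⟩

/-- full period -/
def per (M : ℕ) (v : V) : List (ℤ × V) := (List.range M).map (fun a : ℕ => (1, v + sm (a : ℤ) dl2))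

/-- sum over a full period -/
def T (ψ : ZMod M → ℤ) (c d : ZMod M) : ℤ :=
  ((List.range M).map (fun a : ℕ => ψ (c + (a : ZMod M) * d))).sum

theorem S_per (ψ : ZMod M → ℤ) (x : X M) (v : V) : S (ph ψ x) (per M v) = T ψ (ev x v) (ev x dl2) := by
  simp only [S, per, T, List.map_map, ph, Function.comp_def, one_mul, ev_add, ev_sm, Int.cast_natCast]

theorem S_flatten (φ : V → ℤ) (L : List (List (ℤ × V))) (h : ∀ l ∈ L, S φ l = 0) :
    S φ L.flatten = 0 := by
  induction L with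
  | nil => rfl
  | cons l L ih =>
    rw [List.flatten_cons, S_append, h l (by simp), ih (fun l' hl' => h l' (by simp [hl']))]
    rfl

/-- roots crossed by the period -/
def rts (k M : ℕ) : List V :=
  if k = 1 then
    [⟨0, 0, 1, 0, 0, 0⟩, ⟨0, 0, 1, 1, 0, 0⟩, ⟨0, 0, 1, 1, 1, 0⟩, ⟨0, 0, 1, 2, 1, 0⟩,
     ⟨0, 0, 1, 1, 1, 1⟩, ⟨0, 0, 1, 2, 1, 1⟩, ⟨0, 0, 1, 2, 2, 1⟩, ⟨0, 0, 1, 3, 2, 1⟩,
     ⟨0, 0, 2, 3, 2, 1⟩, ⟨0, 0, 2, 3, 2, 1⟩ + sm (M : ℤ) dl2]
  else
    [⟨0, 0, 0, 1, 1, 1⟩, ⟨0, 0, 1, 1, 1, 1⟩, ⟨0, 0, 1, 2, 1, 1⟩, ⟨0, 0, 1, 2, 2, 1⟩,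
     ⟨0, 0, 1, 3, 2, 1⟩, ⟨0, 0, 2, 3, 2, 1⟩]

/-- check of the relation -/
def evCheck (k M : ℕ) : Bool :=
  allZero (norm (terms C2 (rep M (tw k).reverse) ++ ngl (((rts k M).map (per M)).flatten)))
  && decide (∀ v ∈ rts k M, v.a = 0)
  && decide (∀ i j : Fin 6, (pair (bas j) (mat (rep M (tw k).reverse) (bas i) + -(bas i))) % (M : ℤ) = 0)

/-- property of the odd function -/
structure Good (M : ℕ) (ψ : ZMod M → ℤ) : Prop where
  odd : ∀ z, ψ (-z) = -ψ z
  s1 : ∀ c d : ZMod M, T ψ c d = 0 ∨ ∃ m : ZMod M, d = 4 * m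
  s2 : ∀ c m : ZMod M, T ψ (2 * c) (4 * m) = 0
  four : 4 ∣ M

theorem pair_lin (f v : V) : pair f v = f.a * pair (bas 0) v + f.b * pair (bas 1) v +
    f.c * pair (bas 2) v + f.d * pair (bas 3) v + f.e * pair (bas 4) v + f.f * pair (bas 5) v := by
  simp only [pair, bas]; ring

theorem even_rel (k : ℕ) (ψ : ZMod M → ℤ) (hg : Good M ψ) (hc : evCheck k M = true)
    (p : X M × ℤ) (hp : Pd p.1) : run C2 ψ (rep M (tw k).reverse) p = p := by
  obtain ⟨x, n⟩ := p
  obtain ⟨f, h1, h2⟩ := hp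
  simp only at h1
  simp only [evCheck, Bool.and_eq_true, decide_eq_true_eq] at hc
  obtain ⟨⟨hc1, hc2⟩, hc3⟩ := hc
  rw [run_eq]
  have hx : actw (rep M (tw k).reverse) x = x := by
    refine ext_bas (fun i => ?_)
    rw [ev_actw]
    have hdiff : ev x (mat (rep M (tw k).reverse) (bas i)) - ev x (bas i) = 0 := by
      have : ev x (mat (rep M (tw k).reverse) (bas i)) - ev x (bas i) =
          ev x (mat (rep M (tw k).reverse) (bas i) + -(bas i)) := by
        rw [ev_add, ev_neg]; ring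
      rw [this, h1, ZMod.intCast_zmod_eq_zero_iff_dvd, pair_lin]
      have hd : ∀ j : Fin 6, (M : ℤ) ∣ pair (bas j) (mat (rep M (tw k).reverse) (bas i) + -(bas i)) :=
        fun j => Int.dvd_of_emod_eq_zero (hc3 i j)
      exact Dvd.dvd.add (Dvd.dvd.add (Dvd.dvd.add (Dvd.dvd.add (Dvd.dvd.add
        ((hd 0).mul_left _) ((hd 1).mul_left _)) ((hd 2).mul_left _)) ((hd 3).mul_left _))
        ((hd 4).mul_left _)) ((hd 5).mul_left _)
    exact sub_eq_zero.mp hdiff
  have hS : S (ph ψ x) (terms C2 (rep M (tw k).reverse)) = 0 := by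
    rw [S_eq _ (ph_odd ψ hg.odd x) _ _ hc1]
    apply S_flatten
    intro l hl
    rw [List.mem_map] at hl
    obtain ⟨v, hv, rfl⟩ := hl
    rw [S_per]
    rcases hg.s1 (ev x v) (ev x dl2) with h | ⟨m, hm⟩
    · exact h
    · have hfa : Even f.a := by
        have hd : ev x dl2 = ((-f.a : ℤ) : ZMod M) := by
          rw [h1]; congr 1; simp only [pair, dl2]; ring
        obtain ⟨m', hm'⟩ := ZMod.intCast_surjective m
        have h3 : ((-f.a - 4 * m' : ℤ) : ZMod M) = 0 := by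
          have : ((-f.a - 4 * m' : ℤ) : ZMod M) = ((-f.a : ℤ) : ZMod M) - 4 * (m' : ZMod M) := by
            push_cast; ring
          rw [this, ← hd, hm, hm', sub_self]
        rw [ZMod.intCast_zmod_eq_zero_iff_dvd] at h3
        have h4 : (4 : ℤ) ∣ (M : ℤ) := by exact_mod_cast hg.four
        have h5 : (4 : ℤ) ∣ (-f.a - 4 * m') := h4.trans h3
        obtain ⟨t, ht⟩ := h5
        exact ⟨-2 * t - 2 * m', by linarith⟩
      have hev := parity f v hfa h2 (hc2 v hv)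
      obtain ⟨c, hcc⟩ := hev
      rw [hm, h1 v, hcc]
      have : (((c + c : ℤ)) : ZMod M) = 2 * (c : ZMod M) := by push_cast; ring
      rw [this]
      exact hg.s2 _ _
  rw [hx, hS, add_zero]

/-- odd function for modulus 8 -/
def p8 (z : ZMod 8) : ℤ := if z = 1 then 1 else if z = 7 then -1 else 0
/-- odd function for modulus 12 -/
def p12 (z : ZMod 12) : ℤ := if z = 3 then 1 else if z = 9 then -1 else 0

theorem good8 : Good 8 p8 where
  odd := by decide
  s1 := by decide +kernel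
  s2 := by decide +kernel
  four := by decide

theorem good12 : Good 12 p12 where
  odd := by decide
  s1 := by decide +kernel
  s2 := by decide +kernel
  four := by decide

theorem ev18 : evCheck 1 8 = true := by decide +kernel
theorem ev28 : evCheck 2 8 = true := by decide +kernel
theorem ev112 : evCheck 1 12 = true := by decide +kernel
theorem ev212 : evCheck 2 12 = true := by decide +kernel

/-- loop for modulus 8 -/
def w38 : List (Fin 6) := [5, 4, 3, 2, 1, 0, 4, 3, 2, 5, 4, 3, 2, 1, 0, 4, 3, 2, 1, 5, 4, 3, 4, 5, 2,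
  3, 4, 1, 2, 3, 4, 2, 3, 0, 1, 2, 0, 1]
/-- base functional -/
def x8 : X 8 := ⟨7, 5, 2, 0, 6, 6⟩
/-- loop for modulus 12 -/
def w39 : List (Fin 6) := [0, 2, 1, 3, 2, 4, 3, 2, 4, 3, 5, 4, 3, 2, 1, 0, 4, 3, 2, 1, 4, 5, 4, 3, 4, 2,
  3, 4, 5, 4, 3, 4, 1, 2, 3, 4, 3, 2, 1]
/-- base functional -/
def x12 : X 12 := ⟨4, 9, 5, 2, 2, 4⟩

theorem Pd8 : Pd x8 := by
  refine ⟨⟨-3, 3, -4, 3, 1, 0⟩, fun v => ?_, by decide⟩
  simp only [ev, x8, pair]
  push_cast
  have h : (8 : ZMod 8) = 0 := by decide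
  linear_combination (2 * (v.a : ZMod 8) - v.b + 2 * v.c - v.d + v.e + v.f) * h

theorem Pd12 : Pd x12 := by
  refine ⟨⟨3, 2, 4, 1, 4, 0⟩, fun v => ?_, by decide⟩
  simp only [ev, x12, pair]
  push_cast
  have h : (12 : ZMod 12) = 0 := by decide
  linear_combination ((v.b : ZMod 12) + v.d - v.e + v.f) * h

theorem fix8 : actw w38 x8 = x8 := by decide +kernel
theorem fix12 : actw w39 x12 = x12 := by decide +kernel
theorem tot8 : S (ph p8 x8) (terms C2 w38) ≠ 0 := by decide +kernel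
theorem tot12 : S (ph p12 x12) (terms C2 w39) ≠ 0 := by decide +kernel

theorem infinite_2_4 : Infinite (PresentedGroup (rels 2 4)) :=
  infinite_of C2 p8 good8.odd Pd Pd_act cox2 2 4
    (fun p hp => even_rel 2 p8 good8 ev28 p hp) w38 x8 Pd8 fix8 tot8

theorem infinite_1_8 : Infinite (PresentedGroup (rels 1 8)) :=
  infinite_of C2 p8 good8.odd Pd Pd_act cox2 1 8
    (fun p hp => even_rel 1 p8 good8 ev18 p hp) w38 x8 Pd8 fix8 tot8

theorem infinite_2_6 : Infinite (PresentedGroup (rels 2 6)) :=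
  infinite_of C2 p12 good12.odd Pd Pd_act cox2 2 6
    (fun p hp => even_rel 2 p12 good12 ev212 p hp) w39 x12 Pd12 fix12 tot12

theorem infinite_1_12 : Infinite (PresentedGroup (rels 1 12)) :=
  infinite_of C2 p12 good12.odd Pd Pd_act cox2 1 12
    (fun p hp => even_rel 1 p12 good12 ev112 p hp) w39 x12 Pd12 fix12 tot12

end Pool.Agent.Helper622.Six
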