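import Pool.Agent.Helper622.Six.OddInf
import Pool.Agent.Helper622.Six.Even

set_option autoImplicit false

namespace Pool.Agent.Helper622.Six

open V X

theorem extra_rel (k t : ℕ) :
    (if k = 1 then
      (FreeGroup.of (1 : Fin 6) *
        (FreeGroup.of (2 : Fin 6) * FreeGroup.of (3 : Fin 6) * FreeGroup.of (4 : Fin 6) *
          FreeGroup.of (3 : Fin 6) * FreeGroup.of (2 : Fin 6)) *
        (FreeGroup.of (5 : Fin 6) * FreeGroup.of (4 : Fin 6) * FreeGroup.of (3 : Fin 6) *
          FreeGroup.of (4 : Fin 6) * FreeGroup.of (5 : Fin 6)) *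
        (FreeGroup.of (2 : Fin 6) * FreeGroup.of (3 : Fin 6) * FreeGroup.of (4 : Fin 6) *
          FreeGroup.of (3 : Fin 6) * FreeGroup.of (2 : Fin 6))) ^ t
    else
      (FreeGroup.of (1 : Fin 6) *
        (FreeGroup.of (2 : Fin 6) * FreeGroup.of (3 : Fin 6) * FreeGroup.of (4 : Fin 6) *
          FreeGroup.of (3 : Fin 6) * FreeGroup.of (2 : Fin 6)) *
        (FreeGroup.of (5 : Fin 6) * FreeGroup.of (4 : Fin 6) * FreeGroup.of (3 : Fin 6) *
          FreeGroup.of (4 : Fin 6) * FreeGroup.of (5 : Fin 6))) ^ (2 * t)) =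
    (((tw k).map FreeGroup.of).prod) ^ (ex k t) := by
  by_cases hk : k = 1
  · rw [if_pos hk]
    simp only [tw, ex, if_pos hk, List.map_cons, List.map_nil, List.prod_cons, List.prod_nil,
      mul_one, mul_assoc]
  · rw [if_neg hk]
    simp only [tw, ex, if_neg hk, List.map_cons, List.map_nil, List.prod_cons, List.prod_nil,
      mul_one, mul_assoc]

/-- passing to divisors -/
theorem infinite_dvd (k s d : ℕ) (h : d ∣ s) (hinf : Infinite (PresentedGroup (rels k d))) :
    Infinite (PresentedGroup (rels k s)) := by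
  obtain ⟨m, rfl⟩ := h
  have hrel : ∀ w ∈ rels k (d * m),
      FreeGroup.lift (PresentedGroup.of : Fin 6 → PresentedGroup (rels k d)) w = 1 := by
    have hl : ∀ w : FreeGroup (Fin 6),
        FreeGroup.lift (PresentedGroup.of : Fin 6 → PresentedGroup (rels k d)) w =
          PresentedGroup.mk (rels k d) w := by
      intro w
      have : FreeGroup.lift (PresentedGroup.of : Fin 6 → PresentedGroup (rels k d)) =
          PresentedGroup.mk (rels k d) := by
        apply FreeGroup.ext_hom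
        intro i
        rw [FreeGroup.lift_apply_of]; rfl
      rw [this]
    rintro w (⟨i, j, rfl⟩ | hw)
    · rw [hl]
      exact PresentedGroup.one_of_mem (Or.inl ⟨i, j, rfl⟩)
    · rw [Set.mem_singleton_iff, extra_rel] at hw
      rw [hl, hw]
      have h1 : PresentedGroup.mk (rels k d) ((((tw k).map FreeGroup.of).prod) ^ (ex k d)) = 1 :=
        PresentedGroup.one_of_mem (Or.inr (by rw [Set.mem_singleton_iff, extra_rel]))
      have h2 : ex k (d * m) = ex k d * m := by
        unfold ex; split_ifs <;> ring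
      rw [h2, pow_mul, map_pow, h1, one_pow]
  have hsurj : Function.Surjective (PresentedGroup.toGroup hrel) := by
    intro g
    obtain ⟨w, rfl⟩ := PresentedGroup.mk_surjective (rels k d) g
    refine ⟨PresentedGroup.mk _ w, ?_⟩
    have hc : (PresentedGroup.toGroup hrel).comp (PresentedGroup.mk (rels k (d * m))) =
        PresentedGroup.mk (rels k d) := by
      apply FreeGroup.ext_hom
      intro i
      show PresentedGroup.toGroup hrel (PresentedGroup.of i) = PresentedGroup.of i
      exact PresentedGroup.toGroup.of hrel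
    exact DFunLike.congr_fun hc w
  exact Infinite.of_surjective _ hsurj

theorem cases_nat (s : ℕ) (hs : 1 ≤ s) :
    (∃ d, Odd d ∧ 5 ≤ d ∧ d ∣ s) ∨ (∃ a, s = 2 ^ a) ∨ (∃ a, s = 2 ^ a * 3) := by
  obtain ⟨a, m, hm, rfl⟩ := Nat.exists_eq_two_pow_mul_odd (by omega : s ≠ 0)
  by_cases h5 : 5 ≤ m
  · exact Or.inl ⟨m, hm, h5, Dvd.intro_left _ rfl⟩
  · have : m = 1 ∨ m = 3 := by
      obtain ⟨t, ht⟩ := hm
      omega
    rcases this with rfl | rfl
    · exact Or.inr (Or.inl ⟨a, by ring⟩)
    · exact Or.inr (Or.inr ⟨a, rfl⟩)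

/-- **Infiniteness.** -/
theorem infinite_main (k s : ℕ) (hk : k = 1 ∨ k = 2) (h2 : 2 ≤ s)
    (h12 : ¬ (k = 1 ∧ s = 2)) (h13 : ¬ (k = 1 ∧ s = 3)) (h14 : ¬ (k = 1 ∧ s = 4))
    (h16 : ¬ (k = 1 ∧ s = 6)) (h22 : ¬ (k = 2 ∧ s = 2)) (h23 : ¬ (k = 2 ∧ s = 3)) :
    Infinite (PresentedGroup (rels k s)) := by
  rcases cases_nat s (by omega) with ⟨d, hd, h5, hds⟩ | ⟨a, rfl⟩ | ⟨a, rfl⟩
  · exact infinite_dvd k s d hds (infinite_odd k d hd h5)
  · rcases hk with rfl | rfl
    · have ha : 3 ≤ a := by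
        by_contra h
        have : a = 0 ∨ a = 1 ∨ a = 2 := by omega
        rcases this with rfl | rfl | rfl
        · norm_num at h2
        · exact h12 ⟨rfl, rfl⟩
        · exact h14 ⟨rfl, rfl⟩
      exact infinite_dvd 1 _ 8 (Nat.pow_dvd_pow 2 ha) infinite_1_8
    · have ha : 2 ≤ a := by
        by_contra h
        have : a = 0 ∨ a = 1 := by omega
        rcases this with rfl | rfl
        · norm_num at h2
        · exact h22 ⟨rfl, rfl⟩
      exact infinite_dvd 2 _ 4 (Nat.pow_dvd_pow 2 ha) infinite_2_4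
  · rcases hk with rfl | rfl
    · have ha : 2 ≤ a := by
        by_contra h
        have : a = 0 ∨ a = 1 := by omega
        rcases this with rfl | rfl
        · exact h13 ⟨rfl, rfl⟩
        · exact h16 ⟨rfl, rfl⟩
      exact infinite_dvd 1 _ 12 (Nat.mul_dvd_mul (Nat.pow_dvd_pow 2 ha) (dvd_refl 3)) infinite_1_12
    · have ha : 1 ≤ a := by
        by_contra h
        have : a = 0 := by omega
        subst this
        exact h23 ⟨rfl, rfl⟩
      exact infinite_dvd 2 _ 6 (Nat.mul_dvd_mul (Nat.pow_dvd_pow 2 ha) (dvd_refl 3)) infinite_2_6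

end Pool.Agent.Helper622.Six
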