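import Pool.Agent.Helper622.Six.CG3
import Pool.Agent.Helper622.Six.Main
import Pool.Agent.Helper622.Six.Inf16

/-!
# Families (B) and (C)
-/

set_option autoImplicit false

namespace Pool.Agent.Helper622.Six

open V

theorem infA1 (d : ℕ) (hd : 5 ≤ d) : Infinite (PresentedGroup (rels 1 d)) := by
  by_cases h6 : d = 6
  · subst h6; exact infinite_1_6
  · exact infinite_main 1 d (Or.inl rfl) (by omega) (by omega) (by omega) (by omega) (by omega)
      (by omega) (by omega)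

theorem infA2 (d : ℕ) (hd : 4 ≤ d) : Infinite (PresentedGroup (rels 2 d)) :=
  infinite_main 2 d (Or.inr rfl) (by omega) (by omega) (by omega) (by omega) (by omega)
    (by omega) (by omega)

/-- regular dominant functional -/
def rg : V := ⟨1, 1, 1, 1, 1, 1⟩

/-- equality of words in the Coxeter group -/
def eqw (l m : List (Fin 6)) : Bool := veq ((m.reverse ++ l).foldr fa rg) rg

section

variable {κ d : ℕ}

/-- product of a word -/
def pw' (κ d : ℕ) (l : List (Fin 6)) : PresentedGroup (rels κ d) := (l.map PresentedGroup.of).prod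

theorem pw_append (l m : List (Fin 6)) : pw' κ d (l ++ m) = pw' κ d l * pw' κ d m := by
  simp [pw']

theorem pw_reverse (l : List (Fin 6)) : pw' κ d l.reverse = (pw' κ d l)⁻¹ := prod_rev_inv l

theorem pw_rep (n : ℕ) (l : List (Fin 6)) : pw' κ d (rep n l) = (pw' κ d l) ^ n := prod_rep _ n l

theorem eqw_prod (l m : List (Fin 6)) (h : eqw l m = true) : pw' κ d l = pw' κ d m := by
  have h1 := word_mem (of_sq κ d) (of_cox κ d) (fun _ => True) ⊥ rg
    (fun i _ => by revert i; decide) (fun i _ h => by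
      exfalso; revert i; decide) (m.reverse ++ l) (fun _ _ => trivial) ((veq_iff _ _).mp h)
  have h2 : pw' κ d (m.reverse ++ l) = 1 := Subgroup.mem_bot.mp h1
  rw [pw_append, pw_reverse] at h2
  exact (inv_mul_eq_one.mp h2).symm

/-- conjugated word -/
def cj (g c : List (Fin 6)) : List (Fin 6) := g ++ (c ++ g.reverse)

theorem pw_cj (g c : List (Fin 6)) (n : ℕ) (hc : (pw' κ d c) ^ n = 1) :
    (pw' κ d (cj g c)) ^ n = 1 := by
  rw [cj, pw_append, pw_append, pw_reverse, ← mul_assoc, conj_pow, hc]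
  simp

theorem ex1 (T c g : List (Fin 6)) (p e n m : ℕ) (hc : (pw' κ d c) ^ d = 1)
    (h : eqw (rep p T) (rep e (cj g c)) = true) (hn : n = p * m) (hd : d ∣ e * m) :
    (pw' κ d T) ^ n = 1 := by
  have h1 := eqw_prod (κ := κ) (d := d) _ _ h
  rw [pw_rep, pw_rep] at h1
  rw [hn, pow_mul, h1, ← pow_mul]
  obtain ⟨q, hq⟩ := hd
  rw [hq, pow_mul, pw_cj g c d hc, one_pow]

theorem ex2 (T c g1 g2 : List (Fin 6)) (p n m : ℕ) (hc : (pw' κ d c) ^ d = 1)
    (h : eqw (rep p T) (cj g1 c ++ cj g2 c) = true)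
    (h' : eqw (cj g1 c ++ cj g2 c) (cj g2 c ++ cj g1 c) = true) (hn : n = p * m) (hd : d ∣ m) :
    (pw' κ d T) ^ n = 1 := by
  have h1 := eqw_prod (κ := κ) (d := d) _ _ h
  have h2 := eqw_prod (κ := κ) (d := d) _ _ h'
  rw [pw_rep, pw_append] at h1
  rw [pw_append, pw_append] at h2
  have h3 : Commute (pw' κ d (cj g1 c)) (pw' κ d (cj g2 c)) := h2
  obtain ⟨q, hq⟩ := hd
  rw [hn, pow_mul, h1, hq, pow_mul, h3.mul_pow, pw_cj g1 c d hc, pw_cj g2 c d hc, one_mul, one_pow]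

/-- a subgroup of finite index generated by words, as image of a presented group -/
theorem transfer (R : Set (FreeGroup (Fin 6))) (hinf : Infinite (PresentedGroup (rels κ d)))
    (b : Fin 6 → List (Fin 6))
    (hrel : ∀ r ∈ R, FreeGroup.lift (fun i => pw' κ d (b i)) r = 1)
    (reps : List (List (Fin 6))) (h0 : [] ∈ reps)
    (hcos : ∀ c ∈ reps, ∀ i : Fin 6, ∃ h : List (Fin 6), ∃ c' ∈ reps,
      eqw (c ++ [i]) (h.flatMap b ++ c') = true) : Infinite (PresentedGroup R) := by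
  by_contra hfin
  rw [not_infinite_iff_finite] at hfin
  set F : PresentedGroup R →* PresentedGroup (rels κ d) := PresentedGroup.toGroup hrel with hF
  have hFw : ∀ h : List (Fin 6), F ((h.map PresentedGroup.of).prod) = pw' κ d (h.flatMap b) := by
    intro h
    induction h with
    | nil => simp [pw']
    | cons i h ih =>
      rw [List.map_cons, List.prod_cons, map_mul, ih, List.flatMap_cons, pw_append]
      congr 1
      exact PresentedGroup.toGroup.of hrel
  have hall : ∀ l : List (Fin 6), ∃ x : PresentedGroup R, ∃ c ∈ reps,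
      pw' κ d l = F x * pw' κ d c := by
    intro l
    induction l using List.reverseRecOn with
    | nil => exact ⟨1, [], h0, by simp [pw']⟩
    | append_singleton l i ih =>
      obtain ⟨x, c, hc, hx⟩ := ih
      obtain ⟨h, c', hc', he⟩ := hcos c hc i
      refine ⟨x * (h.map PresentedGroup.of).prod, c', hc', ?_⟩
      have h1 := eqw_prod (κ := κ) (d := d) _ _ he
      rw [pw_append, pw_append] at h1
      rw [pw_append, hx, mul_assoc, h1, map_mul, hFw, mul_assoc]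
  have hsurj : Function.Surjective (fun p : PresentedGroup R × {c // c ∈ reps} =>
      F p.1 * pw' κ d p.2.1) := by
    intro g
    have hg : g ∈ clo κ d (fun _ => true) := by
      unfold clo
      have : {i : Fin 6 | (fun _ => true) i = true} = Set.univ := by ext; simp
      rw [this, Set.image_univ, PresentedGroup.closure_range_of]
      trivial
    obtain ⟨l, _, hl⟩ := exists_word _ g hg
    obtain ⟨x, c, hc, hx⟩ := hall l
    exact ⟨(x, ⟨c, hc⟩), by rw [← hl]; exact hx.symm⟩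
  have hf2 : Finite {c // c ∈ reps} := by
    exact List.finite_toSet reps
  have : Finite (PresentedGroup (rels κ d)) := Finite.of_surjective _ hsurj
  exact not_finite_iff_infinite.mpr hinf this

end

/-- base relation, first kind -/
theorem base1 (d : ℕ) : (pw' 1 d (tw 1)) ^ d = 1 := by
  have h1 : PresentedGroup.mk (rels 1 d) ((((tw 1).map FreeGroup.of).prod) ^ (ex 1 d)) = 1 :=
    PresentedGroup.one_of_mem (Or.inr (by rw [Set.mem_singleton_iff, extra_rel]))
  rw [map_pow, map_list_prod, List.map_map] at h1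
  exact h1

/-- base relation, second kind -/
theorem base2 (d : ℕ) : (pw' 2 d (rep 2 (tw 2))) ^ d = 1 := by
  have h1 : PresentedGroup.mk (rels 2 d) ((((tw 2).map FreeGroup.of).prod) ^ (ex 2 d)) = 1 :=
    PresentedGroup.one_of_mem (Or.inr (by rw [Set.mem_singleton_iff, extra_rel]))
  rw [map_pow, map_list_prod, List.map_map] at h1
  rw [pw_rep, ← pow_mul]
  exact h1

/-- Coxeter exponents of type {3,3,4,3,3} -/
def mB (i j : Fin 6) : ℕ :=
  if i = j then 1 else
    if (i.val + 1 = j.val ∨ j.val + 1 = i.val) then (if min i.val j.val = 2 then 4 else 3) else 2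

/-- Coxeter exponents of type {3,4,3,3,4} -/
def mC (i j : Fin 6) : ℕ :=
  if i = j then 1 else
    if (i.val + 1 = j.val ∨ j.val + 1 = i.val) then
      (if min i.val j.val = 1 ∨ min i.val j.val = 4 then 4 else 3) else 2

/-- word of the relator of the facets {3,3,4,3}_s in family (B) -/
def wB1 (k : ℕ) : List (Fin 6) :=
  if k = 1 then [0, 1, 2, 3, 2, 1, 4, 3, 2, 3, 4, 1, 2, 3, 2, 1] else [0, 1, 2, 3, 2, 1, 4, 3, 2, 3, 4]

/-- word of the relator of the vertex-figures {3,4,3,3}_t in family (B) -/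
def wB2 (k : ℕ) : List (Fin 6) :=
  if k = 1 then [5, 4, 3, 2, 3, 4, 1, 2, 3, 2, 1, 4, 3, 2, 3, 4] else [5, 4, 3, 2, 3, 4, 1, 2, 3, 2, 1]

/-- word of the relator of the facets {3,4,3,3}_t in family (C) -/
def wC1 (k : ℕ) : List (Fin 6) :=
  if k = 1 then [4, 3, 2, 1, 2, 3, 0, 1, 2, 1, 0, 3, 2, 1, 2, 3] else [4, 3, 2, 1, 2, 3, 0, 1, 2, 1, 0]

/-- word of the relator of the vertex-figures {4,3,3,4}_u in family (C) -/
def wC2 (l : ℕ) : List (Fin 6) :=
  if l = 1 then [1, 2, 3, 4, 5, 4, 3, 2] else if l = 2 then [1, 2, 3, 4, 5, 4, 3]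
  else [1, 2, 3, 4, 5]

/-- relators of the group of family (B) -/
def relsB (k s k' t : ℕ) : Set (FreeGroup (Fin 6)) :=
  {w | ∃ i j : Fin 6, w = (FreeGroup.of i * FreeGroup.of j) ^ (mB i j)} ∪
  {(((wB1 k).map FreeGroup.of).prod) ^ (k * s), (((wB2 k').map FreeGroup.of).prod) ^ (k' * t)}

/-- relators of the group of family (C) -/
def relsC (k t l u : ℕ) : Set (FreeGroup (Fin 6)) :=
  {w | ∃ i j : Fin 6, w = (FreeGroup.of i * FreeGroup.of j) ^ (mC i j)} ∪
  {(((wC1 k).map FreeGroup.of).prod) ^ (k * t), (((wC2 l).map FreeGroup.of).prod) ^ (l * u)}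

theorem lift_word {κ d : ℕ} (b : Fin 6 → List (Fin 6)) (w : List (Fin 6)) :
    FreeGroup.lift (fun i => pw' κ d (b i)) ((w.map FreeGroup.of).prod) = pw' κ d (w.flatMap b) := by
  induction w with
  | nil => simp [pw']
  | cons i w ih =>
    rw [List.map_cons, List.prod_cons, map_mul, ih, FreeGroup.lift_apply_of, List.flatMap_cons,
      pw_append]

theorem lift_cox {κ d : ℕ} (b : Fin 6 → List (Fin 6)) (m : Fin 6 → Fin 6 → ℕ)
    (h : ∀ i j : Fin 6, eqw (rep (m i j) (b i ++ b j)) [] = true) (i j : Fin 6) :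
    FreeGroup.lift (fun i => pw' κ d (b i)) ((FreeGroup.of i * FreeGroup.of j) ^ (m i j)) = 1 := by
  rw [map_pow, map_mul, FreeGroup.lift_apply_of, FreeGroup.lift_apply_of, ← pw_append, ← pw_rep,
    eqw_prod _ _ (h i j)]
  simp [pw']

/-- generators of the subgroup of index 5 -/
def bB : Fin 6 → List (Fin 6)
  | 0 => [0]
  | 1 => [1]
  | 2 => [2]
  | 3 => [3, 4, 3]
  | 4 => [5]
  | 5 => [4]

/-- generators of the subgroup of index 10 -/
def bC : Fin 6 → List (Fin 6)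
  | 0 => [0]
  | 1 => [1]
  | 2 => [2, 3, 4, 3, 2]
  | 3 => [5]
  | 4 => [4]
  | 5 => [3]

theorem coxB : ∀ i j : Fin 6, eqw (rep (mB i j) (bB i ++ bB j)) [] = true := by decide +kernel
theorem coxC : ∀ i j : Fin 6, eqw (rep (mC i j) (bC i ++ bC j)) [] = true := by decide +kernel

/-- coset representatives -/
def rpB : List (List (Fin 6)) := [[], [3], [3, 2], [3, 2, 1], [3, 2, 1, 0]]

/-- coset table -/
def tbB : List (List (List (Fin 6) × ℕ)) := [[([0], 0), ([1], 0), ([2], 0), ([], 1), ([5], 0), ([4], 0)],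
  [([0], 1), ([1], 1), ([], 2), ([], 0), ([3], 1), ([4], 1)],
  [([0], 2), ([], 3), ([], 1), ([2], 2), ([3], 2), ([4], 2)],
  [([], 4), ([], 2), ([1], 3), ([2], 3), ([3], 3), ([4], 3)],
  [([], 3), ([0], 4), ([1], 4), ([2], 4), ([3], 4), ([4], 4)]]

/-- coset representatives -/
def rpC : List (List (Fin 6)) := [[], [2], [2, 1], [2, 3], [2, 1, 0], [2, 1, 3], [2, 1, 0, 3], [2, 1, 3, 2], [2, 1, 0, 3, 2], [2, 1, 0, 3, 2, 1]]

/-- coset table -/
def tbC : List (List (List (Fin 6) × ℕ)) := [[([0], 0), ([1], 0), ([], 1), ([5], 0), ([4], 0), ([3], 0)],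
  [([0], 1), ([], 2), ([], 0), ([], 3), ([4], 1), ([3], 1)],
  [([], 4), ([], 1), ([1], 2), ([], 5), ([4], 2), ([3], 2)],
  [([0], 3), ([], 5), ([5], 3), ([], 1), ([2], 3), ([3], 3)],
  [([], 2), ([0], 4), ([1], 4), ([], 6), ([4], 4), ([3], 4)],
  [([], 6), ([], 3), ([], 7), ([], 2), ([2], 5), ([3], 5)],
  [([], 5), ([0], 6), ([], 8), ([], 4), ([2], 6), ([3], 6)],
  [([], 8), ([5], 7), ([], 5), ([1], 7), ([2], 7), ([3], 7)],
  [([], 7), ([], 9), ([], 6), ([1], 8), ([2], 8), ([3], 8)],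
  [([5], 9), ([], 8), ([0], 9), ([1], 9), ([2], 9), ([3], 9)]]

/-- table check -/
def tchk (b : Fin 6 → List (Fin 6)) (rp : List (List (Fin 6)))
    (tb : List (List (List (Fin 6) × ℕ))) : Bool :=
  (List.range rp.length).all (fun j => (List.finRange 6).all (fun i =>
    let e := (tb.getD j []).getD i.val ([], 0)
    decide (e.2 < rp.length) && eqw (rp.getD j [] ++ [i]) (e.1.flatMap b ++ rp.getD e.2 [])))

theorem tchkB : tchk bB rpB tbB = true := by decide +kernel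
theorem tchkC : tchk bC rpC tbC = true := by decide +kernel

theorem tchk_spec (b : Fin 6 → List (Fin 6)) (rp : List (List (Fin 6)))
    (tb : List (List (List (Fin 6) × ℕ))) (h : tchk b rp tb = true) :
    ∀ c ∈ rp, ∀ i : Fin 6, ∃ h : List (Fin 6), ∃ c' ∈ rp,
      eqw (c ++ [i]) (h.flatMap b ++ c') = true := by
  intro c hc i
  obtain ⟨j, hj, rfl⟩ := List.getElem_of_mem hc
  simp only [tchk, List.all_eq_true, List.mem_range, List.mem_finRange, forall_const,
    Bool.and_eq_true, decide_eq_true_eq] at h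
  obtain ⟨h1, h2⟩ := h j hj i
  refine ⟨((tb.getD j []).getD i.val ([], 0)).1,
    rp.getD ((tb.getD j []).getD i.val ([], 0)).2 [], ?_, ?_⟩
  rotate_left
  · rw [List.getD_eq_getElem _ _ hj] at h2
    exact h2
  · rw [List.getD_eq_getElem _ _ h1]
    exact List.getElem_mem h1

theorem rB1_1_1 (d n m : ℕ) (hn : n = 1 * m) (hd : d ∣ 1 * m) :
    (pw' 1 d ((wB1 1).flatMap bB)) ^ n = 1 :=
  ex1 _ (tw 1) [3, 2, 1, 0] 1 1 n m (base1 d) (by decide +kernel) hn hd

theorem rB1_1_2 (d n m : ℕ) (hn : n = 2 * m) (hd : d ∣ m) :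
    (pw' 2 d ((wB1 1).flatMap bB)) ^ n = 1 :=
  ex2 _ (rep 2 (tw 2)) [3, 2, 1, 0] [3, 2, 1, 0, 5, 4, 3, 4, 5] 2 n m (base2 d) (by decide +kernel) (by decide +kernel) hn hd

theorem rB1_2_1 (d n m : ℕ) (hn : n = 2 * m) (hd : d ∣ m) :
    (pw' 1 d ((wB1 2).flatMap bB)) ^ n = 1 :=
  ex2 _ (tw 1) [3, 2, 1, 0] [3, 2, 1, 0, 2, 3, 4, 3, 2] 2 n m (base1 d) (by decide +kernel) (by decide +kernel) hn hd

theorem rB1_2_2 (d n m : ℕ) (hn : n = 2 * m) (hd : d ∣ 1 * m) :
    (pw' 2 d ((wB1 2).flatMap bB)) ^ n = 1 :=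
  ex1 _ (rep 2 (tw 2)) [3, 2, 1, 0] 2 1 n m (base2 d) (by decide +kernel) hn hd

theorem rB2_1_1 (d n m : ℕ) (hn : n = 1 * m) (hd : d ∣ m) :
    (pw' 1 d ((wB2 1).flatMap bB)) ^ n = 1 :=
  ex2 _ (tw 1) [3, 2, 1] [4, 3, 2] 1 n m (base1 d) (by decide +kernel) (by decide +kernel) hn hd

theorem rB2_1_2 (d n m : ℕ) (hn : n = 1 * m) (hd : d ∣ 1 * m) :
    (pw' 2 d ((wB2 1).flatMap bB)) ^ n = 1 :=
  ex1 _ (rep 2 (tw 2)) [3, 2, 1] 1 1 n m (base2 d) (by decide +kernel) hn hd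

theorem rB2_2_1 (d n m : ℕ) (hn : n = 2 * m) (hd : d ∣ 2 * m) :
    (pw' 1 d ((wB2 2).flatMap bB)) ^ n = 1 :=
  ex1 _ (tw 1) [3, 2, 1] 2 2 n m (base1 d) (by decide +kernel) hn hd

theorem rB2_2_2 (d n m : ℕ) (hn : n = 2 * m) (hd : d ∣ m) :
    (pw' 2 d ((wB2 2).flatMap bB)) ^ n = 1 :=
  ex2 _ (rep 2 (tw 2)) [4, 5, 1] [4, 5, 2, 1] 2 n m (base2 d) (by decide +kernel) (by decide +kernel) hn hd

theorem rC1_1_1 (d n m : ℕ) (hn : n = 1 * m) (hd : d ∣ m) :
    (pw' 1 d ((wC1 1).flatMap bC)) ^ n = 1 :=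
  ex2 _ (tw 1) [2, 1, 0, 3, 2, 1] [2, 1, 0, 4, 3, 2] 1 n m (base1 d) (by decide +kernel) (by decide +kernel) hn hd

theorem rC1_1_2 (d n m : ℕ) (hn : n = 1 * m) (hd : d ∣ 1 * m) :
    (pw' 2 d ((wC1 1).flatMap bC)) ^ n = 1 :=
  ex1 _ (rep 2 (tw 2)) [2, 1, 0, 3, 2, 1] 1 1 n m (base2 d) (by decide +kernel) hn hd

theorem rC1_2_1 (d n m : ℕ) (hn : n = 2 * m) (hd : d ∣ 2 * m) :
    (pw' 1 d ((wC1 2).flatMap bC)) ^ n = 1 :=
  ex1 _ (tw 1) [2, 1, 0, 3, 2, 1] 2 2 n m (base1 d) (by decide +kernel) hn hd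

theorem rC1_2_2 (d n m : ℕ) (hn : n = 2 * m) (hd : d ∣ m) :
    (pw' 2 d ((wC1 2).flatMap bC)) ^ n = 1 :=
  ex2 _ (rep 2 (tw 2)) [2, 1, 0, 4, 5, 1] [2, 1, 0, 4, 5, 2, 1] 2 n m (base2 d) (by decide +kernel) (by decide +kernel) hn hd

theorem rC2_1_1 (d n m : ℕ) (hn : n = 1 * m) (hd : d ∣ 1 * m) :
    (pw' 1 d ((wC2 1).flatMap bC)) ^ n = 1 :=
  ex1 _ (tw 1) [] 1 1 n m (base1 d) (by decide +kernel) hn hd

theorem rC2_1_2 (d n m : ℕ) (hn : n = 2 * m) (hd : d ∣ m) :
    (pw' 2 d ((wC2 1).flatMap bC)) ^ n = 1 :=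
  ex2 _ (rep 2 (tw 2)) [] [5, 4, 3, 4, 5] 2 n m (base2 d) (by decide +kernel) (by decide +kernel) hn hd

theorem rC2_2_1 (d n m : ℕ) (hn : n = 2 * m) (hd : d ∣ m) :
    (pw' 1 d ((wC2 2).flatMap bC)) ^ n = 1 :=
  ex2 _ (tw 1) [] [2, 3, 4, 3, 2] 2 n m (base1 d) (by decide +kernel) (by decide +kernel) hn hd

theorem rC2_2_2 (d n m : ℕ) (hn : n = 2 * m) (hd : d ∣ 1 * m) :
    (pw' 2 d ((wC2 2).flatMap bC)) ^ n = 1 :=
  ex1 _ (rep 2 (tw 2)) [] 2 1 n m (base2 d) (by decide +kernel) hn hd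

theorem rC2_4_1 (d n m : ℕ) (hn : n = 4 * m) (hd : d ∣ 2 * m) :
    (pw' 1 d ((wC2 4).flatMap bC)) ^ n = 1 :=
  ex1 _ (tw 1) [2] 4 2 n m (base1 d) (by decide +kernel) hn hd

theorem rC2_4_2 (d n m : ℕ) (hn : n = 4 * m) (hd : d ∣ m) :
    (pw' 2 d ((wC2 4).flatMap bC)) ^ n = 1 :=
  ex2 _ (rep 2 (tw 2)) [] [3, 4, 3, 2, 1] 4 n m (base2 d) (by decide +kernel) (by decide +kernel) hn hd


theorem infinite_B (k s k' t : ℕ) (hk : k = 1 ∨ k = 2) (hk' : k' = 1 ∨ k' = 2)
    (h : (∃ d, 5 ≤ d ∧ d ∣ s ∧ d ∣ k' * t) ∨ (∃ d, 4 ≤ d ∧ 2 * d ∣ k * s ∧ d ∣ t)) :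
    Infinite (PresentedGroup (relsB k s k' t)) := by
  rcases h with ⟨d, hd, h1, h2⟩ | ⟨d, hd, h1, h2⟩
  · refine transfer (relsB k s k' t) (infA1 d hd) bB ?_ rpB (by decide) (tchk_spec _ _ _ tchkB)
    rintro r (⟨i, j, rfl⟩ | rfl | rfl)
    · exact lift_cox bB mB coxB i j
    · rw [map_pow, lift_word]
      rcases hk with rfl | rfl
      · exact rB1_1_1 d _ s (by ring) (by simpa using h1)
      · exact rB1_2_1 d _ s (by ring) h1
    · rw [map_pow, lift_word]
      rcases hk' with rfl | rfl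
      · exact rB2_1_1 d _ t (by ring) (by simpa using h2)
      · exact rB2_2_1 d _ t (by ring) h2
  · refine transfer (relsB k s k' t) (infA2 d hd) bB ?_ rpB (by decide) (tchk_spec _ _ _ tchkB)
    rintro r (⟨i, j, rfl⟩ | rfl | rfl)
    · exact lift_cox bB mB coxB i j
    · rw [map_pow, lift_word]
      rcases hk with rfl | rfl
      · obtain ⟨m, hm⟩ := h1
        exact rB1_1_2 d _ (d * m) (by rw [hm]; ring) (dvd_mul_right d m)
      · have h3 : d ∣ s := by
          have := (Nat.mul_dvd_mul_iff_left (by norm_num : 0 < 2)).mp h1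
          exact this
        exact rB1_2_2 d _ s (by ring) (by simpa using h3)
    · rw [map_pow, lift_word]
      rcases hk' with rfl | rfl
      · exact rB2_1_2 d _ t (by ring) (by simpa using h2)
      · exact rB2_2_2 d _ t (by ring) h2

theorem infinite_C (k t l u : ℕ) (hk : k = 1 ∨ k = 2) (hl : l = 1 ∨ l = 2 ∨ l = 4)
    (h : (∃ d, 5 ≤ d ∧ d ∣ k * t ∧ d ∣ (if l = 4 then 2 * u else u)) ∨
      (∃ d, 4 ≤ d ∧ d ∣ t ∧ (if l = 1 then 2 * d else d) ∣ u)) :
    Infinite (PresentedGroup (relsC k t l u)) := by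
  rcases h with ⟨d, hd, h1, h2⟩ | ⟨d, hd, h1, h2⟩
  · refine transfer (relsC k t l u) (infA1 d hd) bC ?_ rpC (by decide) (tchk_spec _ _ _ tchkC)
    rintro r (⟨i, j, rfl⟩ | rfl | rfl)
    · exact lift_cox bC mC coxC i j
    · rw [map_pow, lift_word]
      rcases hk with rfl | rfl
      · exact rC1_1_1 d _ t (by ring) (by simpa using h1)
      · exact rC1_2_1 d _ t (by ring) h1
    · rw [map_pow, lift_word]
      rcases hl with rfl | rfl | rfl
      · exact rC2_1_1 d _ u (by ring) (by simpa using h2)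
      · exact rC2_2_1 d _ u (by ring) (by simpa using h2)
      · exact rC2_4_1 d _ u (by ring) (by simpa using h2)
  · refine transfer (relsC k t l u) (infA2 d hd) bC ?_ rpC (by decide) (tchk_spec _ _ _ tchkC)
    rintro r (⟨i, j, rfl⟩ | rfl | rfl)
    · exact lift_cox bC mC coxC i j
    · rw [map_pow, lift_word]
      rcases hk with rfl | rfl
      · exact rC1_1_2 d _ t (by ring) (by simpa using h1)
      · exact rC1_2_2 d _ t (by ring) h1
    · rw [map_pow, lift_word]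
      rcases hl with rfl | rfl | rfl
      · obtain ⟨m, hm⟩ := h2
        rw [if_pos rfl] at hm
        exact rC2_1_2 d _ (d * m) (by rw [hm]; ring) (dvd_mul_right d m)
      · exact rC2_2_2 d _ u (by ring) (by simpa using h2)
      · exact rC2_4_2 d _ u (by ring) (by simpa using h2)

end Pool.Agent.Helper622.Six
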