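import Pool.Agent.Helper622.Six.Grp

/-!
# Stabilisers of fundamental functionals in parabolic subgroups
-/

set_option autoImplicit false

namespace Pool.Agent.Helper622.Six

open V X

/-- coordinates -/
def co : Fin 6 → V → ℤ
  | 0, y => y.a
  | 1, y => y.b
  | 2, y => y.c
  | 3, y => y.d
  | 4, y => y.e
  | 5, y => y.f

/-- action of the generators on integral functionals -/
def fa : Fin 6 → V → V
  | 0, x => ⟨-x.a, x.a + x.b, x.c, x.d, x.e, x.f⟩
  | 1, x => ⟨x.a + x.b, -x.b, x.b + x.c, x.d, x.e, x.f⟩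
  | 2, x => ⟨x.a, x.b + x.c, -x.c, x.c + x.d, x.e, x.f⟩
  | 3, x => ⟨x.a, x.b, x.c + x.d, -x.d, x.e + 2 * x.d, x.f⟩
  | 4, x => ⟨x.a, x.b, x.c, x.d + x.e, -x.e, x.e + x.f⟩
  | 5, x => ⟨x.a, x.b, x.c, x.d, x.e + x.f, -x.f⟩

/-- off-diagonal Cartan numbers -/
def ca (i j : Fin 6) : ℤ :=
  if i.val + 1 = j.val ∨ j.val + 1 = i.val then (if i.val = 3 ∧ j.val = 4 then 2 else 1) else 0

theorem co_fa_self (i : Fin 6) (y : V) : co i (fa i y) = - co i y := by
  fin_cases i <;> rfl

theorem co_fa (i j : Fin 6) (h : i ≠ j) (y : V) : co j (fa i y) = co j y + ca i j * co i y := by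
  fin_cases i <;> fin_cases j <;>
    first
    | exact absurd rfl h
    | (simp [co, fa, ca] <;> ring)

theorem fa_fa (i : Fin 6) (y : V) : fa i (fa i y) = y := by
  fin_cases i <;> (apply V.ext <;> simp [fa] <;> ring)

theorem fa_fix (i : Fin 6) (y : V) (h : co i y = 0) : fa i y = y := by
  fin_cases i <;> (simp only [co, Fin.mk_zero, Fin.mk_one, Fin.reduceFinMk] at h; apply V.ext <;> simp [fa, h])

theorem trich (i j : Fin 6) (h : i ≠ j) : (cm i j = 2 ∧ ca i j = 0 ∧ ca j i = 0) ∨
    (cm i j = 3 ∧ ca i j = 1 ∧ ca j i = 1) ∨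
    (cm i j = 4 ∧ ((ca i j = 1 ∧ ca j i = 2) ∨ (ca i j = 2 ∧ ca j i = 1))) := by
  revert i j
  decide

theorem fa2 (i j : Fin 6) (h : cm i j = 2) (y : V) : fa j (fa i y) = fa i (fa j y) := by
  fin_cases i <;> fin_cases j <;>
    first
    | (exfalso; revert h; decide)
    | (apply V.ext <;> simp [fa] <;> ring)

theorem fa3 (i j : Fin 6) (h : cm i j = 3) (y : V) :
    fa j (fa i (fa j (fa i y))) = fa i (fa j y) := by
  fin_cases i <;> fin_cases j <;>
    first
    | (exfalso; revert h; decide)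
    | (apply V.ext <;> simp [fa] <;> ring)

theorem fa4 (i j : Fin 6) (h : cm i j = 4) (y : V) :
    fa j (fa i (fa j (fa i (fa j (fa i y))))) = fa i (fa j y) := by
  fin_cases i <;> fin_cases j <;>
    first
    | (exfalso; revert h; decide)
    | (apply V.ext <;> simp [fa] <;> ring)

section

variable {G : Type*} [Group G] (ρ : Fin 6 → G)

/-- reachable pairs with their level -/
inductive D (I : Fin 6 → Prop) (H : Subgroup G) (w : V) : ℕ → V → G → Prop
  | base {h : G} (hh : h ∈ H) : D I H w 0 w h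
  | up {n : ℕ} {y : V} {g : G} (i : Fin 6) (hi : I i) (hp : 0 < co i y) (hd : D I H w n y g) :
      D I H w (n + 1) (fa i y) (ρ i * g)

variable {ρ} (sq : ∀ i, ρ i * ρ i = 1) (cx : ∀ i j, (ρ i * ρ j) ^ (cm i j) = 1)

include sq cx in
theorem g2 (i j : Fin 6) (h : cm i j = 2) (g : G) : ρ j * (ρ i * g) = ρ i * (ρ j * g) := by
  have h1 := cx i j
  rw [h] at h1
  have h2 : (ρ i * ρ j) * (ρ i * ρ j) = 1 := by rw [← pow_two]; exact h1
  calc ρ j * (ρ i * g) = (ρ i * ρ i) * ρ j * (ρ i * ((ρ j * ρ j) * g)) := by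
        rw [sq, sq, one_mul, one_mul]
    _ = ρ i * (((ρ i * ρ j) * (ρ i * ρ j)) * (ρ j * g)) := by simp only [mul_assoc]
    _ = ρ i * (ρ j * g) := by rw [h2, one_mul]

include sq cx in
theorem g3 (i j : Fin 6) (h : cm i j = 3) (g : G) :
    ρ j * (ρ i * (ρ j * (ρ i * g))) = ρ i * (ρ j * g) := by
  have h1 := cx i j
  rw [h] at h1
  have h2 : (ρ i * ρ j) * (ρ i * ρ j) * (ρ i * ρ j) = 1 := by
    rw [← h1]; simp only [pow_succ, pow_zero, one_mul]
  calc ρ j * (ρ i * (ρ j * (ρ i * g)))
      = (ρ i * ρ i) * ρ j * (ρ i * (ρ j * (ρ i * ((ρ j * ρ j) * g)))) := by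
        rw [sq, sq, one_mul, one_mul]
    _ = ρ i * (((ρ i * ρ j) * (ρ i * ρ j) * (ρ i * ρ j)) * (ρ j * g)) := by simp only [mul_assoc]
    _ = ρ i * (ρ j * g) := by rw [h2, one_mul]

include sq cx in
theorem g4 (i j : Fin 6) (h : cm i j = 4) (g : G) :
    ρ j * (ρ i * (ρ j * (ρ i * (ρ j * (ρ i * g))))) = ρ i * (ρ j * g) := by
  have h1 := cx i j
  rw [h] at h1
  have h2 : (ρ i * ρ j) * (ρ i * ρ j) * (ρ i * ρ j) * (ρ i * ρ j) = 1 := by
    rw [← h1]; simp only [pow_succ, pow_zero, one_mul]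
  calc ρ j * (ρ i * (ρ j * (ρ i * (ρ j * (ρ i * g)))))
      = (ρ i * ρ i) * ρ j * (ρ i * (ρ j * (ρ i * (ρ j * (ρ i * ((ρ j * ρ j) * g)))))) := by
        rw [sq, sq, one_mul, one_mul]
    _ = ρ i * (((ρ i * ρ j) * (ρ i * ρ j) * (ρ i * ρ j) * (ρ i * ρ j)) * (ρ j * g)) := by
        simp only [mul_assoc]
    _ = ρ i * (ρ j * g) := by rw [h2, one_mul]

include sq cx in
theorem D_main (I : Fin 6 → Prop) (H : Subgroup G) (w : V) (hw0 : ∀ i, I i → 0 ≤ co i w)
    (hw : ∀ i, I i → co i w = 0 → ρ i ∈ H) :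
    ∀ n y g, D ρ I H w n y g → ∀ i, I i →
      (co i y < 0 → ∃ m, n = m + 1 ∧ D ρ I H w m (fa i y) (ρ i * g)) ∧
      (co i y = 0 → D ρ I H w n y (ρ i * g)) := by
  intro n
  induction n using Nat.strong_induction_on with
  | _ n ih =>
  intro y g hD i hi
  cases hD with
  | base hh =>
    exact ⟨fun h => absurd (hw0 i hi) (not_le.2 h), fun h => D.base (H.mul_mem (hw i hi h) hh)⟩
  | @up n y g j hj hp hD =>
    have IH1 : ∀ m, m ≤ n → ∀ y g, D ρ I H w m y g → ∀ i, I i → co i y < 0 →
        ∃ m', m = m' + 1 ∧ D ρ I H w m' (fa i y) (ρ i * g) :=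
      fun m hm y g h i hi => (ih m (by omega) y g h i hi).1
    have IH2 : ∀ m, m ≤ n → ∀ y g, D ρ I H w m y g → ∀ i, I i → co i y = 0 →
        D ρ I H w m y (ρ i * g) :=
      fun m hm y g h i hi => (ih m (by omega) y g h i hi).2
    by_cases hij : i = j
    · subst hij
      refine ⟨fun _ => ⟨n, rfl, ?_⟩, fun h => ?_⟩
      · rw [fa_fa, ← mul_assoc, sq, one_mul]; exact hD
      · rw [co_fa_self] at h; omega
    · have e1 : co i (fa j y) = co i y + ca j i * co j y := co_fa j i (Ne.symm hij) y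
      rcases trich i j hij with ⟨hm, hp1, hq1⟩ | ⟨hm, hp1, hq1⟩ | ⟨hm, hpq⟩
      · -- m = 2
        rw [hq1, zero_mul, add_zero] at e1
        have e2 : ∀ z, co j (fa i z) = co j z := fun z => by
          rw [co_fa i j hij, hp1, zero_mul, add_zero]
        refine ⟨fun h => ?_, fun h => ?_⟩
        · obtain ⟨m, rfl, h2⟩ := IH1 n le_rfl y g hD i hi (by rw [← e1]; exact h)
          refine ⟨m + 1, rfl, ?_⟩
          have h3 := D.up (ρ := ρ) j hj (by rw [e2]; exact hp) h2
          rw [fa2 i j hm, g2 sq cx i j hm] at h3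
          exact h3
        · have h2 := IH2 n le_rfl y g hD i hi (by rw [← e1]; exact h)
          have h3 := D.up (ρ := ρ) j hj hp h2
          rw [g2 sq cx i j hm] at h3
          exact h3
      · -- m = 3
        rw [hq1, one_mul] at e1
        have e2 : ∀ z, co j (fa i z) = co j z + co i z := fun z => by
          rw [co_fa i j hij, hp1, one_mul]
        have e3 : ∀ z, co i (fa j z) = co i z + co j z := fun z => by
          rw [co_fa j i (Ne.symm hij), hq1, one_mul]
        refine ⟨fun h => ?_, fun h => ?_⟩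
        · rw [e1] at h
          obtain ⟨m, rfl, h2⟩ := IH1 n le_rfl y g hD i hi (by omega)
          obtain ⟨m, rfl, h3⟩ := IH1 m (by omega) _ _ h2 j hj (by rw [e2]; omega)
          have h4 := D.up (ρ := ρ) i hi (by
            simp only [co_fa_self, e2, e3]; omega) h3
          have h5 := D.up (ρ := ρ) j hj (by
            simp only [co_fa_self, e2, e3]; omega) h4
          rw [fa3 i j hm, g3 sq cx i j hm] at h5
          exact ⟨_, rfl, h5⟩
        · rw [e1] at h
          obtain ⟨m, rfl, h2⟩ := IH1 n le_rfl y g hD i hi (by omega)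
          have h3 := IH2 m (by omega) _ _ h2 j hj (by rw [e2]; omega)
          have h4 := D.up (ρ := ρ) i hi (by simp only [co_fa_self]; omega) h3
          have h5 := D.up (ρ := ρ) j hj (by
            simp only [co_fa_self, e2, e3]; omega) h4
          rw [fa_fa, g3 sq cx i j hm] at h5
          exact h5
      · -- m = 4
        have e2 : ∀ z, co j (fa i z) = co j z + ca i j * co i z := fun z => co_fa i j hij z
        have e3 : ∀ z, co i (fa j z) = co i z + ca j i * co j z :=
          fun z => co_fa j i (Ne.symm hij) z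
        generalize hpp : ca i j = p at *
        generalize hqq : ca j i = q at *
        refine ⟨fun h => ?_, fun h => ?_⟩
        · rw [e1] at h
          have n1 : co i y < 0 := by rcases hpq with ⟨rfl, rfl⟩ | ⟨rfl, rfl⟩ <;> omega
          obtain ⟨m, rfl, h2⟩ := IH1 n le_rfl y g hD i hi n1
          obtain ⟨m, rfl, h3⟩ := IH1 m (by omega) _ _ h2 j hj (by
            simp only [co_fa_self, e2, e3]
            rcases hpq with ⟨rfl, rfl⟩ | ⟨rfl, rfl⟩ <;> omega)
          obtain ⟨m, rfl, h4⟩ := IH1 m (by omega) _ _ h3 i hi (by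
            simp only [co_fa_self, e2, e3]
            rcases hpq with ⟨rfl, rfl⟩ | ⟨rfl, rfl⟩ <;> omega)
          have h5 := D.up (ρ := ρ) j hj (by
            simp only [co_fa_self, e2, e3]
            rcases hpq with ⟨rfl, rfl⟩ | ⟨rfl, rfl⟩ <;> omega) h4
          have h6 := D.up (ρ := ρ) i hi (by
            simp only [co_fa_self, e2, e3]
            rcases hpq with ⟨rfl, rfl⟩ | ⟨rfl, rfl⟩ <;> omega) h5
          have h7 := D.up (ρ := ρ) j hj (by
            simp only [co_fa_self, e2, e3]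
            rcases hpq with ⟨rfl, rfl⟩ | ⟨rfl, rfl⟩ <;> omega) h6
          rw [fa4 i j hm, g4 sq cx i j hm] at h7
          exact ⟨_, rfl, h7⟩
        · rw [e1] at h
          have n1 : co i y < 0 := by rcases hpq with ⟨rfl, rfl⟩ | ⟨rfl, rfl⟩ <;> omega
          obtain ⟨m, rfl, h2⟩ := IH1 n le_rfl y g hD i hi n1
          obtain ⟨m, rfl, h3⟩ := IH1 m (by omega) _ _ h2 j hj (by
            simp only [co_fa_self, e2, e3]
            rcases hpq with ⟨rfl, rfl⟩ | ⟨rfl, rfl⟩ <;> omega)
          have h4 := IH2 m (by omega) _ _ h3 i hi (by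
            simp only [co_fa_self, e2, e3]
            rcases hpq with ⟨rfl, rfl⟩ | ⟨rfl, rfl⟩ <;> omega)
          have h5 := D.up (ρ := ρ) j hj (by
            simp only [co_fa_self, e2, e3]
            rcases hpq with ⟨rfl, rfl⟩ | ⟨rfl, rfl⟩ <;> omega) h4
          rw [fa_fa] at h5
          have h6 := D.up (ρ := ρ) i hi (by
            simp only [co_fa_self, e2, e3]
            rcases hpq with ⟨rfl, rfl⟩ | ⟨rfl, rfl⟩ <;> omega) h5
          rw [fa_fa] at h6
          have h7 := D.up (ρ := ρ) j hj hp h6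
          rw [g4 sq cx i j hm] at h7
          exact h7

include sq cx in
/-- a word in `I` fixing the dominant functional `w` lies in `H` -/
theorem word_mem (I : Fin 6 → Prop) (H : Subgroup G) (w : V) (hw0 : ∀ i, I i → 0 ≤ co i w)
    (hw : ∀ i, I i → co i w = 0 → ρ i ∈ H) (l : List (Fin 6)) (hl : ∀ i ∈ l, I i)
    (hfix : l.foldr fa w = w) : (l.map ρ).prod ∈ H := by
  have key : ∀ l : List (Fin 6), (∀ i ∈ l, I i) →
      ∃ n, D ρ I H w n (l.foldr fa w) ((l.map ρ).prod) := by
    intro l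
    induction l with
    | nil => intro _; exact ⟨0, D.base (by simpa using H.one_mem)⟩
    | cons i l ih =>
      intro hl
      obtain ⟨n, hn⟩ := ih (fun j hj => hl j (by simp [hj]))
      have hi : I i := hl i (by simp)
      rw [List.foldr_cons, List.map_cons, List.prod_cons]
      rcases lt_trichotomy (co i (l.foldr fa w)) 0 with h | h | h
      · obtain ⟨m, _, hm⟩ := (D_main sq cx I H w hw0 hw n _ _ hn i hi).1 h
        exact ⟨m, hm⟩
      · refine ⟨n, ?_⟩
        rw [fa_fix i _ h]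
        exact (D_main sq cx I H w hw0 hw n _ _ hn i hi).2 h
      · exact ⟨n + 1, D.up i hi h hn⟩
  obtain ⟨n, hn⟩ := key l hl
  rw [hfix] at hn
  generalize hg : (l.map ρ).prod = g at hn
  cases hn' : n with
  | zero =>
    subst hn'
    cases hn with
    | base hh => exact hh
  | succ m =>
    subst hn'
    exfalso
    generalize hy : w = y at hn
    generalize hnn : m + 1 = n at hn
    cases hn with
    | base hh => omega
    | @up n y' g' i hi hp hd =>
      have := hw0 i hi
      rw [hy, co_fa_self] at this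
      omega

end

end Pool.Agent.Helper622.Six
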