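import Pool.Agent.Helper622.Six.CG1

/-!
# Orbits of the fundamental functionals under maximal parabolic subgroups
-/

set_option autoImplicit false

namespace Pool.Agent.Helper622.Six

open V

/-- orbit -/
def o10 : List V := [
  ⟨-1, 1, 0, 0, 0, 0⟩,
  ⟨1, 0, 0, 0, 0, 0⟩]

/-- orbit -/
def o12 : List V := [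
  ⟨0, 0, 1, 0, 0, 0⟩,
  ⟨0, 1, -1, 1, 0, 0⟩,
  ⟨0, 1, 0, -1, 2, 0⟩,
  ⟨0, 1, 0, 1, -2, 2⟩,
  ⟨0, 1, 0, 1, 0, -2⟩,
  ⟨0, 1, 1, -1, 0, 2⟩,
  ⟨0, 1, 1, -1, 2, -2⟩,
  ⟨0, 1, 1, 1, -2, 0⟩,
  ⟨0, 1, 2, -1, 0, 0⟩,
  ⟨0, 2, -1, 0, 0, 2⟩,
  ⟨0, 2, -1, 0, 2, -2⟩,
  ⟨0, 2, -1, 2, -2, 0⟩,
  ⟨0, 2, 1, -2, 2, 0⟩,
  ⟨0, 2, 1, 0, -2, 2⟩,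
  ⟨0, 2, 1, 0, 0, -2⟩,
  ⟨0, 3, -2, 1, 0, 0⟩,
  ⟨0, 3, -1, -1, 2, 0⟩,
  ⟨0, 3, -1, 1, -2, 2⟩,
  ⟨0, 3, -1, 1, 0, -2⟩,
  ⟨0, 3, 0, -1, 0, 2⟩,
  ⟨0, 3, 0, -1, 2, -2⟩,
  ⟨0, 3, 0, 1, -2, 0⟩,
  ⟨0, 3, 1, -1, 0, 0⟩,
  ⟨0, 4, -1, 0, 0, 0⟩]

/-- orbit -/
def o15 : List V := [
  ⟨0, 0, 0, 0, 0, 1⟩,
  ⟨0, 0, 0, 0, 1, -1⟩,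
  ⟨0, 0, 0, 1, -1, 0⟩,
  ⟨0, 0, 1, -1, 1, 0⟩,
  ⟨0, 0, 1, 0, -1, 1⟩,
  ⟨0, 0, 1, 0, 0, -1⟩,
  ⟨0, 1, -1, 0, 1, 0⟩,
  ⟨0, 1, -1, 1, -1, 1⟩,
  ⟨0, 1, -1, 1, 0, -1⟩,
  ⟨0, 1, 0, -1, 1, 1⟩,
  ⟨0, 1, 0, -1, 2, -1⟩,
  ⟨0, 1, 0, 0, -1, 2⟩,
  ⟨0, 1, 0, 0, 1, -2⟩,
  ⟨0, 1, 0, 1, -2, 1⟩,
  ⟨0, 1, 0, 1, -1, -1⟩,
  ⟨0, 1, 1, -1, 0, 1⟩,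
  ⟨0, 1, 1, -1, 1, -1⟩,
  ⟨0, 1, 1, 0, -1, 0⟩,
  ⟨0, 2, -1, 0, 0, 1⟩,
  ⟨0, 2, -1, 0, 1, -1⟩,
  ⟨0, 2, -1, 1, -1, 0⟩,
  ⟨0, 2, 0, -1, 1, 0⟩,
  ⟨0, 2, 0, 0, -1, 1⟩,
  ⟨0, 2, 0, 0, 0, -1⟩]

/-- orbit -/
def o20 : List V := [
  ⟨-1, 1, 0, 0, 0, 0⟩,
  ⟨0, -1, 1, 0, 0, 0⟩,
  ⟨1, 0, 0, 0, 0, 0⟩]

/-- orbit -/
def o21 : List V := [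
  ⟨-1, 0, 1, 0, 0, 0⟩,
  ⟨0, 1, 0, 0, 0, 0⟩,
  ⟨1, -1, 1, 0, 0, 0⟩]

/-- orbit -/
def o23 : List V := [
  ⟨0, 0, 0, 1, 0, 0⟩,
  ⟨0, 0, 1, -1, 2, 0⟩,
  ⟨0, 0, 1, 1, -2, 2⟩,
  ⟨0, 0, 1, 1, 0, -2⟩,
  ⟨0, 0, 2, -1, 0, 2⟩,
  ⟨0, 0, 2, -1, 2, -2⟩,
  ⟨0, 0, 2, 1, -2, 0⟩,
  ⟨0, 0, 3, -1, 0, 0⟩]

/-- orbit -/
def o24 : List V := [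
  ⟨0, 0, 0, 0, 1, 0⟩,
  ⟨0, 0, 0, 1, -1, 1⟩,
  ⟨0, 0, 0, 1, 0, -1⟩,
  ⟨0, 0, 1, -1, 1, 1⟩,
  ⟨0, 0, 1, -1, 2, -1⟩,
  ⟨0, 0, 1, 0, -1, 2⟩,
  ⟨0, 0, 1, 0, 1, -2⟩,
  ⟨0, 0, 1, 1, -2, 1⟩,
  ⟨0, 0, 1, 1, -1, -1⟩,
  ⟨0, 0, 2, -1, 0, 1⟩,
  ⟨0, 0, 2, -1, 1, -1⟩,
  ⟨0, 0, 2, 0, -1, 0⟩]

/-- orbit -/
def o25 : List V := [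
  ⟨0, 0, 0, 0, 0, 1⟩,
  ⟨0, 0, 0, 0, 1, -1⟩,
  ⟨0, 0, 0, 1, -1, 0⟩,
  ⟨0, 0, 1, -1, 1, 0⟩,
  ⟨0, 0, 1, 0, -1, 1⟩,
  ⟨0, 0, 1, 0, 0, -1⟩]

/-- orbit -/
def o30 : List V := [
  ⟨-1, 1, 0, 0, 0, 0⟩,
  ⟨0, -1, 1, 0, 0, 0⟩,
  ⟨0, 0, -1, 1, 0, 0⟩,
  ⟨1, 0, 0, 0, 0, 0⟩]

/-- orbit -/
def o31 : List V := [
  ⟨-1, 0, 1, 0, 0, 0⟩,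
  ⟨-1, 1, -1, 1, 0, 0⟩,
  ⟨0, -1, 0, 1, 0, 0⟩,
  ⟨0, 1, 0, 0, 0, 0⟩,
  ⟨1, -1, 1, 0, 0, 0⟩,
  ⟨1, 0, -1, 1, 0, 0⟩]

/-- orbit -/
def o32 : List V := [
  ⟨-1, 0, 0, 1, 0, 0⟩,
  ⟨0, 0, 1, 0, 0, 0⟩,
  ⟨0, 1, -1, 1, 0, 0⟩,
  ⟨1, -1, 0, 1, 0, 0⟩]

/-- orbit -/
def o34 : List V := [
  ⟨0, 0, 0, 0, 1, 0⟩,
  ⟨0, 0, 0, 1, -1, 1⟩,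
  ⟨0, 0, 0, 1, 0, -1⟩]

/-- orbit -/
def o35 : List V := [
  ⟨0, 0, 0, 0, 0, 1⟩,
  ⟨0, 0, 0, 0, 1, -1⟩,
  ⟨0, 0, 0, 1, -1, 0⟩]

/-- orbit -/
def o40 : List V := [
  ⟨-1, 1, 0, 0, 0, 0⟩,
  ⟨0, -1, 1, 0, 0, 0⟩,
  ⟨0, 0, -1, 1, 0, 0⟩,
  ⟨0, 0, 0, -1, 2, 0⟩,
  ⟨1, 0, 0, 0, 0, 0⟩]

/-- orbit -/
def o41 : List V := [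
  ⟨-1, 0, 1, 0, 0, 0⟩,
  ⟨-1, 1, -1, 1, 0, 0⟩,
  ⟨-1, 1, 0, -1, 2, 0⟩,
  ⟨0, -1, 0, 1, 0, 0⟩,
  ⟨0, -1, 1, -1, 2, 0⟩,
  ⟨0, 0, -1, 0, 2, 0⟩,
  ⟨0, 1, 0, 0, 0, 0⟩,
  ⟨1, -1, 1, 0, 0, 0⟩,
  ⟨1, 0, -1, 1, 0, 0⟩,
  ⟨1, 0, 0, -1, 2, 0⟩]

/-- orbit -/
def o42 : List V := [
  ⟨-1, 0, 0, 1, 0, 0⟩,
  ⟨-1, 0, 1, -1, 2, 0⟩,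
  ⟨-1, 1, -1, 0, 2, 0⟩,
  ⟨0, -1, 0, 0, 2, 0⟩,
  ⟨0, 0, 1, 0, 0, 0⟩,
  ⟨0, 1, -1, 1, 0, 0⟩,
  ⟨0, 1, 0, -1, 2, 0⟩,
  ⟨1, -1, 0, 1, 0, 0⟩,
  ⟨1, -1, 1, -1, 2, 0⟩,
  ⟨1, 0, -1, 0, 2, 0⟩]

/-- orbit -/
def o43 : List V := [
  ⟨-1, 0, 0, 0, 2, 0⟩,
  ⟨0, 0, 0, 1, 0, 0⟩,
  ⟨0, 0, 1, -1, 2, 0⟩,
  ⟨0, 1, -1, 0, 2, 0⟩,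
  ⟨1, -1, 0, 0, 2, 0⟩]

/-- orbit -/
def o45 : List V := [
  ⟨0, 0, 0, 0, 0, 1⟩,
  ⟨0, 0, 0, 0, 1, -1⟩]

/-- orbit -/
def o50 : List V := [
  ⟨-1, 0, 0, 0, 0, 2⟩,
  ⟨-1, 1, 0, 0, 0, 0⟩,
  ⟨0, -1, 1, 0, 0, 0⟩,
  ⟨0, 0, -1, 1, 0, 0⟩,
  ⟨0, 0, 0, -1, 2, 0⟩,
  ⟨0, 0, 0, 1, -2, 2⟩,
  ⟨0, 0, 1, -1, 0, 2⟩,
  ⟨0, 1, -1, 0, 0, 2⟩,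
  ⟨1, -1, 0, 0, 0, 2⟩,
  ⟨1, 0, 0, 0, 0, 0⟩]

/-- orbit -/
def o51 : List V := [
  ⟨-2, 1, 0, 0, 0, 2⟩,
  ⟨-1, -1, 1, 0, 0, 2⟩,
  ⟨-1, 0, -1, 1, 0, 2⟩,
  ⟨-1, 0, 0, -1, 2, 2⟩,
  ⟨-1, 0, 0, 1, -2, 4⟩,
  ⟨-1, 0, 1, -1, 0, 4⟩,
  ⟨-1, 0, 1, 0, 0, 0⟩,
  ⟨-1, 1, -1, 0, 0, 4⟩,
  ⟨-1, 1, -1, 1, 0, 0⟩,
  ⟨-1, 1, 0, -1, 2, 0⟩,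
  ⟨-1, 1, 0, 1, -2, 2⟩,
  ⟨-1, 1, 1, -1, 0, 2⟩,
  ⟨-1, 2, -1, 0, 0, 2⟩,
  ⟨0, -1, 0, 0, 0, 4⟩,
  ⟨0, -1, 0, 1, 0, 0⟩,
  ⟨0, -1, 1, -1, 2, 0⟩,
  ⟨0, -1, 1, 1, -2, 2⟩,
  ⟨0, -1, 2, -1, 0, 2⟩,
  ⟨0, 0, -1, 0, 2, 0⟩,
  ⟨0, 0, -1, 2, -2, 2⟩,
  ⟨0, 0, 1, -2, 2, 2⟩,
  ⟨0, 0, 1, 0, -2, 4⟩,
  ⟨0, 1, -2, 1, 0, 2⟩,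
  ⟨0, 1, -1, -1, 2, 2⟩,
  ⟨0, 1, -1, 1, -2, 4⟩,
  ⟨0, 1, 0, -1, 0, 4⟩,
  ⟨0, 1, 0, 0, 0, 0⟩,
  ⟨1, -2, 1, 0, 0, 2⟩,
  ⟨1, -1, -1, 1, 0, 2⟩,
  ⟨1, -1, 0, -1, 2, 2⟩,
  ⟨1, -1, 0, 1, -2, 4⟩,
  ⟨1, -1, 1, -1, 0, 4⟩,
  ⟨1, -1, 1, 0, 0, 0⟩,
  ⟨1, 0, -1, 0, 0, 4⟩,
  ⟨1, 0, -1, 1, 0, 0⟩,
  ⟨1, 0, 0, -1, 2, 0⟩,
  ⟨1, 0, 0, 1, -2, 2⟩,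
  ⟨1, 0, 1, -1, 0, 2⟩,
  ⟨1, 1, -1, 0, 0, 2⟩,
  ⟨2, -1, 0, 0, 0, 2⟩]

/-- orbit -/
def o52 : List V := [
  ⟨-2, 0, 1, 0, 0, 2⟩,
  ⟨-2, 1, -1, 1, 0, 2⟩,
  ⟨-2, 1, 0, -1, 2, 2⟩,
  ⟨-2, 1, 0, 1, -2, 4⟩,
  ⟨-2, 1, 1, -1, 0, 4⟩,
  ⟨-2, 2, -1, 0, 0, 4⟩,
  ⟨-1, -1, 0, 1, 0, 2⟩,
  ⟨-1, -1, 1, -1, 2, 2⟩,
  ⟨-1, -1, 1, 1, -2, 4⟩,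
  ⟨-1, -1, 2, -1, 0, 4⟩,
  ⟨-1, 0, -1, 0, 2, 2⟩,
  ⟨-1, 0, -1, 2, -2, 4⟩,
  ⟨-1, 0, 0, 1, 0, 0⟩,
  ⟨-1, 0, 1, -2, 2, 4⟩,
  ⟨-1, 0, 1, -1, 2, 0⟩,
  ⟨-1, 0, 1, 0, -2, 6⟩,
  ⟨-1, 0, 1, 1, -2, 2⟩,
  ⟨-1, 0, 2, -1, 0, 2⟩,
  ⟨-1, 1, -2, 1, 0, 4⟩,
  ⟨-1, 1, -1, -1, 2, 4⟩,
  ⟨-1, 1, -1, 0, 2, 0⟩,
  ⟨-1, 1, -1, 1, -2, 6⟩,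
  ⟨-1, 1, -1, 2, -2, 2⟩,
  ⟨-1, 1, 0, -1, 0, 6⟩,
  ⟨-1, 1, 1, -2, 2, 2⟩,
  ⟨-1, 1, 1, 0, -2, 4⟩,
  ⟨-1, 2, -2, 1, 0, 2⟩,
  ⟨-1, 2, -1, -1, 2, 2⟩,
  ⟨-1, 2, -1, 1, -2, 4⟩,
  ⟨-1, 2, 0, -1, 0, 4⟩,
  ⟨0, -2, 1, 0, 0, 4⟩,
  ⟨0, -1, -1, 1, 0, 4⟩,
  ⟨0, -1, 0, -1, 2, 4⟩,
  ⟨0, -1, 0, 0, 2, 0⟩,
  ⟨0, -1, 0, 1, -2, 6⟩,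
  ⟨0, -1, 0, 2, -2, 2⟩,
  ⟨0, -1, 1, -1, 0, 6⟩,
  ⟨0, -1, 2, -2, 2, 2⟩,
  ⟨0, -1, 2, 0, -2, 4⟩,
  ⟨0, 0, -1, 0, 0, 6⟩,
  ⟨0, 0, 1, 0, 0, 0⟩,
  ⟨0, 1, -2, 0, 2, 2⟩,
  ⟨0, 1, -2, 2, -2, 4⟩,
  ⟨0, 1, -1, 1, 0, 0⟩,
  ⟨0, 1, 0, -2, 2, 4⟩,
  ⟨0, 1, 0, -1, 2, 0⟩,
  ⟨0, 1, 0, 0, -2, 6⟩,
  ⟨0, 1, 0, 1, -2, 2⟩,
  ⟨0, 1, 1, -1, 0, 2⟩,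
  ⟨0, 2, -1, 0, 0, 2⟩,
  ⟨1, -2, 0, 1, 0, 2⟩,
  ⟨1, -2, 1, -1, 2, 2⟩,
  ⟨1, -2, 1, 1, -2, 4⟩,
  ⟨1, -2, 2, -1, 0, 4⟩,
  ⟨1, -1, -1, 0, 2, 2⟩,
  ⟨1, -1, -1, 2, -2, 4⟩,
  ⟨1, -1, 0, 1, 0, 0⟩,
  ⟨1, -1, 1, -2, 2, 4⟩,
  ⟨1, -1, 1, -1, 2, 0⟩,
  ⟨1, -1, 1, 0, -2, 6⟩,
  ⟨1, -1, 1, 1, -2, 2⟩,
  ⟨1, -1, 2, -1, 0, 2⟩,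
  ⟨1, 0, -2, 1, 0, 4⟩,
  ⟨1, 0, -1, -1, 2, 4⟩,
  ⟨1, 0, -1, 0, 2, 0⟩,
  ⟨1, 0, -1, 1, -2, 6⟩,
  ⟨1, 0, -1, 2, -2, 2⟩,
  ⟨1, 0, 0, -1, 0, 6⟩,
  ⟨1, 0, 1, -2, 2, 2⟩,
  ⟨1, 0, 1, 0, -2, 4⟩,
  ⟨1, 1, -2, 1, 0, 2⟩,
  ⟨1, 1, -1, -1, 2, 2⟩,
  ⟨1, 1, -1, 1, -2, 4⟩,
  ⟨1, 1, 0, -1, 0, 4⟩,
  ⟨2, -2, 1, 0, 0, 2⟩,
  ⟨2, -1, -1, 1, 0, 2⟩,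
  ⟨2, -1, 0, -1, 2, 2⟩,
  ⟨2, -1, 0, 1, -2, 4⟩,
  ⟨2, -1, 1, -1, 0, 4⟩,
  ⟨2, 0, -1, 0, 0, 4⟩]

/-- orbit -/
def o53 : List V := [
  ⟨-2, 0, 0, 1, 0, 2⟩,
  ⟨-2, 0, 1, -1, 2, 2⟩,
  ⟨-2, 0, 1, 1, -2, 4⟩,
  ⟨-2, 0, 2, -1, 0, 4⟩,
  ⟨-2, 1, -1, 0, 2, 2⟩,
  ⟨-2, 1, -1, 2, -2, 4⟩,
  ⟨-2, 1, 1, -2, 2, 4⟩,
  ⟨-2, 1, 1, 0, -2, 6⟩,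
  ⟨-2, 2, -2, 1, 0, 4⟩,
  ⟨-2, 2, -1, -1, 2, 4⟩,
  ⟨-2, 2, -1, 1, -2, 6⟩,
  ⟨-2, 2, 0, -1, 0, 6⟩,
  ⟨-1, -1, 0, 0, 2, 2⟩,
  ⟨-1, -1, 0, 2, -2, 4⟩,
  ⟨-1, -1, 2, -2, 2, 4⟩,
  ⟨-1, -1, 2, 0, -2, 6⟩,
  ⟨-1, 0, 0, 0, 2, 0⟩,
  ⟨-1, 0, 0, 2, -2, 2⟩,
  ⟨-1, 0, 2, -2, 2, 2⟩,
  ⟨-1, 0, 2, 0, -2, 4⟩,
  ⟨-1, 1, -2, 0, 2, 4⟩,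
  ⟨-1, 1, -2, 2, -2, 6⟩,
  ⟨-1, 1, 0, -2, 2, 6⟩,
  ⟨-1, 1, 0, 0, -2, 8⟩,
  ⟨-1, 2, -2, 0, 2, 2⟩,
  ⟨-1, 2, -2, 2, -2, 4⟩,
  ⟨-1, 2, 0, -2, 2, 4⟩,
  ⟨-1, 2, 0, 0, -2, 6⟩,
  ⟨0, -2, 0, 1, 0, 4⟩,
  ⟨0, -2, 1, -1, 2, 4⟩,
  ⟨0, -2, 1, 1, -2, 6⟩,
  ⟨0, -2, 2, -1, 0, 6⟩,
  ⟨0, -1, -1, 0, 2, 4⟩,
  ⟨0, -1, -1, 2, -2, 6⟩,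
  ⟨0, -1, 1, -2, 2, 6⟩,
  ⟨0, -1, 1, 0, -2, 8⟩,
  ⟨0, 0, -2, 1, 0, 6⟩,
  ⟨0, 0, -1, -1, 2, 6⟩,
  ⟨0, 0, -1, 1, -2, 8⟩,
  ⟨0, 0, 0, -1, 0, 8⟩,
  ⟨0, 0, 0, 1, 0, 0⟩,
  ⟨0, 0, 1, -1, 2, 0⟩,
  ⟨0, 0, 1, 1, -2, 2⟩,
  ⟨0, 0, 2, -1, 0, 2⟩,
  ⟨0, 1, -1, 0, 2, 0⟩,
  ⟨0, 1, -1, 2, -2, 2⟩,
  ⟨0, 1, 1, -2, 2, 2⟩,
  ⟨0, 1, 1, 0, -2, 4⟩,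
  ⟨0, 2, -2, 1, 0, 2⟩,
  ⟨0, 2, -1, -1, 2, 2⟩,
  ⟨0, 2, -1, 1, -2, 4⟩,
  ⟨0, 2, 0, -1, 0, 4⟩,
  ⟨1, -2, 0, 0, 2, 2⟩,
  ⟨1, -2, 0, 2, -2, 4⟩,
  ⟨1, -2, 2, -2, 2, 4⟩,
  ⟨1, -2, 2, 0, -2, 6⟩,
  ⟨1, -1, 0, 0, 2, 0⟩,
  ⟨1, -1, 0, 2, -2, 2⟩,
  ⟨1, -1, 2, -2, 2, 2⟩,
  ⟨1, -1, 2, 0, -2, 4⟩,
  ⟨1, 0, -2, 0, 2, 4⟩,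
  ⟨1, 0, -2, 2, -2, 6⟩,
  ⟨1, 0, 0, -2, 2, 6⟩,
  ⟨1, 0, 0, 0, -2, 8⟩,
  ⟨1, 1, -2, 0, 2, 2⟩,
  ⟨1, 1, -2, 2, -2, 4⟩,
  ⟨1, 1, 0, -2, 2, 4⟩,
  ⟨1, 1, 0, 0, -2, 6⟩,
  ⟨2, -2, 0, 1, 0, 2⟩,
  ⟨2, -2, 1, -1, 2, 2⟩,
  ⟨2, -2, 1, 1, -2, 4⟩,
  ⟨2, -2, 2, -1, 0, 4⟩,
  ⟨2, -1, -1, 0, 2, 2⟩,
  ⟨2, -1, -1, 2, -2, 4⟩,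
  ⟨2, -1, 1, -2, 2, 4⟩,
  ⟨2, -1, 1, 0, -2, 6⟩,
  ⟨2, 0, -2, 1, 0, 4⟩,
  ⟨2, 0, -1, -1, 2, 4⟩,
  ⟨2, 0, -1, 1, -2, 6⟩,
  ⟨2, 0, 0, -1, 0, 6⟩]

/-- orbit -/
def o54 : List V := [
  ⟨-1, 0, 0, 0, 1, 1⟩,
  ⟨-1, 0, 0, 1, -1, 2⟩,
  ⟨-1, 0, 1, -1, 1, 2⟩,
  ⟨-1, 0, 1, 0, -1, 3⟩,
  ⟨-1, 1, -1, 0, 1, 2⟩,
  ⟨-1, 1, -1, 1, -1, 3⟩,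
  ⟨-1, 1, 0, -1, 1, 3⟩,
  ⟨-1, 1, 0, 0, -1, 4⟩,
  ⟨0, -1, 0, 0, 1, 2⟩,
  ⟨0, -1, 0, 1, -1, 3⟩,
  ⟨0, -1, 1, -1, 1, 3⟩,
  ⟨0, -1, 1, 0, -1, 4⟩,
  ⟨0, 0, -1, 0, 1, 3⟩,
  ⟨0, 0, -1, 1, -1, 4⟩,
  ⟨0, 0, 0, -1, 1, 4⟩,
  ⟨0, 0, 0, 0, -1, 5⟩,
  ⟨0, 0, 0, 0, 1, 0⟩,
  ⟨0, 0, 0, 1, -1, 1⟩,
  ⟨0, 0, 1, -1, 1, 1⟩,
  ⟨0, 0, 1, 0, -1, 2⟩,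
  ⟨0, 1, -1, 0, 1, 1⟩,
  ⟨0, 1, -1, 1, -1, 2⟩,
  ⟨0, 1, 0, -1, 1, 2⟩,
  ⟨0, 1, 0, 0, -1, 3⟩,
  ⟨1, -1, 0, 0, 1, 1⟩,
  ⟨1, -1, 0, 1, -1, 2⟩,
  ⟨1, -1, 1, -1, 1, 2⟩,
  ⟨1, -1, 1, 0, -1, 3⟩,
  ⟨1, 0, -1, 0, 1, 2⟩,
  ⟨1, 0, -1, 1, -1, 3⟩,
  ⟨1, 0, 0, -1, 1, 3⟩,
  ⟨1, 0, 0, 0, -1, 4⟩]

/-- the orbit of the functional `k` under the parabolic subgroup omitting `j` -/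
def orbL (j k : Fin 6) : List V :=
  match j.val, k.val with
  | 1, 0 => o10
  | 1, 2 => o12
  | 1, 5 => o15
  | 2, 0 => o20
  | 2, 1 => o21
  | 2, 3 => o23
  | 2, 4 => o24
  | 2, 5 => o25
  | 3, 0 => o30
  | 3, 1 => o31
  | 3, 2 => o32
  | 3, 4 => o34
  | 3, 5 => o35
  | 4, 0 => o40
  | 4, 1 => o41
  | 4, 2 => o42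
  | 4, 3 => o43
  | 4, 5 => o45
  | 5, 0 => o50
  | 5, 1 => o51
  | 5, 2 => o52
  | 5, 3 => o53
  | 5, 4 => o54
  | _, _ => []

/-- the good pairs -/
def gd (j k : Fin 6) : Bool := j != 0 && j != k && !(j == 1 && (k == 3 || k == 4))

/-- gcd of the coordinates of a difference -/
def gcdV (y w : V) : ℕ :=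
  Int.gcd (y.a - w.a) (Int.gcd (y.b - w.b) (Int.gcd (y.c - w.c) (Int.gcd (y.d - w.d)
    (Int.gcd (y.e - w.e) (y.f - w.f)))))

/-- fundamental functionals -/
def om : Fin 6 → V
  | 0 => ⟨1, 0, 0, 0, 0, 0⟩
  | 1 => ⟨0, 1, 0, 0, 0, 0⟩
  | 2 => ⟨0, 0, 1, 0, 0, 0⟩
  | 3 => ⟨0, 0, 0, 1, 0, 0⟩
  | 4 => ⟨0, 0, 0, 0, 1, 0⟩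
  | 5 => ⟨0, 0, 0, 0, 0, 1⟩

/-- equality test -/
def veq (x y : V) : Bool := x.a == y.a && (x.b == y.b && (x.c == y.c && (x.d == y.d &&
  (x.e == y.e && x.f == y.f))))

theorem veq_iff (x y : V) : veq x y = true ↔ x = y := by
  constructor
  · intro h
    simp only [veq, Bool.and_eq_true, beq_iff_eq] at h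
    obtain ⟨h1, h2, h3, h4, h5, h6⟩ := h
    exact V.ext h1 h2 h3 h4 h5 h6
  · rintro rfl
    simp [veq]

/-- membership test -/
def vmem (x : V) (l : List V) : Bool := l.any (fun y => veq x y)

theorem vmem_iff (x : V) (l : List V) : vmem x l = true ↔ x ∈ l := by
  simp only [vmem, List.any_eq_true, veq_iff]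
  constructor
  · rintro ⟨y, hy, rfl⟩; exact hy
  · intro h; exact ⟨x, h, rfl⟩

/-- the finite check for one pair -/
def chk (j k : Fin 6) : Bool :=
  vmem (om k) (orbL j k) &&
  (orbL j k).all (fun y =>
    (List.finRange 6).all (fun i => i == j || vmem (fa i y) (orbL j k)) &&
    (veq y (om k) || gcdV y (om k) == 1 || gcdV y (om k) == 2))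

set_option maxRecDepth 100000 in
theorem chk_all : ∀ j k : Fin 6, gd j k = true → chk j k = true := by
  decide +kernel

end Pool.Agent.Helper622.Six
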