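import Pool.Agent.Helper622.Six.Grp

/-!
# Infiniteness for all odd s >= 5
-/

set_option autoImplicit false

namespace Pool.Agent.Helper622.Six

open V X

/-- the cocycle data given by the vectors of norm 4 -/
def C4 : Fin 6 → List (ℤ × V)
  | 0 => []
  | 1 => []
  | 2 => [(1, ⟨-1, 0, 1, 0, 0, 0⟩), (1, ⟨1, 0, 1, 0, 0, 0⟩)]
  | 3 => [(1, ⟨-1, 0, 0, 1, 0, 0⟩), (1, ⟨1, 0, 0, 1, 0, 0⟩), (1, ⟨0, -1, 0, 1, 0, 0⟩),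
          (1, ⟨0, 1, 0, 1, 0, 0⟩), (1, ⟨-1, -1, 0, 1, 0, 0⟩), (1, ⟨1, 1, 0, 1, 0, 0⟩)]
  | 4 => [(-1, ⟨0, 0, 0, 0, 1, 0⟩)]
  | 5 => [(-1, ⟨0, 0, 0, 0, 0, 1⟩)]

/-- the isotropic vector of the vertex -/
def dl : V := ⟨0, 1, 2, 3, 2, 1⟩

/-- pairs -/
def prs1 : List (ℤ × V × ℤ) :=
  [(1, ⟨0, -1, 0, 1, 0, 0⟩, 2),
   (-1, ⟨0, 0, 2, 2, 1, 0⟩, 2),
   (1, ⟨0, -1, 0, 1, 1, 0⟩, 2),
   (-1, ⟨0, 0, 2, 2, 1, 1⟩, 2),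
   (-1, ⟨0, 0, 2, 2, 2, 1⟩, 2),
   (1, ⟨0, -1, 0, 1, 1, 1⟩, 2)]
/-- telescoping part -/
def hh1 : List (ℤ × V) :=
  [(-1, ⟨1, 0, -2, -3, -2, -1⟩),
   (-1, ⟨1, -1, -2, -3, -2, -1⟩),
   (-1, ⟨1, 0, -1, -3, -2, -1⟩),
   (-1, ⟨1, 0, -1, -2, -2, -1⟩),
   (-1, ⟨1, 1, 0, -1, -1, -1⟩),
   (-1, ⟨1, 0, 0, -1, -1, -1⟩),
   (-1, ⟨1, 0, -1, 0, 0, 0⟩),
   (-1, ⟨1, 0, -1, -2, -1, -1⟩),
   (-1, ⟨1, 0, -1, -1, -1, 0⟩),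
   (-1, ⟨1, 0, -1, -2, -1, 0⟩),
   (-1, ⟨1, 1, 0, -1, -1, 0⟩),
   (-1, ⟨1, 0, 0, -1, -1, 0⟩),
   (-1, ⟨1, 1, 0, -1, 0, 0⟩),
   (-1, ⟨1, 0, 0, -1, 0, 0⟩),
   (-1, ⟨1, 0, -1, -1, -1, -1⟩),
   (-1, ⟨1, 0, -1, -1, 0, 0⟩)]
/-- pairs -/
def prs2 : List (ℤ × V × ℤ) :=
  [(-1, ⟨0, 0, 0, 0, 0, 1⟩, 2),
   (-1, ⟨0, 0, 0, 0, 1, 1⟩, 2),
   (1, ⟨0, -1, 0, 1, 1, 1⟩, 4),
   (1, ⟨0, 1, 4, 7, 5, 3⟩, 4),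
   (-1, ⟨0, 0, 0, 2, 1, 1⟩, 2),
   (-1, ⟨0, 0, 0, 2, 2, 1⟩, 2),
   (1, ⟨0, -1, 0, 1, 0, 0⟩, 2),
   (1, ⟨0, -1, 0, 1, 1, 0⟩, 2),
   (-1, ⟨0, 0, 2, 2, 1, 1⟩, 2),
   (-1, ⟨0, 0, 2, 2, 2, 1⟩, 2)]
/-- telescoping part -/
def hh2 : List (ℤ × V) :=
  [(-1, ⟨1, 0, -1, -3, -2, -1⟩),
   (-1, ⟨1, 0, -2, -3, -2, -1⟩),
   (-1, ⟨1, 1, 0, -1, -1, -1⟩),
   (-1, ⟨1, -1, -2, -3, -2, -1⟩),
   (-1, ⟨1, 0, -1, -1, -1, -1⟩),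
   (-1, ⟨1, 0, -1, -2, -1, 0⟩),
   (-1, ⟨1, 0, -1, -1, -1, 0⟩),
   (-1, ⟨1, 0, -1, -1, 0, 0⟩),
   (-1, ⟨1, 0, -1, 0, 0, 0⟩),
   (-1, ⟨1, 0, 0, -1, -1, -1⟩),
   (-1, ⟨1, 1, 0, -1, 0, 0⟩),
   (-1, ⟨1, 0, 0, -1, -1, 0⟩),
   (-1, ⟨1, 1, 0, -1, -1, 0⟩),
   (-1, ⟨1, 0, 0, -1, 0, 0⟩),
   (-1, ⟨1, 0, -1, -2, -1, -1⟩),
   (-1, ⟨1, 0, -1, -2, -2, -1⟩)]

theorem cox4 : coxCheck C4 = true := by decide +kernel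

/-- the period word -/
def pw (k : ℕ) : List (Fin 6) := if k = 1 then (tw 1).reverse else rep 2 (tw 2).reverse

/-- list of formal pairs -/
def fp (l : List (ℤ × V × ℤ)) : List (ℤ × V) :=
  l.map (fun t => (t.1, t.2.1)) ++ ngl (l.map (fun t => (t.1, t.2.1 + dl)))

/-- decomposition check -/
def decCheck (w : List (Fin 6)) (prs : List (ℤ × V × ℤ)) (hh : List (ℤ × V)) : Bool :=
  allZero (norm (terms C4 w ++ ngl (fp prs ++ (hh ++ ngl (mp (mat w) hh)))))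

/-- period check -/
def perCheck (w : List (Fin 6)) (prs : List (ℤ × V × ℤ)) : Bool :=
  prs.all (fun t => decide (mat w t.2.1 = t.2.1 + sm t.2.2 dl) && decide (t.2.2 = 2 ∨ t.2.2 = 4))
    && decide (mat w dl = dl)

/-- first difference -/
def df (w : List (Fin 6)) (v : V) : V := mat w v + -v

/-- unipotence check -/
def uniCheck (w : List (Fin 6)) : Bool :=
  decide (∀ i : Fin 6, mat w (df w (df w (bas i))) = df w (df w (bas i)))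

theorem dec1 : decCheck (pw 1) prs1 hh1 = true := by decide +kernel
theorem dec2 : decCheck (pw 2) prs2 hh2 = true := by decide +kernel
theorem per1 : perCheck (pw 1) prs1 = true := by decide +kernel
theorem per2 : perCheck (pw 2) prs2 = true := by decide +kernel
theorem uni1 : uniCheck (pw 1) = true := by decide +kernel
theorem uni2 : uniCheck (pw 2) = true := by decide +kernel

end Pool.Agent.Helper622.Six
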