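import Pool.Agent.Helper622.Six.Lin
import Pool.Agent.Helper622.Six.Odd

set_option autoImplicit false

namespace Pool.Agent.Helper622.Six

open V X

/-- value of the pair list -/
def fpS (φ : V → ℤ) (l : List (ℤ × V × ℤ)) : ℤ :=
  (l.map (fun t => t.1 * (φ t.2.1 - φ (t.2.1 + dl)))).sum

theorem S_fp (φ : V → ℤ) (l : List (ℤ × V × ℤ)) : S φ (fp l) = fpS φ l := by
  unfold fp fpS
  rw [S_append, S_ngl]
  induction l with
  | nil => rfl
  | cons t l ih =>
    simp only [List.map_cons, S_cons, List.sum_cons] at *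
    rw [← ih]; ring

variable {s : ℕ}

theorem sum_fpS [NeZero s] (hs : Odd s) (ψ : ZMod s → ℤ) (x : X s) (u : List (Fin 6))
    (prs : List (ℤ × V × ℤ)) (h : ∀ t ∈ prs, mat u t.2.1 = t.2.1 + sm t.2.2 dl ∧
      (t.2.2 = 2 ∨ t.2.2 = 4)) (hd : mat u dl = dl) :
    ∑ j ∈ Finset.range s, fpS (fun v => ph ψ x (mat (rep j u) v)) prs = 0 := by
  induction prs with
  | nil => simp [fpS]
  | cons t l ih =>
    have h1 := h t (by simp)
    have h2 := ih (fun t' ht' => h t' (by simp [ht']))
    have hexp : ∀ j : ℕ, fpS (fun v => ph ψ x (mat (rep j u) v)) (t :: l) =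
        t.1 * (ψ (ev x t.2.1 + ((j : ZMod s) * ((t.2.2.toNat : ℕ) : ZMod s)) * ev x dl) -
          ψ (ev x t.2.1 + ev x dl + ((j : ZMod s) * ((t.2.2.toNat : ℕ) : ZMod s)) * ev x dl)) +
        fpS (fun v => ph ψ x (mat (rep j u) v)) l := by
      intro j
      have e1 : mat (rep j u) t.2.1 = t.2.1 + sm (j * t.2.2) dl :=
        mat_rep_period u _ _ _ h1.1 hd j
      have e2 : mat (rep j u) dl = dl := by
        have := mat_rep_period u dl dl 0 (by rw [hd, add_sm_zero]) hd j
        rw [this, mul_zero, add_sm_zero]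
      have e3 : ((t.2.2.toNat : ℕ) : ℤ) = t.2.2 := by
        rcases h1.2 with h | h <;> rw [h] <;> rfl
      have e4 : (((j : ℤ) * t.2.2 : ℤ) : ZMod s) = (j : ZMod s) * ((t.2.2.toNat : ℕ) : ZMod s) := by
        calc (((j : ℤ) * t.2.2 : ℤ) : ZMod s)
            = (((j : ℤ) * ((t.2.2.toNat : ℕ) : ℤ) : ℤ) : ZMod s) := by rw [e3]
          _ = (j : ZMod s) * ((t.2.2.toNat : ℕ) : ZMod s) := by
            rw [Int.cast_mul, Int.cast_natCast, Int.cast_natCast]
      simp only [fpS, List.map_cons, List.sum_cons, ph]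
      rw [mat_add, e1, e2, ev_add, ev_add, ev_add, ev_sm, e4]
      congr 4
      ring
    simp_rw [hexp]
    rw [Finset.sum_add_distrib, h2, add_zero, ← Finset.mul_sum]
    have hcop : Nat.Coprime t.2.2.toNat s := by
      rcases h1.2 with h | h <;> rw [h]
      · exact (Nat.coprime_two_left).mpr hs
      · have : (4 : ℤ).toNat = 2 ^ 2 := rfl
        rw [this]
        exact Nat.Coprime.pow_left 2 ((Nat.coprime_two_left).mpr hs)
    rw [sum_pair s ψ _ hcop, mul_zero]

theorem cast_choose_two [NeZero s] (hs : Odd s) : ((Nat.choose s 2 : ℕ) : ZMod s) = 0 := by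
  obtain ⟨m, hm⟩ := hs
  rw [ZMod.natCast_eq_zero_iff]
  refine ⟨m, ?_⟩
  rw [Nat.choose_two_right]
  have : s * (s - 1) = (s * m) * 2 := by
    have : s - 1 = 2 * m := by omega
    rw [this]; ring
  rw [this, Nat.mul_div_cancel _ (by norm_num)]

theorem V_split (a w : V) : a = w + (a + -w) := by
  apply V.ext <;> simp

theorem closing [NeZero s] (hs : Odd s) (u : List (Fin 6)) (hu : uniCheck u = true) (x : X s) (v : Fin 6) :
    ev x (mat (rep s u) (bas v)) = ev x (bas v) := by
  have hq := (of_decide_eq_true hu) v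
  have h1 : mat u (bas v) = bas v + df u (bas v) := V_split _ _
  have h2 : mat u (df u (bas v)) = df u (bas v) + df u (df u (bas v)) := V_split _ _
  rw [mat_rep_unip u _ _ _ h1 h2 hq s, ev_add, ev_add, ev_sm, ev_sm]
  have e1 : ((s : ℤ) : ZMod s) = 0 := by simp
  have e2 : (((Nat.choose s 2 : ℕ) : ℤ) : ZMod s) = 0 := by
    have := cast_choose_two hs
    push_cast
    exact this
  rw [e1, e2, zero_mul, zero_mul, add_zero, add_zero]

theorem ev_sum_bas (x : X s) (v : V) : ev x v = (v.a : ZMod s) * ev x (bas 0) +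
    (v.b : ZMod s) * ev x (bas 1) + (v.c : ZMod s) * ev x (bas 2) + (v.d : ZMod s) * ev x (bas 3) +
    (v.e : ZMod s) * ev x (bas 4) + (v.f : ZMod s) * ev x (bas 5) := by
  simp [ev, bas]

theorem V_eq_sum (v : V) : v = sm v.a (bas 0) + (sm v.b (bas 1) + (sm v.c (bas 2) +
    (sm v.d (bas 3) + (sm v.e (bas 4) + sm v.f (bas 5))))) := by
  apply V.ext <;> simp [bas]

theorem closing_all [NeZero s] (hs : Odd s) (u : List (Fin 6)) (hu : uniCheck u = true) (x : X s)
    (v : V) : ev x (mat (rep s u) v) = ev x v := by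
  conv_lhs => rw [V_eq_sum v]
  rw [mat_add, mat_add, mat_add, mat_add, mat_add, mat_sm, mat_sm, mat_sm, mat_sm, mat_sm, mat_sm]
  simp only [ev_add, ev_sm, closing hs u hu]
  rw [ev_sum_bas x v]; ring

theorem period_trivial [NeZero s] (hs : Odd s) (ψ : ZMod s → ℤ) (hψ : ∀ z, ψ (-z) = -ψ z)
    (u : List (Fin 6)) (prs : List (ℤ × V × ℤ)) (hh : List (ℤ × V))
    (h1 : decCheck u prs hh = true) (h2 : perCheck u prs = true) (h3 : uniCheck u = true)
    (p : X s × ℤ) : run C4 ψ (rep s u) p = p := by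
  obtain ⟨x, n⟩ := p
  rw [run_eq]
  have hx : actw (rep s u) x = x :=
    ext_bas (fun i => by rw [ev_actw, closing hs u h3])
  rw [hx, S_terms_rep]
  have hper : (∀ t ∈ prs, mat u t.2.1 = t.2.1 + sm t.2.2 dl ∧ (t.2.2 = 2 ∨ t.2.2 = 4)) ∧
      mat u dl = dl := by
    simp only [perCheck, Bool.and_eq_true, List.all_eq_true, decide_eq_true_eq] at h2
    exact h2
  have hodd : ∀ j : ℕ, ∀ v, (fun v => ph ψ x (mat (rep j u) v)) (-v) =
      -(fun v => ph ψ x (mat (rep j u) v)) v := by
    intro j v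
    show ph ψ x (mat (rep j u) (-v)) = -ph ψ x (mat (rep j u) v)
    rw [mat_neg, ph_odd ψ hψ]
  have hterm : ∀ j : ℕ, S (fun v => ph ψ x (mat (rep j u) v)) (terms C4 u) =
      fpS (fun v => ph ψ x (mat (rep j u) v)) prs +
        (S (fun v => ph ψ x (mat (rep j u) v)) hh -
          S (fun v => ph ψ x (mat (rep (j + 1) u) v)) hh) := by
    intro j
    rw [S_eq _ (hodd j) _ _ h1, S_append, S_append, S_ngl, S_fp, S_mp]
    congr 1
    have : (fun w => ph ψ x (mat (rep j u) (mat u w))) = (fun v => ph ψ x (mat (rep (j + 1) u) v)) := by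
      funext v
      rw [rep_succ', mat_append]
    rw [this]; ring
  simp_rw [hterm]
  rw [Finset.sum_add_distrib, sum_fpS hs ψ x u prs hper.1 hper.2, zero_add,
    Finset.sum_range_sub']
  have e0 : (fun v => ph ψ x (mat (rep 0 u) v)) = (fun v => ph ψ x v) := by
    funext v; rfl
  have e1 : (fun v => ph ψ x (mat (rep s u) v)) = (fun v => ph ψ x v) := by
    funext v; unfold ph; rw [closing_all hs u h3]
  rw [e0, e1, sub_self, add_zero]

theorem rep_rep (m n : ℕ) (w : List (Fin 6)) : rep m (rep n w) = rep (m * n) w := by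
  induction m with
  | zero => simp [rep]
  | succ m ih => rw [rep_succ, ih, Nat.succ_mul, Nat.add_comm (m * n) n, rep_add]

theorem odd_rel [NeZero s] (hs : Odd s) (ψ : ZMod s → ℤ) (hψ : ∀ z, ψ (-z) = -ψ z) (k : ℕ)
    (p : X s × ℤ) : run C4 ψ (rep (ex k s) (tw k).reverse) p = p := by
  by_cases hk : k = 1
  · subst hk
    have := period_trivial hs ψ hψ (pw 1) prs1 hh1 dec1 per1 uni1 p
    simpa [ex, pw] using this
  · have h := period_trivial hs ψ hψ (pw 2) prs2 hh2 dec2 per2 uni2 p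
    have e : rep s (pw 2) = rep (ex k s) (tw k).reverse := by
      have : pw 2 = rep 2 (tw k).reverse := by
        simp only [pw, tw, if_neg hk]; rfl
      rw [this, rep_rep, ex, if_neg hk, Nat.mul_comm]
    rw [← e]; exact h

end Pool.Agent.Helper622.Six
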