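import Pool.Agent.Helper622.Six.CG2
import Pool.Agent.Helper622.Six.OddMain

/-!
# The action on functionals modulo `s`, and the intersection property
-/

set_option autoImplicit false

namespace Pool.Agent.Helper622.Six

open V X

/-- evenness of the quadratic part -/
def ev2Check (w : List (Fin 6)) : Bool :=
  decide (∀ i : Fin 6, df w (df w (bas i)) = sm 2 ⟨(df w (df w (bas i))).a / 2,
    (df w (df w (bas i))).b / 2, (df w (df w (bas i))).c / 2, (df w (df w (bas i))).d / 2,
    (df w (df w (bas i))).e / 2, (df w (df w (bas i))).f / 2⟩)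

theorem evn1 : ev2Check (pw 1) = true := by decide +kernel
theorem evn2 : ev2Check (pw 2) = true := by decide +kernel

variable {s : ℕ}

theorem closing' (u : List (Fin 6)) (hu : uniCheck u = true) (he : ev2Check u = true) (x : X s) :
    actw (rep s u) x = x := by
  apply ext_bas
  intro v
  rw [ev_actw]
  have hq := (of_decide_eq_true hu) v
  have hv := (of_decide_eq_true he) v
  have h1 : mat u (bas v) = bas v + df u (bas v) := V_split _ _
  have h2 : mat u (df u (bas v)) = df u (bas v) + df u (df u (bas v)) := V_split _ _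
  rw [mat_rep_unip u _ _ _ h1 h2 hq s, ev_add, ev_add, ev_sm, ev_sm, hv, ev_sm]
  have e1 : ((s : ℤ) : ZMod s) = 0 := by simp
  have e2 : (((Nat.choose s 2 : ℕ) : ℤ) : ZMod s) * ((2 : ℤ) : ZMod s) = 0 := by
    have : (((Nat.choose s 2 * 2 : ℕ)) : ZMod s) = 0 := by
      rw [Nat.choose_two_right, Nat.div_mul_cancel (Nat.even_mul_pred_self s).two_dvd, Nat.cast_mul]
      simp
    push_cast at this ⊢
    exact this
  rw [← mul_assoc, e1, e2, zero_mul, zero_mul, add_zero, add_zero]

theorem rel_all (k : ℕ) (x : X s) : actw (rep (ex k s) (tw k).reverse) x = x := by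
  by_cases hk : k = 1
  · subst hk
    have := closing' (pw 1) uni1 evn1 x
    simpa [ex, pw] using this
  · have h := closing' (pw 2) uni2 evn2 x
    have e : rep s (pw 2) = rep (ex k s) (tw k).reverse := by
      have : pw 2 = rep 2 (tw k).reverse := by
        simp only [pw, tw, if_neg hk]; rfl
      rw [this, rep_rep, ex, if_neg hk, Nat.mul_comm]
    rw [← e]; exact h

/-- trivial cocycle -/
def C0 : Fin 6 → List (ℤ × V) := fun _ => []

theorem cox0 : coxCheck C0 = true := by decide +kernel

theorem terms0 (w : List (Fin 6)) : terms C0 w = [] := by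
  induction w with
  | nil => rfl
  | cons i w ih => simp [terms, ih, C0, mp]

/-- the action of the presented group -/
noncomputable def Fh (k s : ℕ) :
    PresentedGroup (rels k s) →* Equiv.Perm {p : X s × ℤ // True} :=
  PresentedGroup.toGroup (lift_rel C0 (fun _ => 0) (fun _ => by simp) (fun _ => True)
    (fun _ _ h => h) cox0 k s (by
      rintro ⟨x, n⟩ -
      rw [run_eq, rel_all, terms0]; simp))

theorem Fh_word (k s : ℕ) (l : List (Fin 6)) (x : X s) :
    ((Fh k s ((l.map PresentedGroup.of).prod)) ⟨(x, 0), trivial⟩).1.1 = l.foldr act x := by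
  have h : Fh k s ((l.map PresentedGroup.of).prod) =
      (l.map (Pm C0 (fun _ => 0) (fun _ => by simp) (fun _ => True) (fun _ _ h => h) cox0)).prod := by
    rw [map_list_prod, List.map_map]
    congr 1
  rw [h, prod_apply, run_eq]
  show actw l.reverse x = _
  simp [actw]

/-- reduction of integral functionals -/
def red (s : ℕ) (y : V) : X s := ⟨y.a, y.b, y.c, y.d, y.e, y.f⟩

theorem red_fa (i : Fin 6) (y : V) : red s (fa i y) = act i (red s y) := by
  fin_cases i <;> (apply X.ext <;> simp [red, fa, act])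

theorem red_foldr (l : List (Fin 6)) (y : V) : red s (l.foldr fa y) = l.foldr act (red s y) := by
  induction l with
  | nil => rfl
  | cons i l ih => rw [List.foldr_cons, List.foldr_cons, red_fa, ih]

theorem gcd_red (hs : 3 ≤ s) (y w : V) (h : red s y = red s w)
    (hg : gcdV y w = 1 ∨ gcdV y w = 2) : False := by
  have key : ∀ a b : ℤ, (a : ZMod s) = (b : ZMod s) → (s : ℤ) ∣ a - b :=
    fun a b hab => (ZMod.intCast_eq_intCast_iff_dvd_sub b a s).mp hab.symm
  have h1 := key _ _ (congrArg X.a h)
  have h2 := key _ _ (congrArg X.b h)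
  have h3 := key _ _ (congrArg X.c h)
  have h4 := key _ _ (congrArg X.d h)
  have h5 := key _ _ (congrArg X.e h)
  have h6 := key _ _ (congrArg X.f h)
  have h7 : (s : ℤ) ∣ (gcdV y w : ℤ) :=
    Int.dvd_coe_gcd h1 (Int.dvd_coe_gcd h2 (Int.dvd_coe_gcd h3 (Int.dvd_coe_gcd h4
      (Int.dvd_coe_gcd h5 h6))))
  have h8 : s ∣ gcdV y w := Int.natCast_dvd_natCast.mp h7
  have h9 := Nat.le_of_dvd (by omega) h8
  omega

theorem co_om_nonneg (i c : Fin 6) : 0 ≤ co i (om c) := by
  revert i c; decide

theorem co_om_zero (i c : Fin 6) (h : co i (om c) = 0) : i ≠ c := by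
  revert i c; decide

theorem co_om_ne (i c : Fin 6) (h : i ≠ c) : co i (om c) = 0 := by
  revert i c; decide

theorem mem_orb (j c : Fin 6) (hg : gd j c = true) (l : List (Fin 6)) (hl : ∀ i ∈ l, i ≠ j) :
    l.foldr fa (om c) ∈ orbL j c := by
  have h := chk_all j c hg
  simp only [chk, Bool.and_eq_true, List.all_eq_true, List.mem_finRange, forall_const] at h
  induction l with
  | nil => exact (vmem_iff _ _).mp h.1
  | cons i l ih =>
    have h1 := ih (fun k hk => hl k (by simp [hk]))
    have h2 := (h.2 _ h1).1 i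
    rw [Bool.or_eq_true, beq_iff_eq] at h2
    rcases h2 with h2 | h2
    · exact absurd h2 (hl i (by simp))
    · exact (vmem_iff _ _).mp h2

theorem orb_inj (hs : 3 ≤ s) (j c : Fin 6) (hg : gd j c = true) (l : List (Fin 6))
    (hl : ∀ i ∈ l, i ≠ j) (hfix : l.foldr act (red s (om c)) = red s (om c)) :
    l.foldr fa (om c) = om c := by
  have h := chk_all j c hg
  simp only [chk, Bool.and_eq_true, List.all_eq_true] at h
  have h1 := (h.2 _ (mem_orb j c hg l hl)).2
  rw [← red_foldr] at hfix
  simp only [Bool.or_eq_true, beq_iff_eq, veq_iff] at h1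
  rcases h1 with (h1 | h1) | h1
  · exact h1
  · exact (gcd_red hs _ _ hfix (Or.inl h1)).elim
  · exact (gcd_red hs _ _ hfix (Or.inr h1)).elim

section grp

variable (k s : ℕ)

theorem of_sq (i : Fin 6) : (PresentedGroup.of i : PresentedGroup (rels k s)) * PresentedGroup.of i = 1 := by
  have hm : (FreeGroup.of i * FreeGroup.of i) ^ (cm i i) ∈ rels k s := Or.inl ⟨i, i, rfl⟩
  have h := PresentedGroup.one_of_mem hm
  have hc : cm i i = 1 := by simp [cm]
  rw [hc, pow_one, map_mul] at h
  exact h

theorem of_cox (i j : Fin 6) :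
    ((PresentedGroup.of i : PresentedGroup (rels k s)) * PresentedGroup.of j) ^ (cm i j) = 1 := by
  have hm : (FreeGroup.of i * FreeGroup.of j) ^ (cm i j) ∈ rels k s := Or.inl ⟨i, j, rfl⟩
  have h := PresentedGroup.one_of_mem hm
  rw [map_pow, map_mul] at h
  exact h

/-- parabolic subgroups -/
def clo (a : Fin 6 → Bool) : Subgroup (PresentedGroup (rels k s)) :=
  Subgroup.closure ((PresentedGroup.of : Fin 6 → PresentedGroup (rels k s)) '' {i | a i = true})

variable {k s}

theorem prod_rev_inv (l : List (Fin 6)) :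
    ((l.reverse).map (PresentedGroup.of : Fin 6 → PresentedGroup (rels k s))).prod =
      ((l.map PresentedGroup.of).prod)⁻¹ := by
  induction l with
  | nil => simp
  | cons i l ih =>
    have hi : (PresentedGroup.of i : PresentedGroup (rels k s)) = (PresentedGroup.of i)⁻¹ :=
      eq_inv_of_mul_eq_one_left (of_sq k s i)
    rw [List.reverse_cons, List.map_append, List.prod_append, ih, List.map_cons, List.map_nil,
      List.prod_cons, List.prod_nil, mul_one, List.map_cons, List.prod_cons, mul_inv_rev, ← hi]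

theorem exists_word (a : Fin 6 → Bool) (g : PresentedGroup (rels k s)) (hg : g ∈ clo k s a) :
    ∃ l : List (Fin 6), (∀ i ∈ l, a i = true) ∧ (l.map PresentedGroup.of).prod = g := by
  unfold clo at hg
  induction hg using Subgroup.closure_induction with
  | mem x hx =>
    obtain ⟨i, hi, rfl⟩ := hx
    exact ⟨[i], by simpa using hi, by simp⟩
  | one => exact ⟨[], by simp, by simp⟩
  | mul x y _ _ hx hy =>
    obtain ⟨l, hl, rfl⟩ := hx
    obtain ⟨m, hm, rfl⟩ := hy
    refine ⟨l ++ m, ?_, by simp⟩
    intro i hi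
    rcases List.mem_append.mp hi with h | h
    · exact hl i h
    · exact hm i h
  | inv x _ hx =>
    obtain ⟨l, hl, rfl⟩ := hx
    exact ⟨l.reverse, fun i hi => hl i (List.mem_reverse.mp hi), prod_rev_inv l⟩

theorem clo_mono (a b : Fin 6 → Bool) (h : ∀ i, a i = true → b i = true) :
    clo k s a ≤ clo k s b :=
  Subgroup.closure_mono (Set.image_mono (fun i hi => h i hi))

theorem act_fix (i c : Fin 6) (h : i ≠ c) : act i (red s (om c)) = red s (om c) := by
  rw [← red_fa, fa_fix i _ (co_om_ne i c h)]

theorem foldr_fix (c : Fin 6) (l : List (Fin 6)) (hl : ∀ i ∈ l, i ≠ c) :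
    l.foldr act (red s (om c)) = red s (om c) := by
  induction l with
  | nil => rfl
  | cons i l ih =>
    rw [List.foldr_cons, ih (fun j hj => hl j (by simp [hj])), act_fix i c (hl i (by simp))]

theorem star (hs : 3 ≤ s) (a b : Fin 6 → Bool) (g : PresentedGroup (rels k s))
    (ha : g ∈ clo k s a) (hb : g ∈ clo k s b) (j c : Fin 6) (hj : a j = false) (hc : b c = false)
    (hg : gd j c = true) : g ∈ clo k s (fun i => a i && i != c) := by
  obtain ⟨l, hl, rfl⟩ := exists_word a g ha
  obtain ⟨m, hm, hml⟩ := exists_word b _ hb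
  have hfix : l.foldr act (red s (om c)) = red s (om c) := by
    have h1 := Fh_word k s l (red s (om c))
    have h2 := Fh_word k s m (red s (om c))
    rw [hml, h1, foldr_fix c m (fun i hi h => by
      have := hm i hi
      rw [h, hc] at this
      exact absurd this (by simp))] at h2
    exact h2
  have hfix2 := orb_inj hs j c hg l (fun i hi h => by
      have := hl i hi
      rw [h, hj] at this
      exact absurd this (by simp)) hfix
  refine word_mem (ρ := (PresentedGroup.of : Fin 6 → PresentedGroup (rels k s))) (of_sq k s)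
    (of_cox k s) (fun i => a i = true) _ (om c) (fun i _ => co_om_nonneg i c) ?_ l hl hfix2
  intro i hi h0
  refine Subgroup.subset_closure ⟨i, ?_, rfl⟩
  have := co_om_zero i c h0
  simp [hi, this]

end grp

/-- inclusion test -/
def subB (a b : Fin 6 → Bool) : Bool := (List.finRange 6).all (fun i => !(a i) || b i)

/-- step test -/
def stepB (a b : Fin 6 → Bool) : Bool :=
  (List.finRange 6).any (fun c => a c && (!(b c) &&
    (List.finRange 6).any (fun j => !(a j) && gd j c)))

/-- list to function -/
def fn (a0 a1 a2 a3 a4 a5 : Bool) : Fin 6 → Bool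
  | 0 => a0
  | 1 => a1
  | 2 => a2
  | 3 => a3
  | 4 => a4
  | 5 => a5

theorem comb0 : ∀ a0 a1 a2 a3 a4 a5 b0 b1 b2 b3 b4 b5 : Bool,
    (subB (fn a0 a1 a2 a3 a4 a5) (fn b0 b1 b2 b3 b4 b5) ||
     subB (fn b0 b1 b2 b3 b4 b5) (fn a0 a1 a2 a3 a4 a5) ||
     stepB (fn a0 a1 a2 a3 a4 a5) (fn b0 b1 b2 b3 b4 b5) ||
     stepB (fn b0 b1 b2 b3 b4 b5) (fn a0 a1 a2 a3 a4 a5)) = true := by
  decide +kernel

theorem fn_eta (a : Fin 6 → Bool) : fn (a 0) (a 1) (a 2) (a 3) (a 4) (a 5) = a := by
  funext i; fin_cases i <;> rfl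

theorem comb (a b : Fin 6 → Bool) : (subB a b || subB b a || stepB a b || stepB b a) = true := by
  have := comb0 (a 0) (a 1) (a 2) (a 3) (a 4) (a 5) (b 0) (b 1) (b 2) (b 3) (b 4) (b 5)
  rwa [fn_eta, fn_eta] at this

/-- size -/
def sz (a : Fin 6 → Bool) : ℕ := (Finset.univ.filter (fun i => a i = true)).card

theorem sz_lt (a : Fin 6 → Bool) (c : Fin 6) (h : a c = true) :
    sz (fun i => a i && i != c) < sz a := by
  unfold sz
  apply Finset.card_lt_card
  rw [Finset.ssubset_iff_of_subset]
  · exact ⟨c, by simp [h], by simp⟩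
  · intro i hi
    simp only [Finset.mem_filter, Finset.mem_univ, true_and, Bool.and_eq_true] at hi ⊢
    exact hi.1

theorem subB_iff (a b : Fin 6 → Bool) (h : subB a b = true) (i : Fin 6) (hi : a i = true) :
    b i = true := by
  have := (List.all_eq_true.mp h) i (List.mem_finRange i)
  simpa [hi] using this

theorem stepB_iff (a b : Fin 6 → Bool) (h : stepB a b = true) :
    ∃ c j, a c = true ∧ b c = false ∧ a j = false ∧ gd j c = true := by
  simp only [stepB, List.any_eq_true, Bool.and_eq_true, Bool.not_eq_true'] at h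
  obtain ⟨c, _, h1, h2, j, _, h3, h4⟩ := h
  exact ⟨c, j, h1, h2, h3, h4⟩

theorem ip_aux {k s : ℕ} (hs : 3 ≤ s) (g : PresentedGroup (rels k s)) : ∀ n : ℕ,
    ∀ a b : Fin 6 → Bool, sz a + sz b = n → g ∈ clo k s a → g ∈ clo k s b →
      g ∈ clo k s (fun i => a i && b i) := by
  intro n
  induction n using Nat.strong_induction_on with
  | _ n ih =>
  intro a b hn ha hb
  have h := comb a b
  simp only [Bool.or_eq_true] at h
  rcases h with ((h | h) | h) | h
  · exact clo_mono a _ (fun i hi => by simp [hi, subB_iff a b h i hi]) ha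
  · exact clo_mono b _ (fun i hi => by simp [hi, subB_iff b a h i hi]) hb
  · obtain ⟨c, j, h1, h2, h3, h4⟩ := stepB_iff a b h
    have h5 := star hs a b g ha hb j c h3 h2 h4
    have h6 := ih _ (by have := sz_lt a c h1; omega) _ b rfl h5 hb
    exact clo_mono _ _ (fun i hi => by
      simp only [Bool.and_eq_true] at hi ⊢
      exact ⟨hi.1.1, hi.2⟩) h6
  · obtain ⟨c, j, h1, h2, h3, h4⟩ := stepB_iff b a h
    have h5 := star hs b a g hb ha j c h3 h2 h4
    have h6 := ih _ (by have := sz_lt b c h1; omega) a _ rfl ha h5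
    exact clo_mono _ _ (fun i hi => by
      simp only [Bool.and_eq_true] at hi ⊢
      exact ⟨hi.1, hi.2.1⟩) h6

/-- **The intersection property.** -/
theorem intersection_property (k s : ℕ) (hs : 3 ≤ s) (I J : Set (Fin 6)) :
    Subgroup.closure ((PresentedGroup.of : Fin 6 → PresentedGroup (rels k s)) '' I) ⊓
      Subgroup.closure ((PresentedGroup.of : Fin 6 → PresentedGroup (rels k s)) '' J) =
    Subgroup.closure ((PresentedGroup.of : Fin 6 → PresentedGroup (rels k s)) '' (I ∩ J)) := by
  classical
  have e : ∀ S : Set (Fin 6), {i | (decide (i ∈ S)) = true} = S := by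
    intro S; ext i; simp
  apply le_antisymm
  · rintro g ⟨h1, h2⟩
    have h1' : g ∈ clo k s (fun i => decide (i ∈ I)) := by unfold clo; rw [e]; exact h1
    have h2' : g ∈ clo k s (fun i => decide (i ∈ J)) := by unfold clo; rw [e]; exact h2
    have h3 := ip_aux hs g _ _ _ rfl h1' h2'
    unfold clo at h3
    have e2 : {i | (decide (i ∈ I) && decide (i ∈ J)) = true} = I ∩ J := by
      ext i; simp
    rw [e2] at h3
    exact h3
  · exact le_inf (Subgroup.closure_mono (Set.image_mono Set.inter_subset_left))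
      (Subgroup.closure_mono (Set.image_mono Set.inter_subset_right))

/-- the generators are nontrivial -/
theorem of_ne_one (k s : ℕ) (hs : 3 ≤ s) (i : Fin 6) :
    (PresentedGroup.of i : PresentedGroup (rels k s)) ≠ 1 := by
  intro h
  have h1 := Fh_word k s [i] (red s (om i))
  have h2 := Fh_word k s [] (red s (om i))
  simp only [List.map_cons, List.map_nil, List.prod_cons, List.prod_nil, mul_one, h,
    List.foldr_cons, List.foldr_nil] at h1 h2
  rw [h2, ← red_fa] at h1
  have h3 : ∀ i : Fin 6, gcdV (fa i (om i)) (om i) = 1 ∨ gcdV (fa i (om i)) (om i) = 2 := by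
    decide
  exact gcd_red hs _ _ h1.symm (h3 i)

end Pool.Agent.Helper622.Six
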