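import Pool.Agent.Helper622.Six.LabF

set_option autoImplicit false

namespace Pool.Agent.Helper622.Six

/-- reversal of the generators -/
def rv (i : Fin 6) : Fin 6 := Fin.rev i

theorem mB_rv : ∀ i j : Fin 6, mB (rv i) (rv j) = mB i j := by decide

theorem w_rv (k : ℕ) : (wB1 k).map rv = wB2 k ∧ (wB2 k).map rv = wB1 k := by
  unfold wB1 wB2
  split_ifs <;> decide

theorem dualB (k s k' t : ℕ) (h : Infinite (PresentedGroup (relsB k' t k s))) :
    Infinite (PresentedGroup (relsB k s k' t)) := by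
  have hl : ∀ w : List (Fin 6),
      FreeGroup.lift (fun i => (PresentedGroup.of (rv i) : PresentedGroup (relsB k' t k s)))
        ((w.map FreeGroup.of).prod) =
      PresentedGroup.mk (relsB k' t k s) (((w.map rv).map FreeGroup.of).prod) := by
    intro w
    induction w with
    | nil => simp
    | cons i w ih =>
      rw [List.map_cons, List.prod_cons, map_mul, ih, FreeGroup.lift_apply_of, List.map_cons,
        List.map_cons, List.prod_cons, map_mul]
      rfl
  have hrel : ∀ w ∈ relsB k s k' t,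
      FreeGroup.lift (fun i => (PresentedGroup.of (rv i) : PresentedGroup (relsB k' t k s))) w = 1 := by
    rintro w (⟨i, j, rfl⟩ | rfl | rfl)
    · rw [map_pow, map_mul, FreeGroup.lift_apply_of, FreeGroup.lift_apply_of, ← mB_rv i j]
      have hm : (FreeGroup.of (rv i) * FreeGroup.of (rv j)) ^ (mB (rv i) (rv j)) ∈
          relsB k' t k s := Or.inl ⟨rv i, rv j, rfl⟩
      have := PresentedGroup.one_of_mem hm
      rw [map_pow, map_mul] at this
      exact this
    · rw [map_pow, hl, (w_rv k).1]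
      have hm : (((wB2 k).map FreeGroup.of).prod) ^ (k * s) ∈ relsB k' t k s :=
        Or.inr (Or.inr rfl)
      have := PresentedGroup.one_of_mem hm
      rw [map_pow] at this
      exact this
    · rw [map_pow, hl, (w_rv k').2]
      have hm : (((wB1 k').map FreeGroup.of).prod) ^ (k' * t) ∈ relsB k' t k s :=
        Or.inr (Or.inl rfl)
      have := PresentedGroup.one_of_mem hm
      rw [map_pow] at this
      exact this
  have hsurj : Function.Surjective (PresentedGroup.toGroup hrel) := by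
    rw [← MonoidHom.range_eq_top, eq_top_iff, ← PresentedGroup.closure_range_of,
      Subgroup.closure_le]
    rintro _ ⟨i, rfl⟩
    refine ⟨PresentedGroup.of (rv i), ?_⟩
    rw [PresentedGroup.toGroup.of]
    show PresentedGroup.of (rv (rv i)) = PresentedGroup.of i
    rw [show rv (rv i) = i from Fin.rev_rev i]
  exact Infinite.of_surjective _ hsurj

/-- Family (B), labels: both versions. -/
theorem infinite_B_all (k s k' t : ℕ) (hk : k = 1 ∨ k = 2) (hk' : k' = 1 ∨ k' = 2)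
    (hs : 2 ≤ s) (ht : 2 ≤ t)
    (h : (Even s ∧ 4 ≤ s ∧ 3 ≤ t ∧ (k' = 1 → Even t ∧ 6 ≤ t)) ∨
      (Even t ∧ 4 ≤ t ∧ 3 ≤ s ∧ (k = 1 → Even s ∧ 6 ≤ s))) :
    Infinite (PresentedGroup (relsB k s k' t)) := by
  have key : ∀ k s k' t : ℕ, (k = 1 ∨ k = 2) → (k' = 1 ∨ k' = 2) →
      (Even s ∧ 4 ≤ s ∧ 3 ≤ t ∧ (k' = 1 → Even t ∧ 6 ≤ t)) →
      Infinite (PresentedGroup (relsB k s k' t)) := by
    rintro k s k' t hk hk' ⟨⟨j, hj⟩, h4, h3, h1⟩
    by_cases hk1 : k' = 1
    · obtain ⟨⟨i, hi⟩, h6⟩ := h1 hk1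
      exact infinite_B_lab k s k' t i j hk hk' (by omega) (by omega) ⟨1, by omega⟩
        (by rw [if_pos hk1]; exact ⟨1, by omega⟩)
    · exact infinite_B_lab k s k' t t j hk hk' h3 (by omega) ⟨1, by omega⟩
        (by rw [if_neg hk1])
  rcases h with h | h
  · exact key k s k' t hk hk' h
  · exact dualB k s k' t (key k' t k s hk' hk h)

/-- Family (C), labels. -/
theorem infinite_C_all (k t l u : ℕ) (hk : k = 1 ∨ k = 2) (hl : l = 1 ∨ l = 2 ∨ l = 4)
    (ht : 2 ≤ t) (h1 : k = 1 → Even t ∧ 4 ≤ t) (hu : 3 ≤ u) (h2 : l ≠ 4 → Even u ∧ 6 ≤ u) :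
    Infinite (PresentedGroup (relsC k t l u)) := by
  have e1 : ∃ m', 2 ≤ m' ∧ (if k = 1 then 2 * m' else m') ∣ t := by
    by_cases hk1 : k = 1
    · obtain ⟨⟨j, hj⟩, h4⟩ := h1 hk1
      exact ⟨j, by omega, by rw [if_pos hk1]; exact ⟨1, by omega⟩⟩
    · exact ⟨t, ht, by rw [if_neg hk1]⟩
  have e2 : ∃ m, 3 ≤ m ∧ (if l = 4 then m else 2 * m) ∣ u := by
    by_cases hl4 : l = 4
    · exact ⟨u, hu, by rw [if_pos hl4]⟩
    · obtain ⟨⟨j, hj⟩, h6⟩ := h2 hl4
      exact ⟨j, by omega, by rw [if_neg hl4]; exact ⟨1, by omega⟩⟩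
  obtain ⟨m', h3, h4⟩ := e1
  obtain ⟨m, h5, h6⟩ := e2
  exact infinite_C_lab k t l u m m' hk hl h5 h3 h4 h6

end Pool.Agent.Helper622.Six
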