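import Pool.Agent.Helper622.Six.Grp
import Pool.Agent.Helper541.OTC.Final

set_option autoImplicit false

namespace Pool.Agent.Helper622.Six

theorem finite_23 : Finite (PresentedGroup (rels 2 3)) := by
  let r : Fin 6 → PresentedGroup (rels 2 3) := PresentedGroup.of
  have hrel : ∀ i j : Fin 6, (r i * r j) ^ (if i = j then (1 : ℕ) else
            if (i.val + 1 = j.val ∨ j.val + 1 = i.val) then
              (if min i.val j.val = 3 then (4 : ℕ) else 3)
            else 2) = 1 := by
    intro i j
    have hm : (FreeGroup.of i * FreeGroup.of j) ^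
          (if i = j then (1 : ℕ) else
            if (i.val + 1 = j.val ∨ j.val + 1 = i.val) then
              (if min i.val j.val = 3 then (4 : ℕ) else 3)
            else 2) ∈ rels 2 3 := Or.inl ⟨i, j, rfl⟩
    have := PresentedGroup.one_of_mem hm
    rw [map_pow, map_mul] at this
    exact this
  have hlast : (r 1 * (r 2 * r 3 * r 4 * r 3 * r 2) * (r 5 * r 4 * r 3 * r 4 * r 5)) ^ 6 = 1 := by
    have hm : (FreeGroup.of (1 : Fin 6) * (FreeGroup.of (2 : Fin 6) * FreeGroup.of (3 : Fin 6) *
    FreeGroup.of (4 : Fin 6) * FreeGroup.of (3 : Fin 6) * FreeGroup.of (2 : Fin 6)) *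
      (FreeGroup.of (5 : Fin 6) * FreeGroup.of (4 : Fin 6) *
    FreeGroup.of (3 : Fin 6) * FreeGroup.of (4 : Fin 6) * FreeGroup.of (5 : Fin 6))) ^ (2 * 3)
       ∈ rels 2 3 := by
      refine Or.inr ?_
      rw [Set.mem_singleton_iff, if_neg (by norm_num)]
    have := PresentedGroup.one_of_mem hm
    simp only [map_pow, map_mul] at this
    exact this
  have sq : ∀ i : Fin 6, r i * r i = 1 := fun i => by simpa using hrel i i
  have cm : ∀ i j : Fin 6, i ≠ j → ¬ (i.val + 1 = j.val ∨ j.val + 1 = i.val) →
      r i * r j = r j * r i := by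
    intro i j h1 h2
    have := hrel i j
    rw [if_neg h1, if_neg h2, pow_two] at this
    have e := eq_inv_of_mul_eq_one_left this
    rw [e, mul_inv_rev, inv_eq_of_mul_eq_one_left (sq i), inv_eq_of_mul_eq_one_left (sq j)]
  have br : ∀ i j : Fin 6, i ≠ j → (i.val + 1 = j.val ∨ j.val + 1 = i.val) →
      min i.val j.val ≠ 3 → r i * r j * r i = r j * r i * r j := by
    intro i j h1 h2 h3
    have := hrel i j
    rw [if_neg h1, if_pos h2, if_neg h3] at this
    have e0 : (r i * r j * r i) * (r j * r i * r j) = 1 := by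
      rw [← this]; simp only [pow_succ, pow_zero, one_mul, mul_assoc]
    have e := eq_inv_of_mul_eq_one_left e0
    rw [e]
    simp only [mul_inv_rev, inv_eq_of_mul_eq_one_left (sq i), inv_eq_of_mul_eq_one_left (sq j),
      mul_assoc]
  have br4 : r 3 * r 4 * r 3 * r 4 = r 4 * r 3 * r 4 * r 3 := by
    have := hrel 3 4
    have e1 : (if (3 : Fin 6) = 4 then (1 : ℕ) else
            if ((3 : Fin 6).val + 1 = (4 : Fin 6).val ∨ (4 : Fin 6).val + 1 = (3 : Fin 6).val) then
              (if min (3 : Fin 6).val (4 : Fin 6).val = 3 then (4 : ℕ) else 3)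
            else 2) = 4 := by decide
    rw [e1] at this
    have e0 : (r 3 * r 4 * r 3 * r 4) * (r 3 * r 4 * r 3 * r 4) = 1 := by
      rw [← this]; simp only [pow_succ, pow_zero, one_mul, mul_assoc]
    have e := eq_inv_of_mul_eq_one_left e0
    rw [e]
    simp only [mul_inv_rev, inv_eq_of_mul_eq_one_left (sq 3), inv_eq_of_mul_eq_one_left (sq 4),
      mul_assoc]
  have hgen : Subgroup.closure ({r 0, r 1, r 2, r 3, r 4, r 5} :
      Set (PresentedGroup (rels 2 3))) = ⊤ := by
    rw [eq_top_iff, ← PresentedGroup.closure_range_of, Subgroup.closure_le]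
    rintro _ ⟨i, rfl⟩
    apply Subgroup.subset_closure
    fin_cases i <;> simp [r]
  exact Pool.Agent.Helper541.OTC.finite_main (r 0) (r 1) (r 2) (r 3) (r 4) (r 5) (sq 0) (sq 1) (sq 2)
      (sq 3) (sq 4) (sq 5) (br 0 1 (by decide) (by decide) (by decide))
      (br 1 2 (by decide) (by decide) (by decide)) (br 2 3 (by decide) (by decide) (by decide))
      (br 4 5 (by decide) (by decide) (by decide)) br4
      (cm 0 2 (by decide) (by decide)) (cm 0 3 (by decide) (by decide))
      (cm 0 4 (by decide) (by decide)) (cm 0 5 (by decide) (by decide))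
      (cm 1 3 (by decide) (by decide)) (cm 1 4 (by decide) (by decide))
      (cm 1 5 (by decide) (by decide)) (cm 2 4 (by decide) (by decide))
      (cm 2 5 (by decide) (by decide)) (cm 3 5 (by decide) (by decide)) hlast hgen

end Pool.Agent.Helper622.Six
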