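import Mathlib

/-!
# Skew-product actions of the Coxeter group [3,3,3,4,3]

Integer vectors `V` (coordinates with respect to the simple roots), functionals `X s` with values in
`ZMod s`, an odd function `ψ`, and cocycles given by finite lists of vectors.
-/

set_option autoImplicit false

namespace Pool.Agent.Helper622.Six

/-- integer vectors in the basis of simple roots -/
@[ext] structure V where
  a : ℤ
  b : ℤ
  c : ℤ
  d : ℤ
  e : ℤ
  f : ℤ
deriving DecidableEq

namespace V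

instance : Neg V := ⟨fun v => ⟨-v.a, -v.b, -v.c, -v.d, -v.e, -v.f⟩⟩
instance : Add V := ⟨fun v w => ⟨v.a + w.a, v.b + w.b, v.c + w.c, v.d + w.d, v.e + w.e, v.f + w.f⟩⟩
/-- integer multiple -/
def sm (k : ℤ) (v : V) : V := ⟨k * v.a, k * v.b, k * v.c, k * v.d, k * v.e, k * v.f⟩

@[simp] theorem neg_a (v : V) : (-v).a = -v.a := rfl
@[simp] theorem neg_b (v : V) : (-v).b = -v.b := rfl
@[simp] theorem neg_c (v : V) : (-v).c = -v.c := rfl
@[simp] theorem neg_d (v : V) : (-v).d = -v.d := rfl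
@[simp] theorem neg_e (v : V) : (-v).e = -v.e := rfl
@[simp] theorem neg_f (v : V) : (-v).f = -v.f := rfl
@[simp] theorem add_a (v w : V) : (v + w).a = v.a + w.a := rfl
@[simp] theorem add_b (v w : V) : (v + w).b = v.b + w.b := rfl
@[simp] theorem add_c (v w : V) : (v + w).c = v.c + w.c := rfl
@[simp] theorem add_d (v w : V) : (v + w).d = v.d + w.d := rfl
@[simp] theorem add_e (v w : V) : (v + w).e = v.e + w.e := rfl
@[simp] theorem add_f (v w : V) : (v + w).f = v.f + w.f := rfl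
@[simp] theorem sm_a (k : ℤ) (v : V) : (sm k v).a = k * v.a := rfl
@[simp] theorem sm_b (k : ℤ) (v : V) : (sm k v).b = k * v.b := rfl
@[simp] theorem sm_c (k : ℤ) (v : V) : (sm k v).c = k * v.c := rfl
@[simp] theorem sm_d (k : ℤ) (v : V) : (sm k v).d = k * v.d := rfl
@[simp] theorem sm_e (k : ℤ) (v : V) : (sm k v).e = k * v.e := rfl
@[simp] theorem sm_f (k : ℤ) (v : V) : (sm k v).f = k * v.f := rfl

/-- simple reflections -/
def r : Fin 6 → V → V
  | 0, v => ⟨v.b - v.a, v.b, v.c, v.d, v.e, v.f⟩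
  | 1, v => ⟨v.a, v.a + v.c - v.b, v.c, v.d, v.e, v.f⟩
  | 2, v => ⟨v.a, v.b, v.b + v.d - v.c, v.d, v.e, v.f⟩
  | 3, v => ⟨v.a, v.b, v.c, v.c + 2 * v.e - v.d, v.e, v.f⟩
  | 4, v => ⟨v.a, v.b, v.c, v.d, v.d + v.f - v.e, v.f⟩
  | 5, v => ⟨v.a, v.b, v.c, v.d, v.e, v.e - v.f⟩

/-- the product of reflections `r i1 (r i2 (...))` -/
def mat (w : List (Fin 6)) (v : V) : V := w.foldr r v

end V

open V

/-- functionals on the root lattice with values in `ZMod s` -/
@[ext] structure X (s : ℕ) where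
  a : ZMod s
  b : ZMod s
  c : ZMod s
  d : ZMod s
  e : ZMod s
  f : ZMod s
deriving DecidableEq

namespace X

variable {s : ℕ}

/-- evaluation -/
def ev (x : X s) (v : V) : ZMod s :=
  (v.a : ZMod s) * x.a + (v.b : ZMod s) * x.b + (v.c : ZMod s) * x.c + (v.d : ZMod s) * x.d +
    (v.e : ZMod s) * x.e + (v.f : ZMod s) * x.f

/-- action of the generators -/
def act : Fin 6 → X s → X s
  | 0, x => ⟨-x.a, x.a + x.b, x.c, x.d, x.e, x.f⟩
  | 1, x => ⟨x.a + x.b, -x.b, x.b + x.c, x.d, x.e, x.f⟩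
  | 2, x => ⟨x.a, x.b + x.c, -x.c, x.c + x.d, x.e, x.f⟩
  | 3, x => ⟨x.a, x.b, x.c + x.d, -x.d, x.e + 2 * x.d, x.f⟩
  | 4, x => ⟨x.a, x.b, x.c, x.d + x.e, -x.e, x.e + x.f⟩
  | 5, x => ⟨x.a, x.b, x.c, x.d, x.e + x.f, -x.f⟩

theorem ev_act (i : Fin 6) (x : X s) (v : V) : ev (act i x) v = ev x (r i v) := by
  fin_cases i <;> simp only [ev, act, r] <;> push_cast <;> ring

theorem ev_neg (x : X s) (v : V) : ev x (-v) = - ev x v := by
  simp only [ev, neg_a, neg_b, neg_c, neg_d, neg_e, neg_f]; push_cast; ring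

theorem ev_add (x : X s) (v w : V) : ev x (v + w) = ev x v + ev x w := by
  simp only [ev, add_a, add_b, add_c, add_d, add_e, add_f]; push_cast; ring

theorem ev_sm (x : X s) (k : ℤ) (v : V) : ev x (sm k v) = (k : ZMod s) * ev x v := by
  simp only [ev, sm_a, sm_b, sm_c, sm_d, sm_e, sm_f]; push_cast; ring

/-- action of a word (first letter first) -/
def actw (w : List (Fin 6)) (x : X s) : X s := w.foldl (fun x i => act i x) x

theorem ev_actw (w : List (Fin 6)) (x : X s) (v : V) : ev (actw w x) v = ev x (mat w v) := by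
  induction w generalizing x with
  | nil => rfl
  | cons i w ih => simp only [actw, List.foldl_cons, mat, List.foldr_cons] at *
                   rw [ih (act i x), ev_act]

/-- basis vectors -/
def bas : Fin 6 → V
  | 0 => ⟨1, 0, 0, 0, 0, 0⟩
  | 1 => ⟨0, 1, 0, 0, 0, 0⟩
  | 2 => ⟨0, 0, 1, 0, 0, 0⟩
  | 3 => ⟨0, 0, 0, 1, 0, 0⟩
  | 4 => ⟨0, 0, 0, 0, 1, 0⟩
  | 5 => ⟨0, 0, 0, 0, 0, 1⟩

theorem ext_bas {x y : X s} (h : ∀ i, ev x (bas i) = ev y (bas i)) : x = y := by
  have h0 := h 0; have h1 := h 1; have h2 := h 2; have h3 := h 3; have h4 := h 4; have h5 := h 5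
  simp only [ev, bas, Int.cast_one, Int.cast_zero, one_mul, zero_mul, add_zero, zero_add] at h0 h1 h2 h3 h4 h5
  exact X.ext h0 h1 h2 h3 h4 h5

end X

open X

section sums

variable {α : Type} [DecidableEq α] [Neg α]

/-- signed sums -/
def S (φ : α → ℤ) (l : List (ℤ × α)) : ℤ := (l.map (fun p => p.1 * φ p.2)).sum

@[simp] theorem S_nil (φ : α → ℤ) : S φ [] = 0 := rfl
@[simp] theorem S_cons (φ : α → ℤ) (p : ℤ × α) (l : List (ℤ × α)) :
    S φ (p :: l) = p.1 * φ p.2 + S φ l := by simp [S]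
theorem S_append (φ : α → ℤ) (l m : List (ℤ × α)) : S φ (l ++ m) = S φ l + S φ m := by
  simp [S]

/-- insertion of a term in a list of terms -/
def ins (e : ℤ) (u : α) : List (ℤ × α) → List (ℤ × α)
  | [] => [(e, u)]
  | p :: l => if u = p.2 then (p.1 + e, p.2) :: l
      else if u = -p.2 then (p.1 - e, p.2) :: l else p :: ins e u l

/-- normal form of a formal odd sum -/
def norm : List (ℤ × α) → List (ℤ × α)
  | [] => []
  | p :: l => ins p.1 p.2 (norm l)

theorem S_ins (φ : α → ℤ) (hφ : ∀ u, φ (-u) = -φ u) (e : ℤ) (u : α) (l : List (ℤ × α)) :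
    S φ (ins e u l) = e * φ u + S φ l := by
  induction l with
  | nil => simp [ins]
  | cons p l ih =>
    unfold ins
    split_ifs with h1 h2
    · rw [S_cons, S_cons, h1]; ring
    · rw [S_cons, S_cons, h2, hφ]; ring
    · rw [S_cons, S_cons, ih]; ring

theorem S_norm (φ : α → ℤ) (hφ : ∀ u, φ (-u) = -φ u) (l : List (ℤ × α)) :
    S φ (norm l) = S φ l := by
  induction l with
  | nil => rfl
  | cons p l ih => rw [norm, S_ins φ hφ, ih, S_cons]

/-- all coefficients vanish -/
def allZero (l : List (ℤ × α)) : Bool := l.all (fun p => p.1 == 0)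

theorem S_of_allZero (φ : α → ℤ) (l : List (ℤ × α)) (h : allZero l = true) : S φ l = 0 := by
  induction l with
  | nil => rfl
  | cons p l ih =>
    simp only [allZero, List.all_cons, Bool.and_eq_true, beq_iff_eq] at h
    rw [S_cons, h.1, ih h.2]; ring

theorem S_zero (φ : α → ℤ) (hφ : ∀ u, φ (-u) = -φ u) (l : List (ℤ × α))
    (h : allZero (norm l) = true) : S φ l = 0 := by
  rw [← S_norm φ hφ, S_of_allZero φ _ h]

/-- negated list -/
def ngl (l : List (ℤ × α)) : List (ℤ × α) := l.map (fun p => (-p.1, p.2))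

theorem S_ngl (φ : α → ℤ) (l : List (ℤ × α)) : S φ (ngl l) = - S φ l := by
  induction l with
  | nil => rfl
  | cons p l ih => simp only [ngl, List.map_cons, S_cons] at *; rw [ih]; ring

theorem S_eq (φ : α → ℤ) (hφ : ∀ u, φ (-u) = -φ u) (l m : List (ℤ × α))
    (h : allZero (norm (l ++ ngl m)) = true) : S φ l = S φ m := by
  have := S_zero φ hφ _ h
  rw [S_append, S_ngl] at this
  linarith

end sums

/-- list transported by a map of vectors -/
def mp (g : V → V) (l : List (ℤ × V)) : List (ℤ × V) := l.map (fun p => (p.1, g p.2))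

theorem S_mp (φ : V → ℤ) (g : V → V) (l : List (ℤ × V)) : S φ (mp g l) = S (fun u => φ (g u)) l := by
  simp [S, mp, Function.comp_def]

/-- terms of a word for cocycle data `C` -/
def terms (C : Fin 6 → List (ℤ × V)) : List (Fin 6) → List (ℤ × V)
  | [] => []
  | i :: w => C i ++ mp (r i) (terms C w)

variable {s : ℕ}

/-- the odd function on vectors given by `ψ` and a functional -/
def ph (ψ : ZMod s → ℤ) (x : X s) (u : V) : ℤ := ψ (ev x u)

theorem ph_odd (ψ : ZMod s → ℤ) (hψ : ∀ z, ψ (-z) = -ψ z) (x : X s) (u : V) :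
    ph ψ x (-u) = - ph ψ x u := by
  unfold ph; rw [ev_neg, hψ]

theorem ph_act (ψ : ZMod s → ℤ) (i : Fin 6) (x : X s) : ph ψ (act i x) = fun u => ph ψ x (r i u) := by
  funext u; unfold ph; rw [ev_act]

theorem ph_actw (ψ : ZMod s → ℤ) (w : List (Fin 6)) (x : X s) :
    ph ψ (actw w x) = fun u => ph ψ x (mat w u) := by
  funext u; unfold ph; rw [ev_actw]

/-- one step of the skew product -/
def G (C : Fin 6 → List (ℤ × V)) (ψ : ZMod s → ℤ) (i : Fin 6) (p : X s × ℤ) : X s × ℤ :=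
  (act i p.1, p.2 + S (ph ψ p.1) (C i))

/-- run a word, first letter first -/
def run (C : Fin 6 → List (ℤ × V)) (ψ : ZMod s → ℤ) (w : List (Fin 6)) (p : X s × ℤ) : X s × ℤ :=
  w.foldl (fun p i => G C ψ i p) p

theorem run_eq (C : Fin 6 → List (ℤ × V)) (ψ : ZMod s → ℤ) (w : List (Fin 6)) (x : X s) (n : ℤ) :
    run C ψ w (x, n) = (actw w x, n + S (ph ψ x) (terms C w)) := by
  induction w generalizing x n with
  | nil => simp [run, actw, terms]
  | cons i w ih =>
    have : run C ψ (i :: w) (x, n) = run C ψ w (act i x, n + S (ph ψ x) (C i)) := rfl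
    rw [this, ih]
    have h2 : actw (i :: w) x = actw w (act i x) := rfl
    rw [h2, terms, S_append, S_mp, ph_act]
    congr 1; ring

theorem run_append (C : Fin 6 → List (ℤ × V)) (ψ : ZMod s → ℤ) (w w' : List (Fin 6)) (p : X s × ℤ) :
    run C ψ (w ++ w') p = run C ψ w' (run C ψ w p) := by
  simp [run, List.foldl_append]

/-- a word whose matrix is the identity and whose formal sum vanishes acts trivially -/
theorem run_trivial (C : Fin 6 → List (ℤ × V)) (ψ : ZMod s → ℤ) (hψ : ∀ z, ψ (-z) = -ψ z)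
    (w : List (Fin 6)) (h1 : ∀ i, mat w (bas i) = bas i) (h2 : allZero (norm (terms C w)) = true)
    (p : X s × ℤ) : run C ψ w p = p := by
  obtain ⟨x, n⟩ := p
  rw [run_eq, S_zero _ (ph_odd ψ hψ x) _ h2]
  have : actw w x = x := ext_bas (fun i => by rw [ev_actw, h1])
  rw [this, add_zero]

end Pool.Agent.Helper622.Six
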