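import Pool.Agent.Helper622.Six.Frame

/-!
# The presented groups and the infiniteness criterion
-/

set_option autoImplicit false

namespace Pool.Agent.Helper622.Six

open V X

/-- The relators: Coxeter relations of type {3,3,3,4,3} and the extra relator. -/
def rels (k s : ℕ) : Set (FreeGroup (Fin 6)) :=
  {w | ∃ i j : Fin 6, w = (FreeGroup.of i * FreeGroup.of j) ^
        (if i = j then (1 : ℕ) else
          if (i.val + 1 = j.val ∨ j.val + 1 = i.val) then
            (if min i.val j.val = 3 then (4 : ℕ) else 3)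
          else 2)} ∪
  {if k = 1 then
      (FreeGroup.of (1 : Fin 6) *
        (FreeGroup.of (2 : Fin 6) * FreeGroup.of (3 : Fin 6) * FreeGroup.of (4 : Fin 6) *
          FreeGroup.of (3 : Fin 6) * FreeGroup.of (2 : Fin 6)) *
        (FreeGroup.of (5 : Fin 6) * FreeGroup.of (4 : Fin 6) * FreeGroup.of (3 : Fin 6) *
          FreeGroup.of (4 : Fin 6) * FreeGroup.of (5 : Fin 6)) *
        (FreeGroup.of (2 : Fin 6) * FreeGroup.of (3 : Fin 6) * FreeGroup.of (4 : Fin 6) *
          FreeGroup.of (3 : Fin 6) * FreeGroup.of (2 : Fin 6))) ^ s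
    else
      (FreeGroup.of (1 : Fin 6) *
        (FreeGroup.of (2 : Fin 6) * FreeGroup.of (3 : Fin 6) * FreeGroup.of (4 : Fin 6) *
          FreeGroup.of (3 : Fin 6) * FreeGroup.of (2 : Fin 6)) *
        (FreeGroup.of (5 : Fin 6) * FreeGroup.of (4 : Fin 6) * FreeGroup.of (3 : Fin 6) *
          FreeGroup.of (4 : Fin 6) * FreeGroup.of (5 : Fin 6))) ^ (2 * s)}

/-- repeated word -/
def rep (n : ℕ) (w : List (Fin 6)) : List (Fin 6) := (List.replicate n w).flatten

theorem rep_zero (w : List (Fin 6)) : rep 0 w = [] := rfl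
theorem rep_succ (n : ℕ) (w : List (Fin 6)) : rep (n + 1) w = w ++ rep n w := by
  simp [rep, List.replicate_succ]
theorem rep_add (m n : ℕ) (w : List (Fin 6)) : rep (m + n) w = rep m w ++ rep n w := by
  unfold rep; rw [List.replicate_add, List.flatten_append]
theorem rep_succ' (n : ℕ) (w : List (Fin 6)) : rep (n + 1) w = rep n w ++ w := by
  rw [rep_add]; simp [rep]
theorem rep_reverse (n : ℕ) (w : List (Fin 6)) : (rep n w).reverse = rep n w.reverse := by
  induction n with
  | zero => rfl
  | succ n ih => rw [rep_succ, List.reverse_append, ih, ← rep_succ']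

/-- the extra relator as a word -/
def tw (k : ℕ) : List (Fin 6) :=
  if k = 1 then [1, 2, 3, 4, 3, 2, 5, 4, 3, 4, 5, 2, 3, 4, 3, 2]
  else [1, 2, 3, 4, 3, 2, 5, 4, 3, 4, 5]

/-- its exponent -/
def ex (k s : ℕ) : ℕ := if k = 1 then s else 2 * s

/-- Coxeter exponents -/
def cm (i j : Fin 6) : ℕ :=
  if i = j then (1 : ℕ) else
    if (i.val + 1 = j.val ∨ j.val + 1 = i.val) then
      (if min i.val j.val = 3 then (4 : ℕ) else 3)
    else 2

/-- check of the Coxeter relations -/
def coxCheck (C : Fin 6 → List (ℤ × V)) : Bool :=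
  decide (∀ i j : Fin 6, (∀ k : Fin 6, mat (rep (cm i j) [j, i]) (bas k) = bas k) ∧
    allZero (norm (terms C (rep (cm i j) [j, i]))) = true)

section

variable {s : ℕ} (C : Fin 6 → List (ℤ × V)) (ψ : ZMod s → ℤ) (hψ : ∀ z, ψ (-z) = -ψ z)
  (Pd : X s → Prop) (hPd : ∀ i x, Pd x → Pd (act i x)) (hc : coxCheck C = true)

theorem run_cox (hψ : ∀ z, ψ (-z) = -ψ z) (hc : coxCheck C = true) (i j : Fin 6) (p : X s × ℤ) :
    run C ψ (rep (cm i j) [j, i]) p = p := by
  have := (of_decide_eq_true hc) i j
  exact run_trivial C ψ hψ _ this.1 this.2 p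

/-- generator permutations -/
def Pm (i : Fin 6) : Equiv.Perm {p : X s × ℤ // Pd p.1} :=
  Function.Involutive.toPerm (fun p => ⟨G C ψ i p.1, hPd i _ p.2⟩) (by
    intro p
    apply Subtype.ext
    have := run_cox C ψ hψ hc i i p.1
    simpa [run, rep, cm] using this)

theorem Pm_apply (i : Fin 6) (p : {p : X s × ℤ // Pd p.1}) :
    (Pm C ψ hψ Pd hPd hc i p).1 = G C ψ i p.1 := rfl

theorem prod_apply (w : List (Fin 6)) (p : {p : X s × ℤ // Pd p.1}) :
    ((w.map (Pm C ψ hψ Pd hPd hc)).prod p).1 = run C ψ w.reverse p.1 := by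
  induction w with
  | nil => rfl
  | cons i w ih =>
    rw [List.map_cons, List.prod_cons, Equiv.Perm.mul_apply, Pm_apply, ih, List.reverse_cons,
      run_append]
    rfl

theorem prod_rep {M : Type*} [Monoid M] (f : Fin 6 → M) (n : ℕ) (w : List (Fin 6)) :
    ((rep n w).map f).prod = ((w.map f).prod) ^ n := by
  induction n with
  | zero => simp [rep]
  | succ n ih => rw [rep_succ, List.map_append, List.prod_append, ih, pow_succ']

theorem prod_rep_eq_one (w : List (Fin 6)) (n : ℕ)
    (h : ∀ p : X s × ℤ, Pd p.1 → run C ψ (rep n w.reverse) p = p) :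
    ((w.map (Pm C ψ hψ Pd hPd hc)).prod) ^ n = 1 := by
  rw [← prod_rep]
  apply Equiv.ext
  intro p
  apply Subtype.ext
  rw [prod_apply, rep_reverse, h _ p.2]
  rfl

theorem lift_rel (k t : ℕ)
    (ht : ∀ p : X s × ℤ, Pd p.1 → run C ψ (rep (ex k t) (tw k).reverse) p = p) :
    ∀ w ∈ rels k t, FreeGroup.lift (Pm C ψ hψ Pd hPd hc) w = 1 := by
  rintro w (⟨i, j, rfl⟩ | hw)
  · have h : ((([i, j] : List (Fin 6)).map (Pm C ψ hψ Pd hPd hc)).prod) ^ (cm i j) = 1 :=
      prod_rep_eq_one C ψ hψ Pd hPd hc [i, j] (cm i j)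
        (fun p _ => by simpa using run_cox C ψ hψ hc i j p)
    rw [map_pow, map_mul, FreeGroup.lift_apply_of, FreeGroup.lift_apply_of]
    simpa [cm] using h
  · have h := prod_rep_eq_one C ψ hψ Pd hPd hc (tw k) (ex k t) ht
    rw [Set.mem_singleton_iff] at hw
    rw [hw]
    by_cases hk : k = 1
    · rw [if_pos hk]
      simp only [tw, ex, if_pos hk, List.map_cons, List.map_nil, List.prod_cons, List.prod_nil,
        mul_one] at h
      simp only [map_pow, map_mul, FreeGroup.lift_apply_of]
      simpa only [mul_assoc] using h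
    · rw [if_neg hk]
      simp only [tw, ex, if_neg hk, List.map_cons, List.map_nil, List.prod_cons, List.prod_nil,
        mul_one] at h
      simp only [map_pow, map_mul, FreeGroup.lift_apply_of]
      simpa only [mul_assoc] using h

include hψ hPd hc in
theorem infinite_of (k t : ℕ)
    (ht : ∀ p : X s × ℤ, Pd p.1 → run C ψ (rep (ex k t) (tw k).reverse) p = p)
    (w : List (Fin 6)) (x : X s) (hx : Pd x) (hfix : actw w x = x)
    (hd : S (ph ψ x) (terms C w) ≠ 0) : Infinite (PresentedGroup (rels k t)) := by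
  set F : PresentedGroup (rels k t) →* Equiv.Perm {p : X s × ℤ // Pd p.1} :=
    PresentedGroup.toGroup (lift_rel C ψ hψ Pd hPd hc k t ht) with hF
  set g : PresentedGroup (rels k t) := ((w.reverse).map PresentedGroup.of).prod with hg
  have hFg : F g = ((w.reverse).map (Pm C ψ hψ Pd hPd hc)).prod := by
    rw [hg, map_list_prod, List.map_map]
    congr 1
  set d := S (ph ψ x) (terms C w) with hdd
  have key : ∀ n : ℕ, ∀ m : ℤ, (((F g) ^ n) ⟨(x, m), hx⟩).1 = (x, m + n * d) := by
    intro n
    induction n with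
    | zero => intro m; simp
    | succ n ih =>
      intro m
      rw [pow_succ, Equiv.Perm.mul_apply]
      have h1 : (F g) ⟨(x, m), hx⟩ = ⟨(x, m + d), hx⟩ := by
        apply Subtype.ext
        rw [hFg, prod_apply, List.reverse_reverse, run_eq, hfix]
      rw [h1, ih]
      push_cast
      congr 1
      ring
  refine Infinite.of_injective (fun n : ℕ => g ^ n) ?_
  intro a b hab
  have hab' : (F g) ^ a = (F g) ^ b := by
    have := congrArg F hab
    simpa using this
  have h1 := key a 0
  have h2 := key b 0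
  rw [hab', h2] at h1
  have h3 := congrArg Prod.snd h1
  simp only [zero_add] at h3
  have h4 : ((b : ℤ) - a) * d = 0 := by linarith
  rcases mul_eq_zero.mp h4 with h5 | h5
  · have : (a : ℤ) = b := by linarith
    exact_mod_cast this
  · exact absurd h5 hd

end

end Pool.Agent.Helper622.Six
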