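import Pool.Agent.Helper622.Six.BC

/-!
# Representations with labels for families (B), (C)
-/

set_option autoImplicit false

namespace Pool.Agent.Helper622.Six

/-- generic homomorphism, two extra relators -/
theorem exists_hom2 (mm : Fin 6 → Fin 6 → ℕ) (hmm : ∀ i, mm i i = 1) (w1 w2 : List (Fin 6))
    (n1 n2 : ℕ) {A : Type} (f : Fin 6 → A → A)
    (h0 : ∀ i j : Fin 6, ∀ a, (rep (mm i j) [i, j]).foldr f a = a)
    (h1 : ∀ a, (rep n1 w1).foldr f a = a) (h2 : ∀ a, (rep n2 w2).foldr f a = a) :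
    ∃ F : PresentedGroup ({w : FreeGroup (Fin 6) | ∃ i j : Fin 6,
        w = (FreeGroup.of i * FreeGroup.of j) ^ (mm i j)} ∪
        {((w1.map FreeGroup.of).prod) ^ n1, ((w2.map FreeGroup.of).prod) ^ n2}) →* Equiv.Perm A,
      ∀ (l : List (Fin 6)) (a : A), F ((l.map PresentedGroup.of).prod) a = l.foldr f a := by
  have hinv : ∀ i, Function.Involutive (f i) := fun i a => by
    have := h0 i i a
    simpa [rep, hmm] using this
  let P : Fin 6 → Equiv.Perm A := fun i => Function.Involutive.toPerm (f i) (hinv i)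
  have hP : ∀ (l : List (Fin 6)) (a : A), ((l.map P).prod) a = l.foldr f a := by
    intro l
    induction l with
    | nil => intro a; rfl
    | cons i l ih =>
      intro a
      rw [List.map_cons, List.prod_cons, Equiv.Perm.mul_apply, ih]
      rfl
  have hw : ∀ (w : List (Fin 6)) (n : ℕ), (∀ a, (rep n w).foldr f a = a) →
      ((w.map P).prod) ^ n = 1 := by
    intro w n h
    rw [← prod_rep]
    apply Equiv.ext
    intro a
    rw [hP, h]; rfl
  have hlift : ∀ w : List (Fin 6), FreeGroup.lift P ((w.map FreeGroup.of).prod) = (w.map P).prod := by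
    intro w
    induction w with
    | nil => simp
    | cons i w ih =>
      rw [List.map_cons, List.prod_cons, map_mul, ih, FreeGroup.lift_apply_of, List.map_cons,
        List.prod_cons]
  have hrel : ∀ w ∈ ({w : FreeGroup (Fin 6) | ∃ i j : Fin 6,
        w = (FreeGroup.of i * FreeGroup.of j) ^ (mm i j)} ∪
        {((w1.map FreeGroup.of).prod) ^ n1, ((w2.map FreeGroup.of).prod) ^ n2}),
      FreeGroup.lift P w = 1 := by
    rintro w (⟨i, j, rfl⟩ | rfl | rfl)
    · have h := hw [i, j] (mm i j) (h0 i j)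
      rw [map_pow, map_mul, FreeGroup.lift_apply_of, FreeGroup.lift_apply_of]
      simpa using h
    · rw [map_pow, hlift]; exact hw _ _ h1
    · rw [map_pow, hlift]; exact hw _ _ h2
  refine ⟨PresentedGroup.toGroup hrel, fun l a => ?_⟩
  rw [map_list_prod, List.map_map, ← hP]
  congr 2

/-- formal sums with monomials in two parameters -/
abbrev FS := List (ℤ × ℕ × ℕ × K)

section

variable (c c' : ℂ)

/-- evaluation -/
noncomputable def SL (φ : K → ℂ) (l : FS) : ℂ :=
  (l.map (fun t => (t.1 : ℂ) * (c ^ t.2.1 * c' ^ t.2.2.1) * φ t.2.2.2)).sum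

theorem SL_nil (φ : K → ℂ) : SL c c' φ [] = 0 := rfl
theorem SL_cons (φ : K → ℂ) (t : ℤ × ℕ × ℕ × K) (l : FS) :
    SL c c' φ (t :: l) = (t.1 : ℂ) * (c ^ t.2.1 * c' ^ t.2.2.1) * φ t.2.2.2 + SL c c' φ l := by
  simp [SL]

/-- insertion -/
def insL (e : ℤ) (p q : ℕ) (u : K) : FS → FS
  | [] => [(e, p, q, u)]
  | t :: l => if (p == t.2.1) && ((q == t.2.2.1) && keq u t.2.2.2) then
      (if t.1 + e == 0 then l else (t.1 + e, p, q, u) :: l)
      else t :: insL e p q u l

theorem SL_insL (φ : K → ℂ) (e : ℤ) (p q : ℕ) (u : K) (l : FS) :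
    SL c c' φ (insL e p q u l) = (e : ℂ) * (c ^ p * c' ^ q) * φ u + SL c c' φ l := by
  induction l with
  | nil => simp [insL, SL]
  | cons t l ih =>
    unfold insL
    split_ifs with h1 h2
    · simp only [Bool.and_eq_true, beq_iff_eq] at h1 h2
      obtain ⟨ha, hb, hc⟩ := h1
      have h4 := keq_eq _ _ hc
      rw [SL_cons, h4, ha, hb]
      have : (e : ℂ) = -(t.1 : ℂ) := by
        have : e = -t.1 := by linarith
        rw [this]; push_cast; ring
      rw [this]; ring
    · simp only [Bool.and_eq_true, beq_iff_eq] at h1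
      obtain ⟨ha, hb, hc⟩ := h1
      have h4 := keq_eq _ _ hc
      rw [SL_cons, SL_cons, h4, ha, hb]; push_cast; ring
    · rw [SL_cons, SL_cons, ih]; ring

/-- add a multiple of a formal sum -/
def addL (e : ℤ) (p q : ℕ) : FS → FS → FS
  | [], acc => acc
  | t :: m, acc => insL (e * t.1) (p + t.2.1) (q + t.2.2.1) t.2.2.2 (addL e p q m acc)

theorem SL_addL (φ : K → ℂ) (e : ℤ) (p q : ℕ) (m acc : FS) :
    SL c c' φ (addL e p q m acc) = (e : ℂ) * (c ^ p * c' ^ q) * SL c c' φ m + SL c c' φ acc := by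
  induction m with
  | nil => simp [addL, SL_nil]
  | cons t m ih => rw [addL, SL_insL, ih, SL_cons]; push_cast; ring

/-- apply a matrix to a formal sum -/
def apL (g : K → FS) : FS → FS
  | [] => []
  | t :: l => addL t.1 t.2.1 t.2.2.1 (g t.2.2.2) (apL g l)

/-- action on functionals -/
noncomputable def actL (g : Fin 6 → K → FS) (i : Fin 6) (φ : K → ℂ) : K → ℂ :=
  fun x => SL c c' φ (g i x)

theorem SL_apL (g : Fin 6 → K → FS) (φ : K → ℂ) (i : Fin 6) (l : FS) :
    SL c c' φ (apL (g i) l) = SL c c' (actL c c' g i φ) l := by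
  induction l with
  | nil => rfl
  | cons t l ih => rw [apL, SL_addL, ih, SL_cons]; rfl

/-- fold of a word -/
def fo (g : Fin 6 → K → FS) (w : List (Fin 6)) (l : FS) : FS := w.foldl (fun m i => apL (g i) m) l

theorem SL_fo (g : Fin 6 → K → FS) (φ : K → ℂ) (w : List (Fin 6)) (l : FS) :
    SL c c' (w.foldr (actL c c' g) φ) l = SL c c' φ (fo g w l) := by
  induction w generalizing l with
  | nil => rfl
  | cons i w ih =>
    unfold fo at *
    rw [List.foldr_cons, List.foldl_cons, ← ih, SL_apL]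

/-- basis vector -/
def sg (x : K) : FS := [(1, 0, 0, x)]

theorem SL_sg (φ : K → ℂ) (x : K) : SL c c' φ (sg x) = φ x := by
  simp [sg, SL]

/-- test that a word acts trivially on a basis vector -/
def trivL (g : Fin 6 → K → FS) (w : List (Fin 6)) (x : K) : Bool :=
  (addL (-1) 0 0 (sg x) (fo g w (sg x))).isEmpty

theorem trivL_foldr (g : Fin 6 → K → FS) (w : List (Fin 6))
    (h : ∀ x, trivL g w x = true) (φ : K → ℂ) : w.foldr (actL c c' g) φ = φ := by
  funext x
  have h1 := h x
  unfold trivL at h1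
  rw [List.isEmpty_iff] at h1
  have h2 := SL_addL c c' φ (-1) 0 0 (sg x) (fo g w (sg x))
  rw [h1, SL_nil, ← SL_fo, SL_sg, SL_sg] at h2
  push_cast at h2
  simp only [pow_zero, mul_one] at h2
  linear_combination -h2

/-- the polynomial `z^3 - (c^2-1) z^2 + (c^2-1) z - 1` of a word, on a basis vector; `b = true` for
the parameter `c`, `b = false` for `c'` -/
def polP (g : Fin 6 → K → FS) (b : Bool) (w : List (Fin 6)) (x : K) : FS :=
  let e1 := fo g w (sg x)
  let e2 := fo g w e1
  let e3 := fo g w e2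
  let p := if b then 2 else 0
  let q := if b then 0 else 2
  addL 1 0 0 e3 (addL (-1) p q e2 (addL 1 0 0 e2 (addL 1 p q e1 (addL (-1) 0 0 e1
    (addL (-1) 0 0 (sg x) [])))))

theorem polP_spec (g : Fin 6 → K → FS) (b : Bool) (w : List (Fin 6)) (x : K)
    (h : (polP g b w x).isEmpty = true) (φ : K → ℂ) :
    let E : (K → ℂ) → (K → ℂ) := fun φ => w.foldr (actL c c' g) φ
    let r : ℂ := (if b then c ^ 2 else c' ^ 2) - 1
    E (E (E φ)) x - r * E (E φ) x + r * E φ x - φ x = 0 := by
  intro E r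
  rw [List.isEmpty_iff] at h
  have h1 : SL c c' φ (polP g b w x) = 0 := by rw [h]; rfl
  unfold polP at h1
  simp only [SL_addL] at h1
  have e1 : ∀ l, SL c c' φ (fo g w l) = SL c c' (E φ) l := fun l => (SL_fo c c' g φ w l).symm
  have e2 : ∀ l, SL c c' (E φ) (fo g w l) = SL c c' (E (E φ)) l :=
    fun l => (SL_fo c c' g (E φ) w l).symm
  have e3 : ∀ l, SL c c' (E (E φ)) (fo g w l) = SL c c' (E (E (E φ))) l :=
    fun l => (SL_fo c c' g (E (E φ)) w l).symm
  rw [e1, e2, e3, e1, e2, e1, SL_sg, SL_sg, SL_sg, SL_sg, SL_nil] at h1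
  cases b
  · simp only [Bool.false_eq_true, if_false, pow_zero, one_mul, mul_one] at h1 ⊢
    push_cast at h1
    show E (E (E φ)) x - ((if false = true then c ^ 2 else c' ^ 2) - 1) * E (E φ) x +
      ((if false = true then c ^ 2 else c' ^ 2) - 1) * E φ x - φ x = 0
    simp only [Bool.false_eq_true, if_false]
    linear_combination h1
  · simp only [if_true, pow_zero, one_mul, mul_one] at h1 ⊢
    push_cast at h1
    show E (E (E φ)) x - ((if true = true then c ^ 2 else c' ^ 2) - 1) * E (E φ) x +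
      ((if true = true then c ^ 2 else c' ^ 2) - 1) * E φ x - φ x = 0
    simp only [if_true]
    linear_combination h1

end

end Pool.Agent.Helper622.Six
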