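import Pool.Agent.Helper622.Six.Lab

set_option autoImplicit false

namespace Pool.Agent.Helper622.Six

/-- recurrence with roots 1, ζ, ζ⁻¹ -/
theorem rec_period (m : ℕ) (ζ : ℂ) (hζ : ζ ^ m = 1) (h0 : ζ ≠ 0) (h1 : ζ ≠ 1) (h2 : ζ ^ 2 ≠ 1)
    (a : ℕ → ℂ)
    (h : ∀ n, a (n + 3) - (ζ + ζ⁻¹ + 1) * a (n + 2) + (ζ + ζ⁻¹ + 1) * a (n + 1) - a n = 0) :
    a m = a 0 := by
  set s : ℂ := ζ + ζ⁻¹ with hs
  have hi : ζ * ζ⁻¹ = 1 := mul_inv_cancel₀ h0
  set D : ℂ := a 2 - s * a 1 + a 0 with hD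
  have hd : ∀ n, a (n + 2) - s * a (n + 1) + a n = D := by
    intro n
    induction n with
    | zero => rfl
    | succ n ih =>
      have := h n
      rw [← ih]
      have e : a (n + 1 + 2) = a (n + 3) := rfl
      have e' : a (n + 1 + 1) = a (n + 2) := rfl
      rw [e, e']
      linear_combination this
  have hs2 : (2 : ℂ) - s ≠ 0 := by
    intro h3
    have h4 : (ζ - 1) ^ 2 = 0 := by
      have : (ζ - 1) ^ 2 = -(ζ * (2 - s)) + (ζ * ζ⁻¹ - 1) * (-1) := by rw [hs]; ring
      rw [this, h3, hi]; ring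
    exact h1 (by
      have := pow_eq_zero_iff (two_ne_zero) |>.mp h4
      linear_combination this)
  set k : ℂ := D / (2 - s) with hk
  have hk2 : (2 - s) * k = D := by rw [hk]; field_simp
  set u : ℕ → ℂ := fun n => a n - k with hu
  have hu2 : ∀ n, u (n + 2) - s * u (n + 1) + u n = 0 := by
    intro n
    have := hd n
    simp only [hu]
    linear_combination this - hk2
  have hv : ∀ n, u (n + 1) - ζ * u n = (ζ⁻¹) ^ n * (u 1 - ζ * u 0) := by
    intro n
    induction n with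
    | zero => simp
    | succ n ih =>
      have h3 := hu2 n
      have e : u (n + 1 + 1) = u (n + 2) := rfl
      rw [e, pow_succ, mul_assoc, mul_comm (ζ⁻¹) (u 1 - ζ * u 0), ← mul_assoc, ← ih]
      rw [hs] at h3
      linear_combination h3 + (u n) * hi
  have hw : ∀ n, u (n + 1) - ζ⁻¹ * u n = ζ ^ n * (u 1 - ζ⁻¹ * u 0) := by
    intro n
    induction n with
    | zero => simp
    | succ n ih =>
      have h3 := hu2 n
      have e : u (n + 1 + 1) = u (n + 2) := rfl
      rw [e, pow_succ, mul_assoc, mul_comm ζ (u 1 - ζ⁻¹ * u 0), ← mul_assoc, ← ih]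
      rw [hs] at h3
      linear_combination h3 + (u n) * hi
  have hvm := hv m
  have hwm := hw m
  rw [inv_pow, hζ, inv_one, one_mul] at hvm
  rw [hζ, one_mul] at hwm
  have h5 : (ζ - ζ⁻¹) * (u m - u 0) = 0 := by linear_combination hwm - hvm
  have h6 : ζ - ζ⁻¹ ≠ 0 := by
    intro h7
    apply h2
    have : ζ ^ 2 - 1 = ζ * (ζ - ζ⁻¹) + (ζ * ζ⁻¹ - 1) := by ring
    rw [h7, hi] at this
    linear_combination this
  have h8 := (mul_eq_zero.mp h5).resolve_left h6
  simp only [hu] at h8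
  linear_combination h8

theorem zfacts (m : ℕ) (hm : 3 ≤ m) : ∃ ζ : ℂ, ζ ^ m = 1 ∧ ζ ≠ 0 ∧ ζ ≠ 1 ∧ ζ ^ 2 ≠ 1 ∧
    ((2 * Real.cos (Real.pi / m) : ℝ) : ℂ) ^ 2 - 1 = ζ + ζ⁻¹ + 1 := by
  have hm0 : (m : ℂ) ≠ 0 := by
    have : m ≠ 0 := by omega
    exact_mod_cast this
  have hp := Complex.isPrimitiveRoot_exp m (by omega)
  refine ⟨Complex.exp (2 * Real.pi * Complex.I / m), hp.pow_eq_one, Complex.exp_ne_zero _, ?_, ?_, ?_⟩
  · intro h
    have := hp.dvd_of_pow_eq_one 1 (by rw [pow_one]; exact h)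
    have := Nat.le_of_dvd (by norm_num) this
    omega
  · intro h
    have := hp.dvd_of_pow_eq_one 2 h
    have := Nat.le_of_dvd (by norm_num) this
    omega
  · set η : ℂ := Complex.exp (Real.pi / m * Complex.I) with hη
    have e1 : Complex.exp (2 * Real.pi * Complex.I / m) = η ^ 2 := by
      rw [hη, ← Complex.exp_nat_mul]
      congr 1
      push_cast
      ring
    have e2 : ((2 * Real.cos (Real.pi / m) : ℝ) : ℂ) = η + η⁻¹ := by
      push_cast
      rw [Complex.cos, hη, ← Complex.exp_neg]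
      have : -(↑Real.pi / (m : ℂ)) * Complex.I = -(↑Real.pi / (m : ℂ) * Complex.I) := by ring
      rw [this]
      ring
    have h0 : η ≠ 0 := Complex.exp_ne_zero _
    rw [e1, e2]
    field_simp
    ring

theorem one_le_cos (m : ℕ) (hm : 3 ≤ m) : 1 ≤ 2 * Real.cos (Real.pi / m) := by
  have h3 : Real.cos (Real.pi / 3) ≤ Real.cos (Real.pi / m) := by
    apply Real.cos_le_cos_of_nonneg_of_le_pi
    · positivity
    · have := Real.pi_pos
      linarith
    · apply div_le_div_of_nonneg_left Real.pi_pos.le (by norm_num)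
      exact_mod_cast hm
  rw [Real.cos_pi_div_three] at h3
  linarith

theorem foldr_rep {A : Type} (f : Fin 6 → A → A) (n : ℕ) (w : List (Fin 6)) (a : A) :
    (rep n w).foldr f a = (fun a => w.foldr f a)^[n] a := by
  induction n with
  | zero => simp [rep]
  | succ n ih => rw [rep_succ, List.foldr_append, ih, Function.iterate_succ_apply']

section

variable (c c' : ℂ) (g : Fin 6 → K → FS)

theorem pol_iter (b : Bool) (w : List (Fin 6)) (x : K) (h : (polP g b w x).isEmpty = true)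
    (m : ℕ) (hm : 3 ≤ m)
    (hc : (if b then c else c') = ((2 * Real.cos (Real.pi / m) : ℝ) : ℂ)) (φ : K → ℂ) :
    ((fun φ => w.foldr (actL c c' g) φ)^[m] φ) x = φ x := by
  obtain ⟨ζ, z1, z0, z2, z3, z4⟩ := zfacts m hm
  have key := rec_period m ζ z1 z0 z2 z3
    (fun n => ((fun φ => w.foldr (actL c c' g) φ)^[n] φ) x) (by
      intro n
      have h1 := polP_spec c c' g b w x h ((fun φ => w.foldr (actL c c' g) φ)^[n] φ)
      simp only at h1
      have hr : (if b then c ^ 2 else c' ^ 2) - 1 = ζ + ζ⁻¹ + 1 := by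
        rw [← z4, ← hc]
        cases b <;> simp
      rw [hr] at h1
      simp only [Function.iterate_succ_apply']
      exact h1)
  exact key

/-- first check -/
def ck1 (b : Bool) (w : List (Fin 6)) (x : K) : Bool := (polP g b w x).isEmpty

/-- second check -/
def ck2 (b : Bool) (w : List (Fin 6)) (x : K) : Bool :=
  (polP g b w x).isEmpty || (polP g b (w ++ w) x).isEmpty

theorem ck1_spec (b : Bool) (w : List (Fin 6)) (h : ∀ x, ck1 g b w x = true) (m : ℕ) (hm : 3 ≤ m)
    (hc : (if b then c else c') = ((2 * Real.cos (Real.pi / m) : ℝ) : ℂ)) (φ : K → ℂ) :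
    (rep m w).foldr (actL c c' g) φ = φ := by
  rw [foldr_rep]
  funext x
  exact pol_iter c c' g b w x (h x) m hm hc φ

theorem ck2_spec (b : Bool) (w : List (Fin 6)) (h : ∀ x, ck2 g b w x = true) (m : ℕ) (hm : 3 ≤ m)
    (hc : (if b then c else c') = ((2 * Real.cos (Real.pi / m) : ℝ) : ℂ)) (φ : K → ℂ) :
    (rep (2 * m) w).foldr (actL c c' g) φ = φ := by
  rw [foldr_rep]
  funext x
  have h1 := h x
  unfold ck2 at h1
  rw [Bool.or_eq_true] at h1
  rcases h1 with h1 | h1
  · rw [two_mul, Function.iterate_add_apply, pol_iter c c' g b w x h1 m hm hc,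
      pol_iter c c' g b w x h1 m hm hc]
  · have h2 := pol_iter c c' g b (w ++ w) x h1 m hm hc φ
    have h3 : (fun φ : K → ℂ => (w ++ w).foldr (actL c c' g) φ) =
        (fun φ => w.foldr (actL c c' g) φ)^[2] := by
      funext ψ
      rw [List.foldr_append]; rfl
    rw [h3, ← Function.iterate_mul] at h2
    exact h2

/-- check at `c' = 0` -/
def ck0 (w : List (Fin 6)) (x : K) : Bool :=
  (addL (-1) 0 0 (sg x) ((fo g w (sg x)).filter (fun t => t.2.2.1 == 0))).isEmpty

theorem SL_filter (φ : K → ℂ) (l : FS) :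
    SL c 0 φ (l.filter (fun t => t.2.2.1 == 0)) = SL c 0 φ l := by
  induction l with
  | nil => rfl
  | cons t l ih =>
    by_cases h : t.2.2.1 = 0
    · rw [List.filter_cons_of_pos (by simp [h]), SL_cons, SL_cons, ih]
    · rw [List.filter_cons_of_neg (by simp [h]), SL_cons, ih, zero_pow h]; ring

theorem ck0_spec (w : List (Fin 6)) (h : ∀ x, ck0 g w x = true) (φ : K → ℂ) :
    w.foldr (actL c 0 g) φ = φ := by
  funext x
  have h1 := h x
  unfold ck0 at h1
  rw [List.isEmpty_iff] at h1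
  have h2 := SL_addL c 0 φ (-1) 0 0 (sg x) ((fo g w (sg x)).filter (fun t => t.2.2.1 == 0))
  rw [h1, SL_nil, SL_filter, ← SL_fo, SL_sg, SL_sg] at h2
  push_cast at h2
  simp only [pow_zero, mul_one] at h2
  linear_combination -h2

theorem rep_mul_fix (w : List (Fin 6)) (p n : ℕ)
    (h : ∀ φ, (rep p w).foldr (actL c c' g) φ = φ) (hd : p ∣ n) (φ : K → ℂ) :
    (rep n w).foldr (actL c c' g) φ = φ := by
  obtain ⟨j, rfl⟩ := hd
  rw [foldr_rep, Function.iterate_mul]
  have : (fun φ => w.foldr (actL c c' g) φ)^[p] = id := by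
    funext ψ
    rw [← foldr_rep]; exact h ψ
  rw [this, Function.iterate_id]; rfl

end

/-- growth criterion -/
theorem growth (G : Type) [Group G] (F : G →* Equiv.Perm (K → ℂ)) (g : G) (X Y : (K → ℂ) → ℂ)
    (r : ℝ) (hr : 1 ≤ r)
    (hX : ∀ φ, X (F g φ) = -X φ - 2 * r * Y φ)
    (hY : ∀ φ, Y (F g φ) = -Y φ + 2 * r * (X φ + 2 * r * Y φ))
    (φ0 : K → ℂ) (h0 : X φ0 = 0) (h1 : Y φ0 = 1) : Infinite G := by
  have key : ∀ n : ℕ, ∃ u y : ℝ, X (((F g) ^ n) φ0) = -(u : ℂ) ∧ Y (((F g) ^ n) φ0) = (y : ℂ) ∧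
      (n : ℝ) ≤ u ∧ 0 ≤ u ∧ u + 1 ≤ y := by
    intro n
    induction n with
    | zero => exact ⟨0, 1, by simp [h0], by simp [h1], by simp, le_refl _, by norm_num⟩
    | succ n ih =>
      obtain ⟨u, y, e1, e2, e3, e4, e5⟩ := ih
      refine ⟨2 * r * y - u, -y + 2 * r * (2 * r * y - u), ?_, ?_, ?_, ?_, ?_⟩
      · rw [pow_succ', Equiv.Perm.mul_apply, hX, e1, e2]; push_cast; ring
      · rw [pow_succ', Equiv.Perm.mul_apply, hY, e1, e2]; push_cast; ring
      · push_cast
        nlinarith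
      · nlinarith
      · nlinarith [mul_nonneg (sub_nonneg.mpr hr) (by nlinarith : (0:ℝ) ≤ 2 * r * y - u)]
  refine Infinite.of_injective (fun n : ℕ => g ^ n) ?_
  have hne : ∀ n : ℕ, 0 < n → g ^ n ≠ 1 := by
    intro n hn h
    obtain ⟨u, y, e1, _, e3, _, _⟩ := key n
    have : (F g) ^ n = 1 := by rw [← map_pow, h, map_one]
    rw [this, Equiv.Perm.one_apply, h0] at e1
    have h5 : u = 0 := by
      have : (u : ℂ) = 0 := by linear_combination e1
      exact_mod_cast this
    rw [h5] at e3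
    have : (0 : ℝ) < n := by exact_mod_cast hn
    linarith
  intro a b hab
  simp only at hab
  by_contra hne'
  rcases lt_or_gt_of_ne hne' with h | h
  · apply hne (b - a) (by omega)
    have : g ^ a * g ^ (b - a) = g ^ a * 1 := by
      rw [← pow_add, mul_one, hab]; congr 1; omega
    exact mul_left_cancel this
  · apply hne (a - b) (by omega)
    have : g ^ b * g ^ (a - b) = g ^ b * 1 := by
      rw [← pow_add, mul_one, ← hab]; congr 1; omega
    exact mul_left_cancel this

end Pool.Agent.Helper622.Six
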