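import Pool.Agent.Helper622.Six.Lab2

set_option autoImplicit false

namespace Pool.Agent.Helper622.Six

/-- which directions carry the second label: `true` for family (B), `false` for family (C) -/
def lab2 (fam : Bool) (d : K) : Bool :=
  if fam then (d.a && !d.b && d.c && !d.d) else (d.a && !d.b && d.c)

/-- sum of vectors mod 2 -/
def kx (x u : K) : K := ⟨xor x.a u.a, xor x.b u.b, xor x.c u.c, xor x.d u.d, xor x.e u.e, xor x.f u.f⟩

/-- matrix of a reflection of norm 4 with index `u` -/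
def rfl6 (fam : Bool) (u x : K) : FS :=
  if !x.e && !x.f then [(1, 0, 0, x)]
  else if (x.e == u.e) && (x.f == u.f) then
    (if keq x u then [(-1, 0, 0, x)]
      else if qf (kx x u) then [(1, 0, 0, x)]
      else if lab2 fam (kx x u) then [(1, 0, 0, x), (1, 0, 1, u)]
      else [(1, 0, 0, x), (1, 1, 0, u)])
  else [(1, 0, 0, kx x u)]

/-- centre -/
def kc : K := ⟨false, false, false, false, false, true⟩
/-- leaves -/
def k5 : K := ⟨false, false, false, false, true, false⟩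
/-- leaves -/
def k4 : K := ⟨false, false, false, true, true, false⟩
/-- leaves -/
def k3 : K := ⟨false, false, true, true, true, false⟩

/-- generators, family (B) -/
def gB (i : Fin 6) (x : K) : FS :=
  match i with
  | 0 => [(1, 0, 0, pr 0 x)]
  | 1 => [(1, 0, 0, pr 1 x)]
  | 2 => [(1, 0, 0, pr 2 x)]
  | 3 => rfl6 true k4 x
  | 4 => rfl6 true kc x
  | 5 => rfl6 true k5 x

/-- generators, family (C) -/
def gC (i : Fin 6) (x : K) : FS :=
  match i with
  | 0 => [(1, 0, 0, pr 0 x)]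
  | 1 => [(1, 0, 0, pr 1 x)]
  | 2 => rfl6 false k3 x
  | 3 => rfl6 false kc x
  | 4 => rfl6 false k5 x
  | 5 => [(1, 0, 0, pr 3 x)]

theorem forallK (p : K → Bool) (h : ∀ a b c d e f : Bool, p ⟨a, b, c, d, e, f⟩ = true) (x : K) :
    p x = true := h x.a x.b x.c x.d x.e x.f

/-- vertices -/
def q2 : K := ⟨false, true, false, true, false, true⟩
/-- vertices -/
def q3 : K := ⟨true, false, false, false, false, true⟩
/-- vertices -/
def q4 : K := ⟨true, true, false, true, false, true⟩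

/-- first pair -/
def sA : FS := [(1, 0, 0, kc), (1, 0, 0, q3)]
/-- second pair -/
def sB : FS := [(1, 0, 0, q2), (1, 0, 0, q4)]

/-- check of the two words of a 4-cycle -/
def pchk (g : Fin 6 → K → FS) (wA wB : List (Fin 6)) : Bool :=
  (addL 1 0 0 sA (fo g wA sA)).isEmpty &&
  ((addL (-1) 0 0 sB (addL (-2) 1 0 sA (fo g wA sB))).isEmpty &&
  ((addL 1 0 0 sB (fo g wB sB)).isEmpty &&
  (addL (-1) 0 0 sA (addL (-2) 1 0 sB (fo g wB sA))).isEmpty))

/-- words, family (B) -/
def wAB : List (Fin 6) := [4, 1, 2, 3, 0, 1, 2, 3, 4, 3, 2, 1, 0, 3, 2, 1]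
/-- words, family (B) -/
def wBB : List (Fin 6) :=
  [5, 3, 2, 3, 1, 2, 3, 4, 3, 2, 1, 0, 1, 2, 3, 4, 3, 2, 1, 0, 3, 2, 3, 5]
/-- words, family (C) -/
def wAC : List (Fin 6) := [3, 1, 2, 0, 1, 2, 3, 2, 1, 0, 2, 1]
/-- words, family (C) -/
def wBC : List (Fin 6) := [4, 5, 4, 2, 1, 2, 3, 2, 1, 0, 1, 2, 3, 2, 1, 0, 2, 4, 5, 4]


end Pool.Agent.Helper622.Six
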