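import Pool.Agent.Helper622.Six.LabD

set_option autoImplicit false

namespace Pool.Agent.Helper622.Six

theorem coxLC (i j : Fin 6) : ∀ x, trivL gC (rep (mC i j) [i, j]) x = true :=
  forallK _ (by revert i j; decide +kernel)

theorem pchkC : pchk gC wAC wBC = true := by decide +kernel

end Pool.Agent.Helper622.Six
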