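import Pool.Agent.Helper622.Six.LabG

set_option autoImplicit false

namespace Pool.Agent.Helper622.Six

/-- table of the matrix of a word -/
def tB12 : K → FS
  | ⟨false, false, false, false, false, false⟩ => [(1, 0, 0, ⟨false, false, false, false, false, false⟩)]
  | ⟨false, false, false, false, false, true⟩ => [(1, 0, 0, ⟨true, false, true, false, false, true⟩), (1, 0, 1, ⟨false, false, false, false, false, true⟩)]
  | ⟨false, false, false, false, true, false⟩ => [(1, 0, 0, ⟨false, false, false, false, true, false⟩), (1, 1, 0, ⟨false, true, false, true, true, false⟩)]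
  | ⟨false, false, false, false, true, true⟩ => [(1, 0, 0, ⟨true, false, true, false, true, true⟩), (1, 1, 0, ⟨false, false, false, true, true, true⟩), (1, 1, 0, ⟨false, false, true, true, true, true⟩), (1, 1, 0, ⟨false, true, true, true, true, true⟩)]
  | ⟨false, false, false, true, false, false⟩ => [(1, 0, 0, ⟨false, false, false, true, false, false⟩)]
  | ⟨false, false, false, true, false, true⟩ => [(1, 0, 0, ⟨true, false, true, true, false, true⟩), (1, 1, 0, ⟨false, false, false, false, false, true⟩), (1, 1, 0, ⟨false, false, true, false, false, true⟩), (1, 1, 0, ⟨false, true, true, false, false, true⟩)]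
  | ⟨false, false, false, true, true, false⟩ => [(1, 0, 0, ⟨false, false, false, true, true, false⟩)]
  | ⟨false, false, false, true, true, true⟩ => [(1, 0, 0, ⟨true, false, true, true, true, true⟩), (1, 0, 1, ⟨false, false, false, true, true, true⟩)]
  | ⟨false, false, true, false, false, false⟩ => [(1, 0, 0, ⟨false, false, true, false, false, false⟩)]
  | ⟨false, false, true, false, false, true⟩ => [(1, 0, 0, ⟨true, false, false, false, false, true⟩), (1, 0, 1, ⟨false, false, true, false, false, true⟩)]
  | ⟨false, false, true, false, true, false⟩ => [(1, 0, 0, ⟨false, false, true, false, true, false⟩), (1, 1, 0, ⟨true, true, true, true, true, false⟩), (1, 1, 1, ⟨false, true, false, true, true, false⟩)]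
  | ⟨false, false, true, false, true, true⟩ => [(1, 0, 0, ⟨true, false, false, false, true, true⟩), (1, 1, 0, ⟨false, false, false, true, true, true⟩), (1, 1, 0, ⟨false, false, true, true, true, true⟩), (1, 1, 0, ⟨false, true, false, true, true, true⟩)]
  | ⟨false, false, true, true, false, false⟩ => [(1, 0, 0, ⟨false, false, true, true, false, false⟩)]
  | ⟨false, false, true, true, false, true⟩ => [(1, 0, 0, ⟨true, false, false, true, false, true⟩), (1, 1, 0, ⟨false, false, false, false, false, true⟩), (1, 1, 0, ⟨false, false, true, false, false, true⟩), (1, 1, 0, ⟨false, true, false, false, false, true⟩)]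
  | ⟨false, false, true, true, true, false⟩ => [(1, 0, 0, ⟨false, false, true, true, true, false⟩)]
  | ⟨false, false, true, true, true, true⟩ => [(1, 0, 0, ⟨true, false, false, true, true, true⟩), (1, 0, 1, ⟨false, false, true, true, true, true⟩)]
  | ⟨false, true, false, false, false, false⟩ => [(1, 0, 0, ⟨false, true, false, false, false, false⟩)]
  | ⟨false, true, false, false, false, true⟩ => [(1, 0, 0, ⟨true, true, true, false, false, true⟩), (1, 0, 1, ⟨false, true, false, false, false, true⟩)]
  | ⟨false, true, false, false, true, false⟩ => [(1, 0, 0, ⟨false, true, false, false, true, false⟩), (1, 1, 0, ⟨true, true, true, true, true, false⟩), (1, 1, 1, ⟨false, true, false, true, true, false⟩)]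
  | ⟨false, true, false, false, true, true⟩ => [(1, 0, 0, ⟨true, true, true, false, true, true⟩), (1, 1, 0, ⟨false, false, true, true, true, true⟩), (1, 1, 0, ⟨false, true, true, true, true, true⟩), (1, 1, 0, ⟨false, true, false, true, true, true⟩)]
  | ⟨false, true, false, true, false, false⟩ => [(1, 0, 0, ⟨false, true, false, true, false, false⟩)]
  | ⟨false, true, false, true, false, true⟩ => [(1, 0, 0, ⟨true, true, true, true, false, true⟩), (1, 1, 0, ⟨false, false, true, false, false, true⟩), (1, 1, 0, ⟨false, true, true, false, false, true⟩), (1, 1, 0, ⟨false, true, false, false, false, true⟩)]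
  | ⟨false, true, false, true, true, false⟩ => [(-1, 0, 0, ⟨false, true, false, true, true, false⟩), (1, 0, 1, ⟨true, true, true, true, true, false⟩), (1, 0, 2, ⟨false, true, false, true, true, false⟩)]
  | ⟨false, true, false, true, true, true⟩ => [(1, 0, 0, ⟨true, true, true, true, true, true⟩), (1, 0, 1, ⟨false, true, false, true, true, true⟩)]
  | ⟨false, true, true, false, false, false⟩ => [(1, 0, 0, ⟨false, true, true, false, false, false⟩)]
  | ⟨false, true, true, false, false, true⟩ => [(1, 0, 0, ⟨true, true, false, false, false, true⟩), (1, 0, 1, ⟨false, true, true, false, false, true⟩)]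
  | ⟨false, true, true, false, true, false⟩ => [(1, 0, 0, ⟨false, true, true, false, true, false⟩), (1, 1, 0, ⟨true, true, true, true, true, false⟩), (1, 1, 1, ⟨false, true, false, true, true, false⟩)]
  | ⟨false, true, true, false, true, true⟩ => [(1, 0, 0, ⟨true, true, false, false, true, true⟩), (1, 1, 0, ⟨false, false, false, true, true, true⟩), (1, 1, 0, ⟨false, true, true, true, true, true⟩), (1, 1, 0, ⟨false, true, false, true, true, true⟩)]
  | ⟨false, true, true, true, false, false⟩ => [(1, 0, 0, ⟨false, true, true, true, false, false⟩)]
  | ⟨false, true, true, true, false, true⟩ => [(1, 0, 0, ⟨true, true, false, true, false, true⟩), (1, 1, 0, ⟨false, false, false, false, false, true⟩), (1, 1, 0, ⟨false, true, true, false, false, true⟩), (1, 1, 0, ⟨false, true, false, false, false, true⟩)]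
  | ⟨false, true, true, true, true, false⟩ => [(1, 0, 0, ⟨false, true, true, true, true, false⟩)]
  | ⟨false, true, true, true, true, true⟩ => [(1, 0, 0, ⟨true, true, false, true, true, true⟩), (1, 0, 1, ⟨false, true, true, true, true, true⟩)]
  | ⟨true, false, false, false, false, false⟩ => [(1, 0, 0, ⟨true, false, false, false, false, false⟩)]
  | ⟨true, false, false, false, false, true⟩ => [(-1, 0, 0, ⟨false, false, true, false, false, true⟩)]
  | ⟨true, false, false, false, true, false⟩ => [(1, 0, 0, ⟨true, false, false, false, true, false⟩), (1, 1, 0, ⟨false, true, false, true, true, false⟩)]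
  | ⟨true, false, false, false, true, true⟩ => [(1, 0, 0, ⟨false, false, true, false, true, true⟩), (1, 1, 0, ⟨false, true, true, true, true, true⟩)]
  | ⟨true, false, false, true, false, false⟩ => [(1, 0, 0, ⟨true, false, false, true, false, false⟩)]
  | ⟨true, false, false, true, false, true⟩ => [(1, 0, 0, ⟨false, false, true, true, false, true⟩), (1, 1, 0, ⟨false, true, true, false, false, true⟩)]
  | ⟨true, false, false, true, true, false⟩ => [(1, 0, 0, ⟨true, false, false, true, true, false⟩)]
  | ⟨true, false, false, true, true, true⟩ => [(-1, 0, 0, ⟨false, false, true, true, true, true⟩)]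
  | ⟨true, false, true, false, false, false⟩ => [(1, 0, 0, ⟨true, false, true, false, false, false⟩)]
  | ⟨true, false, true, false, false, true⟩ => [(-1, 0, 0, ⟨false, false, false, false, false, true⟩)]
  | ⟨true, false, true, false, true, false⟩ => [(1, 0, 0, ⟨true, false, true, false, true, false⟩), (1, 1, 0, ⟨true, true, true, true, true, false⟩), (1, 1, 1, ⟨false, true, false, true, true, false⟩)]
  | ⟨true, false, true, false, true, true⟩ => [(1, 0, 0, ⟨false, false, false, false, true, true⟩), (1, 1, 0, ⟨false, true, false, true, true, true⟩)]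
  | ⟨true, false, true, true, false, false⟩ => [(1, 0, 0, ⟨true, false, true, true, false, false⟩)]
  | ⟨true, false, true, true, false, true⟩ => [(1, 0, 0, ⟨false, false, false, true, false, true⟩), (1, 1, 0, ⟨false, true, false, false, false, true⟩)]
  | ⟨true, false, true, true, true, false⟩ => [(1, 0, 0, ⟨true, false, true, true, true, false⟩)]
  | ⟨true, false, true, true, true, true⟩ => [(-1, 0, 0, ⟨false, false, false, true, true, true⟩)]
  | ⟨true, true, false, false, false, false⟩ => [(1, 0, 0, ⟨true, true, false, false, false, false⟩)]
  | ⟨true, true, false, false, false, true⟩ => [(-1, 0, 0, ⟨false, true, true, false, false, true⟩)]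
  | ⟨true, true, false, false, true, false⟩ => [(1, 0, 0, ⟨true, true, false, false, true, false⟩), (1, 1, 0, ⟨false, true, false, true, true, false⟩)]
  | ⟨true, true, false, false, true, true⟩ => [(1, 0, 0, ⟨false, true, true, false, true, true⟩), (1, 1, 0, ⟨false, false, true, true, true, true⟩)]
  | ⟨true, true, false, true, false, false⟩ => [(1, 0, 0, ⟨true, true, false, true, false, false⟩)]
  | ⟨true, true, false, true, false, true⟩ => [(1, 0, 0, ⟨false, true, true, true, false, true⟩), (1, 1, 0, ⟨false, false, true, false, false, true⟩)]
  | ⟨true, true, false, true, true, false⟩ => [(1, 0, 0, ⟨true, true, false, true, true, false⟩)]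
  | ⟨true, true, false, true, true, true⟩ => [(-1, 0, 0, ⟨false, true, true, true, true, true⟩)]
  | ⟨true, true, true, false, false, false⟩ => [(1, 0, 0, ⟨true, true, true, false, false, false⟩)]
  | ⟨true, true, true, false, false, true⟩ => [(-1, 0, 0, ⟨false, true, false, false, false, true⟩)]
  | ⟨true, true, true, false, true, false⟩ => [(1, 0, 0, ⟨true, true, true, false, true, false⟩), (1, 1, 0, ⟨false, true, false, true, true, false⟩)]
  | ⟨true, true, true, false, true, true⟩ => [(1, 0, 0, ⟨false, true, false, false, true, true⟩), (1, 1, 0, ⟨false, false, false, true, true, true⟩)]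
  | ⟨true, true, true, true, false, false⟩ => [(1, 0, 0, ⟨true, true, true, true, false, false⟩)]
  | ⟨true, true, true, true, false, true⟩ => [(1, 0, 0, ⟨false, true, false, true, false, true⟩), (1, 1, 0, ⟨false, false, false, false, false, true⟩)]
  | ⟨true, true, true, true, true, false⟩ => [(-1, 0, 0, ⟨true, true, true, true, true, false⟩), (-1, 0, 1, ⟨false, true, false, true, true, false⟩)]
  | ⟨true, true, true, true, true, true⟩ => [(-1, 0, 0, ⟨false, true, false, true, true, true⟩)]

theorem eB12 : ∀ x, eqTab gB (rep 2 (wB1 2)) tB12 x = true := forallK _ (by decide +kernel)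
theorem kB12 : ∀ x, ck2 (fun _ => tB12) false [0] x = true := forallK _ (by decide +kernel)
theorem kB12z : ∀ x, ck0 (fun _ => tB12) (rep 4 [0]) x = true := forallK _ (by decide +kernel)

theorem zB12 (c : ℂ) (m : ℕ) (hm : 3 ≤ m) (φ : K → ℂ) : (rep (2 * m) (rep 2 (wB1 2))).foldr
    (actL c ((2 * Real.cos (Real.pi / m) : ℝ) : ℂ) gB) φ = φ := by
  rw [rep_tab _ _ gB _ _ eB12]
  exact ck2_spec c _ _ false _ kB12 m hm (by simp) φ

theorem zB12z (c : ℂ) (φ : K → ℂ) : (rep 4 (rep 2 (wB1 2))).foldr (actL c 0 gB) φ = φ := by
  rw [rep_tab _ _ gB _ _ eB12]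
  exact ck0_spec c _ _ kB12z φ

end Pool.Agent.Helper622.Six
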