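import Pool.Agent.Helper622.Six.LabG

set_option autoImplicit false

namespace Pool.Agent.Helper622.Six

/-- table of the matrix of a word -/
def tB21 : K → FS
  | ⟨false, false, false, false, false, false⟩ => [(1, 0, 0, ⟨false, false, false, false, false, false⟩)]
  | ⟨false, false, false, false, false, true⟩ => [(1, 0, 0, ⟨false, true, false, true, false, true⟩), (1, 1, 0, ⟨false, false, false, false, false, true⟩)]
  | ⟨false, false, false, false, true, false⟩ => [(-1, 0, 0, ⟨false, false, false, false, true, false⟩), (-1, 1, 0, ⟨false, true, false, true, true, false⟩)]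
  | ⟨false, false, false, false, true, true⟩ => [(-1, 0, 0, ⟨false, true, false, true, true, true⟩)]
  | ⟨false, false, false, true, false, false⟩ => [(1, 0, 0, ⟨false, false, false, true, false, false⟩)]
  | ⟨false, false, false, true, false, true⟩ => [(-1, 0, 0, ⟨false, true, false, false, false, true⟩)]
  | ⟨false, false, false, true, true, false⟩ => [(1, 0, 0, ⟨false, false, false, true, true, false⟩)]
  | ⟨false, false, false, true, true, true⟩ => [(1, 0, 0, ⟨false, true, false, false, true, true⟩), (1, 1, 0, ⟨false, false, false, true, true, true⟩)]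
  | ⟨false, false, true, false, false, false⟩ => [(1, 0, 0, ⟨false, false, true, false, false, false⟩)]
  | ⟨false, false, true, false, false, true⟩ => [(1, 0, 0, ⟨false, true, true, true, false, true⟩), (1, 1, 0, ⟨false, false, true, false, false, true⟩)]
  | ⟨false, false, true, false, true, false⟩ => [(1, 0, 0, ⟨false, false, true, false, true, false⟩)]
  | ⟨false, false, true, false, true, true⟩ => [(-1, 0, 0, ⟨false, true, true, true, true, true⟩)]
  | ⟨false, false, true, true, false, false⟩ => [(1, 0, 0, ⟨false, false, true, true, false, false⟩)]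
  | ⟨false, false, true, true, false, true⟩ => [(-1, 0, 0, ⟨false, true, true, false, false, true⟩)]
  | ⟨false, false, true, true, true, false⟩ => [(1, 0, 0, ⟨false, false, true, true, true, false⟩)]
  | ⟨false, false, true, true, true, true⟩ => [(1, 0, 0, ⟨false, true, true, false, true, true⟩), (1, 1, 0, ⟨false, false, true, true, true, true⟩)]
  | ⟨false, true, false, false, false, false⟩ => [(1, 0, 0, ⟨false, true, false, false, false, false⟩)]
  | ⟨false, true, false, false, false, true⟩ => [(1, 0, 0, ⟨false, false, false, true, false, true⟩), (1, 1, 0, ⟨false, true, false, false, false, true⟩)]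
  | ⟨false, true, false, false, true, false⟩ => [(1, 0, 0, ⟨false, true, false, false, true, false⟩)]
  | ⟨false, true, false, false, true, true⟩ => [(-1, 0, 0, ⟨false, false, false, true, true, true⟩)]
  | ⟨false, true, false, true, false, false⟩ => [(1, 0, 0, ⟨false, true, false, true, false, false⟩)]
  | ⟨false, true, false, true, false, true⟩ => [(-1, 0, 0, ⟨false, false, false, false, false, true⟩)]
  | ⟨false, true, false, true, true, false⟩ => [(-1, 0, 0, ⟨false, true, false, true, true, false⟩), (1, 1, 0, ⟨false, false, false, false, true, false⟩), (1, 2, 0, ⟨false, true, false, true, true, false⟩)]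
  | ⟨false, true, false, true, true, true⟩ => [(1, 0, 0, ⟨false, false, false, false, true, true⟩), (1, 1, 0, ⟨false, true, false, true, true, true⟩)]
  | ⟨false, true, true, false, false, false⟩ => [(1, 0, 0, ⟨false, true, true, false, false, false⟩)]
  | ⟨false, true, true, false, false, true⟩ => [(1, 0, 0, ⟨false, false, true, true, false, true⟩), (1, 1, 0, ⟨false, true, true, false, false, true⟩)]
  | ⟨false, true, true, false, true, false⟩ => [(1, 0, 0, ⟨false, true, true, false, true, false⟩)]
  | ⟨false, true, true, false, true, true⟩ => [(-1, 0, 0, ⟨false, false, true, true, true, true⟩)]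
  | ⟨false, true, true, true, false, false⟩ => [(1, 0, 0, ⟨false, true, true, true, false, false⟩)]
  | ⟨false, true, true, true, false, true⟩ => [(-1, 0, 0, ⟨false, false, true, false, false, true⟩)]
  | ⟨false, true, true, true, true, false⟩ => [(1, 0, 0, ⟨false, true, true, true, true, false⟩)]
  | ⟨false, true, true, true, true, true⟩ => [(1, 0, 0, ⟨false, false, true, false, true, true⟩), (1, 1, 0, ⟨false, true, true, true, true, true⟩)]
  | ⟨true, false, false, false, false, false⟩ => [(1, 0, 0, ⟨true, false, false, false, false, false⟩)]
  | ⟨true, false, false, false, false, true⟩ => [(1, 0, 0, ⟨true, true, false, true, false, true⟩), (1, 1, 0, ⟨false, false, false, false, false, true⟩), (1, 1, 0, ⟨false, true, true, false, false, true⟩), (1, 1, 0, ⟨false, true, false, false, false, true⟩)]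
  | ⟨true, false, false, false, true, false⟩ => [(1, 0, 0, ⟨true, false, false, false, true, false⟩), (1, 1, 0, ⟨false, true, false, true, true, false⟩)]
  | ⟨true, false, false, false, true, true⟩ => [(1, 0, 0, ⟨true, true, false, true, true, true⟩), (1, 0, 1, ⟨false, true, true, true, true, true⟩)]
  | ⟨true, false, false, true, false, false⟩ => [(1, 0, 0, ⟨true, false, false, true, false, false⟩)]
  | ⟨true, false, false, true, false, true⟩ => [(1, 0, 0, ⟨true, true, false, false, false, true⟩), (1, 0, 1, ⟨false, true, true, false, false, true⟩)]
  | ⟨true, false, false, true, true, false⟩ => [(1, 0, 0, ⟨true, false, false, true, true, false⟩), (1, 1, 0, ⟨false, false, false, false, true, false⟩), (1, 2, 0, ⟨false, true, false, true, true, false⟩)]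
  | ⟨true, false, false, true, true, true⟩ => [(1, 0, 0, ⟨true, true, false, false, true, true⟩), (1, 1, 0, ⟨false, false, false, true, true, true⟩), (1, 1, 0, ⟨false, true, true, true, true, true⟩), (1, 1, 0, ⟨false, true, false, true, true, true⟩)]
  | ⟨true, false, true, false, false, false⟩ => [(1, 0, 0, ⟨true, false, true, false, false, false⟩)]
  | ⟨true, false, true, false, false, true⟩ => [(1, 0, 0, ⟨true, true, true, true, false, true⟩), (1, 1, 0, ⟨false, false, true, false, false, true⟩), (1, 1, 0, ⟨false, true, true, false, false, true⟩), (1, 1, 0, ⟨false, true, false, false, false, true⟩)]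
  | ⟨true, false, true, false, true, false⟩ => [(1, 0, 0, ⟨true, false, true, false, true, false⟩), (1, 0, 1, ⟨false, false, false, false, true, false⟩), (1, 1, 1, ⟨false, true, false, true, true, false⟩)]
  | ⟨true, false, true, false, true, true⟩ => [(1, 0, 0, ⟨true, true, true, true, true, true⟩), (1, 0, 1, ⟨false, true, false, true, true, true⟩)]
  | ⟨true, false, true, true, false, false⟩ => [(1, 0, 0, ⟨true, false, true, true, false, false⟩)]
  | ⟨true, false, true, true, false, true⟩ => [(1, 0, 0, ⟨true, true, true, false, false, true⟩), (1, 0, 1, ⟨false, true, false, false, false, true⟩)]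
  | ⟨true, false, true, true, true, false⟩ => [(1, 0, 0, ⟨true, false, true, true, true, false⟩), (1, 1, 0, ⟨false, false, false, false, true, false⟩), (1, 2, 0, ⟨false, true, false, true, true, false⟩)]
  | ⟨true, false, true, true, true, true⟩ => [(1, 0, 0, ⟨true, true, true, false, true, true⟩), (1, 1, 0, ⟨false, false, true, true, true, true⟩), (1, 1, 0, ⟨false, true, true, true, true, true⟩), (1, 1, 0, ⟨false, true, false, true, true, true⟩)]
  | ⟨true, true, false, false, false, false⟩ => [(1, 0, 0, ⟨true, true, false, false, false, false⟩)]
  | ⟨true, true, false, false, false, true⟩ => [(1, 0, 0, ⟨true, false, false, true, false, true⟩), (1, 1, 0, ⟨false, false, false, false, false, true⟩), (1, 1, 0, ⟨false, false, true, false, false, true⟩), (1, 1, 0, ⟨false, true, false, false, false, true⟩)]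
  | ⟨true, true, false, false, true, false⟩ => [(1, 0, 0, ⟨true, true, false, false, true, false⟩), (1, 1, 0, ⟨false, true, false, true, true, false⟩)]
  | ⟨true, true, false, false, true, true⟩ => [(1, 0, 0, ⟨true, false, false, true, true, true⟩), (1, 0, 1, ⟨false, false, true, true, true, true⟩)]
  | ⟨true, true, false, true, false, false⟩ => [(1, 0, 0, ⟨true, true, false, true, false, false⟩)]
  | ⟨true, true, false, true, false, true⟩ => [(1, 0, 0, ⟨true, false, false, false, false, true⟩), (1, 0, 1, ⟨false, false, true, false, false, true⟩)]
  | ⟨true, true, false, true, true, false⟩ => [(1, 0, 0, ⟨true, true, false, true, true, false⟩), (1, 1, 0, ⟨false, false, false, false, true, false⟩), (1, 2, 0, ⟨false, true, false, true, true, false⟩)]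
  | ⟨true, true, false, true, true, true⟩ => [(1, 0, 0, ⟨true, false, false, false, true, true⟩), (1, 1, 0, ⟨false, false, false, true, true, true⟩), (1, 1, 0, ⟨false, false, true, true, true, true⟩), (1, 1, 0, ⟨false, true, false, true, true, true⟩)]
  | ⟨true, true, true, false, false, false⟩ => [(1, 0, 0, ⟨true, true, true, false, false, false⟩)]
  | ⟨true, true, true, false, false, true⟩ => [(1, 0, 0, ⟨true, false, true, true, false, true⟩), (1, 1, 0, ⟨false, false, false, false, false, true⟩), (1, 1, 0, ⟨false, false, true, false, false, true⟩), (1, 1, 0, ⟨false, true, true, false, false, true⟩)]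
  | ⟨true, true, true, false, true, false⟩ => [(1, 0, 0, ⟨true, true, true, false, true, false⟩), (1, 1, 0, ⟨false, true, false, true, true, false⟩)]
  | ⟨true, true, true, false, true, true⟩ => [(1, 0, 0, ⟨true, false, true, true, true, true⟩), (1, 0, 1, ⟨false, false, false, true, true, true⟩)]
  | ⟨true, true, true, true, false, false⟩ => [(1, 0, 0, ⟨true, true, true, true, false, false⟩)]
  | ⟨true, true, true, true, false, true⟩ => [(1, 0, 0, ⟨true, false, true, false, false, true⟩), (1, 0, 1, ⟨false, false, false, false, false, true⟩)]
  | ⟨true, true, true, true, true, false⟩ => [(1, 0, 0, ⟨true, true, true, true, true, false⟩), (1, 0, 1, ⟨false, true, false, true, true, false⟩)]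
  | ⟨true, true, true, true, true, true⟩ => [(1, 0, 0, ⟨true, false, true, false, true, true⟩), (1, 1, 0, ⟨false, false, false, true, true, true⟩), (1, 1, 0, ⟨false, false, true, true, true, true⟩), (1, 1, 0, ⟨false, true, true, true, true, true⟩)]

theorem eB21 : ∀ x, eqTab gB (wB2 1) tB21 x = true := forallK _ (by decide +kernel)
theorem kB21 : ∀ x, ck2 (fun _ => tB21) true [0] x = true := forallK _ (by decide +kernel)

theorem zB21 (c' : ℂ) (m : ℕ) (hm : 3 ≤ m) (φ : K → ℂ) : (rep (2 * m) (wB2 1)).foldr
    (actL ((2 * Real.cos (Real.pi / m) : ℝ) : ℂ) c' gB) φ = φ := by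
  rw [rep_tab _ _ gB _ _ eB21]
  exact ck2_spec _ c' _ true _ kB21 m hm (by simp) φ

end Pool.Agent.Helper622.Six
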