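import Pool.Agent.Helper622.Six.LabHB
import Pool.Agent.Helper622.Six.LabHC
import Pool.Agent.Helper622.Six.LabTB11
import Pool.Agent.Helper622.Six.LabTB12
import Pool.Agent.Helper622.Six.LabTB21
import Pool.Agent.Helper622.Six.LabTB22
import Pool.Agent.Helper622.Six.LabTC11
import Pool.Agent.Helper622.Six.LabTC12
import Pool.Agent.Helper622.Six.LabTC21
import Pool.Agent.Helper622.Six.LabTC22
import Pool.Agent.Helper622.Six.LabTC24

set_option autoImplicit false

namespace Pool.Agent.Helper622.Six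

theorem lab_infinite (mm : Fin 6 → Fin 6 → ℕ) (hmm : ∀ i, mm i i = 1) (w1 w2 : List (Fin 6))
    (n1 n2 : ℕ) (g : Fin 6 → K → FS) (wA wB : List (Fin 6)) (hp : pchk g wA wB = true)
    (hcox : ∀ i j x, trivL g (rep (mm i j) [i, j]) x = true) (r : ℝ) (hr : 1 ≤ r) (c' : ℂ)
    (h1 : ∀ φ, (rep n1 w1).foldr (actL (r : ℂ) c' g) φ = φ)
    (h2 : ∀ φ, (rep n2 w2).foldr (actL (r : ℂ) c' g) φ = φ) :
    Infinite (PresentedGroup ({w : FreeGroup (Fin 6) | ∃ i j : Fin 6,
        w = (FreeGroup.of i * FreeGroup.of j) ^ (mm i j)} ∪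
        {((w1.map FreeGroup.of).prod) ^ n1, ((w2.map FreeGroup.of).prod) ^ n2})) := by
  obtain ⟨F, hF⟩ := exists_hom2 mm hmm w1 w2 n1 n2 (actL (r : ℂ) c' g)
    (fun i j a => trivL_foldr _ _ g _ (hcox i j) a) h1 h2
  simp only [pchk, Bool.and_eq_true, List.isEmpty_iff] at hp
  obtain ⟨p1, p2, p3, p4⟩ := hp
  have e1 : ∀ φ, SL (r : ℂ) c' (wA.foldr (actL (r : ℂ) c' g) φ) sA = - SL (r : ℂ) c' φ sA := by
    intro φ
    have h := SL_addL (r : ℂ) c' φ 1 0 0 sA (fo g wA sA)
    rw [p1, SL_nil, ← SL_fo] at h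
    push_cast at h
    simp only [pow_zero, mul_one, one_mul] at h
    linear_combination -h
  have e2 : ∀ φ, SL (r : ℂ) c' (wA.foldr (actL (r : ℂ) c' g) φ) sB =
      SL (r : ℂ) c' φ sB + 2 * r * SL (r : ℂ) c' φ sA := by
    intro φ
    have h := SL_addL (r : ℂ) c' φ (-1) 0 0 sB (addL (-2) 1 0 sA (fo g wA sB))
    rw [p2, SL_nil, SL_addL, ← SL_fo] at h
    push_cast at h
    simp only [pow_zero, pow_one, mul_one, one_mul] at h
    linear_combination -h
  have e3 : ∀ φ, SL (r : ℂ) c' (wB.foldr (actL (r : ℂ) c' g) φ) sB = - SL (r : ℂ) c' φ sB := by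
    intro φ
    have h := SL_addL (r : ℂ) c' φ 1 0 0 sB (fo g wB sB)
    rw [p3, SL_nil, ← SL_fo] at h
    push_cast at h
    simp only [pow_zero, mul_one, one_mul] at h
    linear_combination -h
  have e4 : ∀ φ, SL (r : ℂ) c' (wB.foldr (actL (r : ℂ) c' g) φ) sA =
      SL (r : ℂ) c' φ sA + 2 * r * SL (r : ℂ) c' φ sB := by
    intro φ
    have h := SL_addL (r : ℂ) c' φ (-1) 0 0 sA (addL (-2) 1 0 sB (fo g wB sA))
    rw [p4, SL_nil, SL_addL, ← SL_fo] at h
    push_cast at h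
    simp only [pow_zero, pow_one, mul_one, one_mul] at h
    linear_combination -h
  refine growth _ F (((wA ++ wB).map PresentedGroup.of).prod) (fun φ => SL (r : ℂ) c' φ sA)
    (fun φ => SL (r : ℂ) c' φ sB) r hr ?_ ?_ (fun x => if keq x q2 then 1 else 0) ?_ ?_
  · intro φ
    rw [hF, List.foldr_append, e1, e4]; ring
  · intro φ
    rw [hF, List.foldr_append, e2, e3, e4]
  · simp [SL, sA, kc, q3, q2, keq]
  · simp [SL, sB, q4, q2, keq]

theorem infinite_B_lab (k s k' t m m' : ℕ) (hk : k = 1 ∨ k = 2) (hk' : k' = 1 ∨ k' = 2)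
    (hm : 3 ≤ m) (hm' : 2 ≤ m') (hs : 2 * m' ∣ s) (ht : (if k' = 1 then 2 * m else m) ∣ t) :
    Infinite (PresentedGroup (relsB k s k' t)) := by
  have h1 : ∃ c' : ℂ, ∀ c : ℂ, ∀ φ, (rep (k * s) (wB1 k)).foldr (actL c c' gB) φ = φ := by
    rcases Nat.lt_or_ge m' 3 with h | h
    · have hm2 : m' = 2 := by omega
      subst hm2
      refine ⟨0, fun c φ => ?_⟩
      rcases hk with rfl | rfl
      · exact rep_mul_fix c 0 gB (wB1 1) 4 _ (zB11z c) (by simpa using hs) φ
      · have := zB12z c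
        simp only [rep_rep] at this
        exact rep_mul_fix c 0 gB (wB1 2) (4 * 2) _ this
          (by obtain ⟨j, rfl⟩ := hs; exact ⟨j, by ring⟩) φ
    · refine ⟨((2 * Real.cos (Real.pi / m') : ℝ) : ℂ), fun c φ => ?_⟩
      rcases hk with rfl | rfl
      · exact rep_mul_fix c _ gB (wB1 1) (2 * m') _ (zB11 c m' h) (by simpa using hs) φ
      · have := zB12 c m' h
        simp only [rep_rep] at this
        exact rep_mul_fix c _ gB (wB1 2) (2 * m' * 2) _ this
          (by obtain ⟨j, rfl⟩ := hs; exact ⟨j, by ring⟩) φ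
  obtain ⟨c', h1⟩ := h1
  have h2 : ∀ φ, (rep (k' * t) (wB2 k')).foldr
      (actL ((2 * Real.cos (Real.pi / m) : ℝ) : ℂ) c' gB) φ = φ := by
    intro φ
    rcases hk' with rfl | rfl
    · rw [if_pos rfl] at ht
      exact rep_mul_fix _ _ gB (wB2 1) (2 * m) _ (zB21 c' m hm) (by simpa using ht) φ
    · rw [if_neg (by norm_num)] at ht
      have := zB22 c' m hm
      simp only [rep_rep] at this
      exact rep_mul_fix _ _ gB (wB2 2) (m * 2) _ this
          (by obtain ⟨j, rfl⟩ := ht; exact ⟨j, by ring⟩) φ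
  exact lab_infinite mB (by decide) (wB1 k) (wB2 k') (k * s) (k' * t) gB wAB wBB pchkB coxLB
    (2 * Real.cos (Real.pi / m)) (one_le_cos m hm) c' (h1 _) h2

theorem infinite_C_lab (k t l u m m' : ℕ) (hk : k = 1 ∨ k = 2) (hl : l = 1 ∨ l = 2 ∨ l = 4)
    (hm : 3 ≤ m) (hm' : 2 ≤ m') (ht : (if k = 1 then 2 * m' else m') ∣ t)
    (hu : (if l = 4 then m else 2 * m) ∣ u) :
    Infinite (PresentedGroup (relsC k t l u)) := by
  have h1 : ∃ c' : ℂ, ∀ c : ℂ, ∀ φ, (rep (k * t) (wC1 k)).foldr (actL c c' gC) φ = φ := by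
    rcases Nat.lt_or_ge m' 3 with h | h
    · have hm2 : m' = 2 := by omega
      subst hm2
      refine ⟨0, fun c φ => ?_⟩
      rcases hk with rfl | rfl
      · exact rep_mul_fix c 0 gC (wC1 1) 4 _ (zC11z c) (by simpa using ht) φ
      · rw [if_neg (by norm_num)] at ht
        have := zC12z c
        simp only [rep_rep] at this
        exact rep_mul_fix c 0 gC (wC1 2) (2 * 2) _ this
          (by obtain ⟨j, rfl⟩ := ht; exact ⟨j, by ring⟩) φ
    · refine ⟨((2 * Real.cos (Real.pi / m') : ℝ) : ℂ), fun c φ => ?_⟩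
      rcases hk with rfl | rfl
      · exact rep_mul_fix c _ gC (wC1 1) (2 * m') _ (zC11 c m' h) (by simpa using ht) φ
      · rw [if_neg (by norm_num)] at ht
        have := zC12 c m' h
        simp only [rep_rep] at this
        exact rep_mul_fix c _ gC (wC1 2) (m' * 2) _ this
          (by obtain ⟨j, rfl⟩ := ht; exact ⟨j, by ring⟩) φ
  obtain ⟨c', h1⟩ := h1
  have h2 : ∀ φ, (rep (l * u) (wC2 l)).foldr
      (actL ((2 * Real.cos (Real.pi / m) : ℝ) : ℂ) c' gC) φ = φ := by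
    intro φ
    rcases hl with rfl | rfl | rfl
    · rw [if_neg (by norm_num)] at hu
      exact rep_mul_fix _ _ gC (wC2 1) (2 * m) _ (zC21 c' m hm) (by simpa using hu) φ
    · rw [if_neg (by norm_num)] at hu
      have := zC22 c' m hm
      simp only [rep_rep] at this
      exact rep_mul_fix _ _ gC (wC2 2) (2 * m * 2) _ this
          (by obtain ⟨j, rfl⟩ := hu; exact ⟨j, by ring⟩) φ
    · rw [if_pos rfl] at hu
      have := zC24 c' m hm
      simp only [rep_rep] at this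
      exact rep_mul_fix _ _ gC (wC2 4) (m * 4) _ this
          (by obtain ⟨j, rfl⟩ := hu; exact ⟨j, by ring⟩) φ
  exact lab_infinite mC (by decide) (wC1 k) (wC2 l) (k * t) (l * u) gC wAC wBC pchkC coxLC
    (2 * Real.cos (Real.pi / m)) (one_le_cos m hm) c' (h1 _) h2

end Pool.Agent.Helper622.Six
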