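import Pool.Agent.Helper622.Six.LabD

set_option autoImplicit false

namespace Pool.Agent.Helper622.Six

/-- equality of the matrix of a word with a table -/
def eqTab (g : Fin 6 → K → FS) (w : List (Fin 6)) (tab : K → FS) (x : K) : Bool :=
  (addL (-1) 0 0 (tab x) (fo g w (sg x))).isEmpty

theorem iter_tab (c c' : ℂ) (g : Fin 6 → K → FS) (w : List (Fin 6)) (tab : K → FS)
    (h : ∀ x, eqTab g w tab x = true) :
    (fun φ : K → ℂ => w.foldr (actL c c' g) φ) =
      (fun φ => [(0 : Fin 6)].foldr (actL c c' (fun _ => tab)) φ) := by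
  funext φ x
  have h1 := h x
  unfold eqTab at h1
  rw [List.isEmpty_iff] at h1
  have h2 := SL_addL c c' φ (-1) 0 0 (tab x) (fo g w (sg x))
  rw [h1, SL_nil, ← SL_fo, SL_sg] at h2
  push_cast at h2
  simp only [pow_zero, mul_one] at h2
  show w.foldr (actL c c' g) φ x = SL c c' φ (tab x)
  linear_combination -h2

theorem rep_tab (c c' : ℂ) (g : Fin 6 → K → FS) (w : List (Fin 6)) (tab : K → FS)
    (h : ∀ x, eqTab g w tab x = true) (n : ℕ) (φ : K → ℂ) :
    (rep n w).foldr (actL c c' g) φ = (rep n [0]).foldr (actL c c' (fun _ => tab)) φ := by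
  rw [foldr_rep, foldr_rep, iter_tab c c' g w tab h]

end Pool.Agent.Helper622.Six
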