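import Pool.Agent.Helper622.Six.Grp

/-!
# Linear algebra of words and sums over full periods
-/

set_option autoImplicit false

namespace Pool.Agent.Helper622.Six

open V X

theorem r_add (i : Fin 6) (u v : V) : r i (u + v) = r i u + r i v := by
  fin_cases i <;> (apply V.ext <;> simp only [r, add_a, add_b, add_c, add_d, add_e, add_f] <;> ring)

theorem r_sm (i : Fin 6) (k : ℤ) (v : V) : r i (sm k v) = sm k (r i v) := by
  fin_cases i <;> (apply V.ext <;> simp only [r, sm_a, sm_b, sm_c, sm_d, sm_e, sm_f] <;> ring)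

theorem neg_eq_sm (v : V) : -v = sm (-1) v := by
  apply V.ext <;> simp

theorem mat_add (w : List (Fin 6)) (u v : V) : mat w (u + v) = mat w u + mat w v := by
  induction w with
  | nil => rfl
  | cons i w ih =>
    have h : ∀ z, mat (i :: w) z = r i (mat w z) := fun z => rfl
    rw [h, h, h, ih, r_add]

theorem mat_sm (w : List (Fin 6)) (k : ℤ) (v : V) : mat w (sm k v) = sm k (mat w v) := by
  induction w with
  | nil => rfl
  | cons i w ih =>
    have h : ∀ z, mat (i :: w) z = r i (mat w z) := fun z => rfl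
    rw [h, h, ih, r_sm]

theorem mat_neg (w : List (Fin 6)) (v : V) : mat w (-v) = - mat w v := by
  rw [neg_eq_sm, mat_sm, ← neg_eq_sm]

theorem mat_append (w w' : List (Fin 6)) (v : V) : mat (w ++ w') v = mat w (mat w' v) := by
  simp [mat, List.foldr_append]

theorem mat_rep_succ (j : ℕ) (w : List (Fin 6)) (v : V) :
    mat (rep (j + 1) w) v = mat w (mat (rep j w) v) := by
  rw [rep_succ, mat_append]

theorem sm_zero (v : V) : sm 0 v = ⟨0, 0, 0, 0, 0, 0⟩ := by apply V.ext <;> simp

theorem add_sm_zero (u v : V) : u + sm 0 v = u := by apply V.ext <;> simp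

theorem mat_rep_period (w : List (Fin 6)) (v d : V) (κ : ℤ) (h : mat w v = v + sm κ d)
    (hd : mat w d = d) (j : ℕ) : mat (rep j w) v = v + sm (j * κ) d := by
  induction j with
  | zero => rw [rep_zero]; apply V.ext <;> simp [mat]
  | succ j ih =>
    rw [mat_rep_succ, ih, mat_add, mat_sm, h, hd]
    apply V.ext <;> simp only [add_a, add_b, add_c, add_d, add_e, add_f, sm_a, sm_b, sm_c, sm_d,
      sm_e, sm_f] <;> push_cast <;> ring

theorem mat_rep_unip (w : List (Fin 6)) (v p q : V) (h : mat w v = v + p) (hp : mat w p = p + q)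
    (hq : mat w q = q) (j : ℕ) :
    mat (rep j w) v = v + sm j p + sm (Nat.choose j 2) q := by
  induction j with
  | zero => rw [rep_zero]; apply V.ext <;> simp [mat]
  | succ j ih =>
    rw [mat_rep_succ, ih, mat_add, mat_add, mat_sm, mat_sm, h, hp, hq]
    have hc : ((Nat.choose (j + 1) 2 : ℕ) : ℤ) = j + Nat.choose j 2 := by
      rw [Nat.choose_succ_succ' j 1]
      simp
    apply V.ext <;> simp only [add_a, add_b, add_c, add_d, add_e, add_f, sm_a, sm_b, sm_c, sm_d,
      sm_e, sm_f, hc] <;> push_cast <;> ring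

theorem terms_append (C : Fin 6 → List (ℤ × V)) (w w' : List (Fin 6)) :
    terms C (w ++ w') = terms C w ++ mp (mat w) (terms C w') := by
  induction w with
  | nil => simp [terms, mp, mat]
  | cons i w ih =>
    rw [List.cons_append, terms, ih, terms, List.append_assoc]
    congr 1
    simp [mp, Function.comp_def, mat]

variable {s : ℕ}

theorem S_terms_rep (C : Fin 6 → List (ℤ × V)) (φ : V → ℤ) (u : List (Fin 6)) (n : ℕ) :
    S φ (terms C (rep n u)) =
      ∑ j ∈ Finset.range n, S (fun v => φ (mat (rep j u) v)) (terms C u) := by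
  induction n with
  | zero => rfl
  | succ n ih => rw [rep_succ', terms_append, S_append, ih, S_mp, Finset.sum_range_succ]

theorem sum_range_zmod (s : ℕ) [NeZero s] (f : ZMod s → ℤ) :
    ∑ j ∈ Finset.range s, f (j : ZMod s) = ∑ z : ZMod s, f z := by
  rw [Finset.sum_range]
  refine Fintype.sum_bijective (fun i : Fin s => ((i : ℕ) : ZMod s)) ?_ _ _ (fun i => rfl)
  rw [Fintype.bijective_iff_injective_and_card]
  refine ⟨?_, by simp [ZMod.card]⟩
  intro i j hij
  have h1 := congrArg ZMod.val hij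
  simp only [ZMod.val_natCast] at h1
  rw [Nat.mod_eq_of_lt i.2, Nat.mod_eq_of_lt j.2] at h1
  exact Fin.ext h1

theorem sum_unit (s : ℕ) [NeZero s] (f : ZMod s → ℤ) (κ : ℕ) (hκ : Nat.Coprime κ s) (c d : ZMod s) :
    ∑ j ∈ Finset.range s, f (c + (j * κ : ZMod s) * d) = ∑ z : ZMod s, f (c + z * d) := by
  rw [sum_range_zmod s (fun z => f (c + (z * κ : ZMod s) * d))]
  have hu : IsUnit (κ : ZMod s) := (ZMod.isUnit_iff_coprime κ s).mpr hκ
  obtain ⟨t, ht⟩ := hu
  rw [← ht]
  exact Fintype.sum_equiv (Units.mulRight t) _ _ (fun z => by simp)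

theorem sum_pair (s : ℕ) [NeZero s] (f : ZMod s → ℤ) (κ : ℕ) (hκ : Nat.Coprime κ s) (c d : ZMod s) :
    ∑ j ∈ Finset.range s, (f (c + (j * κ : ZMod s) * d) - f (c + d + (j * κ : ZMod s) * d)) = 0 := by
  rw [Finset.sum_sub_distrib, sum_unit s f κ hκ, sum_unit s f κ hκ]
  have : ∑ z : ZMod s, f (c + d + z * d) = ∑ z : ZMod s, f (c + z * d) := by
    refine Fintype.sum_equiv (Equiv.addRight (1 : ZMod s)) _ _ (fun z => ?_)
    congr 1
    simp only [Equiv.coe_addRight]
    ring
  rw [this, sub_self]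

end Pool.Agent.Helper622.Six
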