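import Pool.Agent.Helper622.Six.OddMain

set_option autoImplicit false

namespace Pool.Agent.Helper622.Six

open V X

/-- the odd function with support 1, -1 -/
def ps (s : ℕ) (z : ZMod s) : ℤ := if z = 1 then 1 else if z = -1 then -1 else 0

theorem ps_odd (s : ℕ) (hs : 3 ≤ s) (z : ZMod s) : ps s (-z) = - ps s z := by
  have h1 : (1 : ZMod s) ≠ -1 := by
    intro h
    have h2 : ((2 : ℕ) : ZMod s) = 0 := by
      push_cast
      have : (2 : ZMod s) = 1 + 1 := by norm_num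
      rw [this]
      nth_rewrite 1 [h]
      ring
    rw [ZMod.natCast_eq_zero_iff] at h2
    have := Nat.le_of_dvd (by norm_num) h2
    omega
  unfold ps
  by_cases ha : z = 1
  · subst ha
    rw [if_neg (fun h => h1 h.symm), if_pos rfl, if_pos rfl]
  · by_cases hb : z = -1
    · subst hb
      rw [neg_neg, if_pos rfl, if_neg ha, if_pos rfl, neg_neg]
    · rw [if_neg (fun h => hb (by rw [← h, neg_neg])), if_neg (fun h => ha (neg_injective h)),
        if_neg ha, if_neg hb, neg_zero]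

/-- the loop -/
def w43 : List (Fin 6) := [0, 1, 3, 2, 4, 5, 4, 3, 2, 1, 0, 4, 3, 2, 1, 4, 3, 2, 4, 3, 4, 5, 4, 3,
  4, 5, 2, 3, 4, 1, 2, 3, 4, 0, 1, 2, 3, 4, 5, 4, 3, 4, 2]

/-- base functional -/
def x43 (s : ℕ) : X s := ⟨2, 2, 2, -2, -2, 3⟩

/-- its values -/
def dot43 (v : V) : ℤ := 2 * v.a + 2 * v.b + 2 * v.c - 2 * v.d - 2 * v.e + 3 * v.f

theorem ev43 (s : ℕ) (v : V) : ev (x43 s) v = ((dot43 v : ℤ) : ZMod s) := by
  simp only [ev, x43, dot43]; push_cast; ring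

theorem fix43 (s : ℕ) : actw w43 (x43 s) = x43 s := by
  refine ext_bas (fun i => ?_)
  rw [ev_actw, ev43, ev43]
  have : ∀ i : Fin 6, dot43 (mat w43 (bas i)) = dot43 (bas i) := by decide +kernel
  rw [this]

/-- integer list -/
def lz : List (ℤ × ℤ) := (terms C4 w43).map (fun p => (p.1, dot43 p.2))

/-- its value -/
def dz : List (ℤ × ℤ) :=
  [(16, 1), (-1, 2), (-6, 3), (-6, 4), (6, 5), (3, 6), (-4, 7), (1, 8)]

/-- the coefficient of zero -/
def cz : ℤ := ((norm (lz ++ ngl dz)).filter (fun p => p.2 == 0)).foldl (fun a p => a + p.1) 0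

theorem dz_ok : allZero (norm (lz ++ ngl (dz ++ [(cz, 0)]))) = true := by decide +kernel

theorem S_lz (φ : ℤ → ℤ) (hφ : ∀ z, φ (-z) = -φ z) : S φ lz =
    16 * φ 1 - φ 2 - 6 * φ 3 - 6 * φ 4 + 6 * φ 5 + 3 * φ 6 - 4 * φ 7 + φ 8 := by
  have h0 : φ 0 = 0 := by
    have := hφ 0
    rw [neg_zero] at this
    linarith
  rw [S_eq φ hφ _ _ dz_ok, S_append]
  simp only [dz, S_cons, S_nil, h0]
  ring

theorem S_terms43 (s : ℕ) (ψ : ZMod s → ℤ) :
    S (ph ψ (x43 s)) (terms C4 w43) = S (fun z : ℤ => ψ (z : ZMod s)) lz := by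
  unfold lz S ph
  rw [List.map_map]
  congr 1
  apply List.map_congr_left
  intro p _
  simp [ev43]

theorem ps_small (s : ℕ) (hs : 11 ≤ s) (k : ℤ) (h2 : 2 ≤ k) (h8 : k ≤ 8) :
    ps s ((k : ℤ) : ZMod s) = 0 := by
  have hne : ∀ m : ℤ, 1 ≤ m → m ≤ 9 → ((m : ℤ) : ZMod s) ≠ 0 := by
    intro m h1 h9 h
    rw [ZMod.intCast_zmod_eq_zero_iff_dvd] at h
    have := Int.le_of_dvd (by omega) h
    omega
  have ha : ((k : ℤ) : ZMod s) ≠ 1 := by
    intro h
    apply hne (k - 1) (by omega) (by omega)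
    push_cast
    rw [h]; ring
  have hb : ((k : ℤ) : ZMod s) ≠ -1 := by
    intro h
    apply hne (k + 1) (by omega) (by omega)
    push_cast
    rw [h]; ring
  unfold ps
  rw [if_neg ha, if_neg hb]

theorem total_ne (s : ℕ) (hs : Odd s) (h5 : 5 ≤ s) :
    S (fun z : ℤ => ps s (z : ZMod s)) lz ≠ 0 := by
  have hodd : ∀ z : ℤ, (fun z : ℤ => ps s (z : ZMod s)) (-z) =
      - (fun z : ℤ => ps s (z : ZMod s)) z := by
    intro z
    show ps s (((-z : ℤ)) : ZMod s) = - ps s (z : ZMod s)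
    rw [Int.cast_neg, ps_odd s (by omega)]
  rw [S_lz _ hodd]
  by_cases h11 : 11 ≤ s
  · have e1 : ps s (((1 : ℤ)) : ZMod s) = 1 := by simp [ps]
    show 16 * ps s (((1 : ℤ)) : ZMod s) - ps s (((2 : ℤ)) : ZMod s) - 6 * ps s (((3 : ℤ)) : ZMod s)
      - 6 * ps s (((4 : ℤ)) : ZMod s) + 6 * ps s (((5 : ℤ)) : ZMod s) + 3 * ps s (((6 : ℤ)) : ZMod s)
      - 4 * ps s (((7 : ℤ)) : ZMod s) + ps s (((8 : ℤ)) : ZMod s) ≠ 0
    rw [e1, ps_small s h11 2 (by norm_num) (by norm_num), ps_small s h11 3 (by norm_num) (by norm_num),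
      ps_small s h11 4 (by norm_num) (by norm_num), ps_small s h11 5 (by norm_num) (by norm_num),
      ps_small s h11 6 (by norm_num) (by norm_num), ps_small s h11 7 (by norm_num) (by norm_num),
      ps_small s h11 8 (by norm_num) (by norm_num)]
    norm_num
  · have : s = 5 ∨ s = 7 ∨ s = 9 := by
      obtain ⟨m, hm⟩ := hs
      omega
    rcases this with rfl | rfl | rfl <;> decide

theorem infinite_odd (k s : ℕ) (hs : Odd s) (h5 : 5 ≤ s) : Infinite (PresentedGroup (rels k s)) := by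
  haveI : NeZero s := ⟨by omega⟩
  have hψ := ps_odd s (by omega)
  refine infinite_of C4 (ps s) hψ (fun _ => True) (fun _ _ _ => trivial) cox4 k s
    (fun p _ => odd_rel hs (ps s) hψ k p) w43 (x43 s) trivial (fix43 s) ?_
  rw [S_terms43]
  exact total_ne s hs h5

end Pool.Agent.Helper622.Six
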